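import Pool.Agent.Work.MP_841263_tu.Interface

set_option autoImplicit false

/-! # Block ADJ: neighbouring lines meet in one point -/

open CategoryTheory CategoryTheory.Limits CategoryTheory.Pretriangulated
open scoped ZeroObject

namespace Pool.Tube

open Pool.Stab

universe v u

section

variable {C : Type u} [Category.{v} C] [Preadditive C] [HasZeroObject C] [HasShift C ℤ]
  [∀ n : ℤ, (shiftFunctor C n).Additive] [Pretriangulated C]

/-- exactness at `Hom(A, X[1])` for a triangle `W → V → X → W[1]` -/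
theorem ADJ_lift {A W V X : C} {a : W ⟶ V} {d : V ⟶ X} {q : X ⟶ W⟦(1 : ℤ)⟧}
    (hT : Triangle.mk a d q ∈ distTriang C) (w : A ⟶ X⟦(1 : ℤ)⟧) (hw : w ≫ q⟦(1 : ℤ)⟧' = 0) :
    ∃ u : A ⟶ V⟦(1 : ℤ)⟧, w = u ≫ d⟦(1 : ℤ)⟧' := by
  have h1 := rot_mk (rot_mk hT)
  obtain ⟨g, hg⟩ := Triangle.coyoneda_exact₁ _ h1 w (by exact hw)
  have h2 : ∃ g' : A ⟶ V⟦(1 : ℤ)⟧, w = g' ≫ (-d⟦(1 : ℤ)⟧') := ⟨g, hg⟩
  obtain ⟨g', hg'⟩ := h2
  refine ⟨-g', ?_⟩
  rw [hg', Preadditive.comp_neg, Preadditive.neg_comp]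

/-- two cones of proportional morphisms are isomorphic -/
theorem ADJ_cone [Linear ℂ C] {W X Q Q' : C} {g g' : W ⟶ X} {p : X ⟶ Q} {q : Q ⟶ W⟦(1 : ℤ)⟧} {p' : X ⟶ Q'}
    {q' : Q' ⟶ W⟦(1 : ℤ)⟧} (hT : Triangle.mk g p q ∈ distTriang C)
    (hT' : Triangle.mk g' p' q' ∈ distTriang C) (c : ℂ) (hc : c ≠ 0) (h : g' = c • g) :
    Nonempty (Q' ≅ Q) := by
  let e : W ≅ W :=
    { hom := c • 𝟙 W
      inv := c⁻¹ • 𝟙 W
      hom_inv_id := by
        rw [Linear.smul_comp, Linear.comp_smul, smul_smul, mul_inv_cancel₀ hc, one_smul,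
          Category.comp_id]
      inv_hom_id := by
        rw [Linear.smul_comp, Linear.comp_smul, smul_smul, inv_mul_cancel₀ hc, one_smul,
          Category.comp_id] }
  have hcomm : g' ≫ (Iso.refl X).hom = e.hom ≫ g := by
    show g' ≫ 𝟙 X = (c • 𝟙 W) ≫ g
    rw [Category.comp_id, Linear.smul_comp, Category.id_comp, h]
  have i := isoTriangleOfIso₁₂ _ _ hT' hT e (Iso.refl X) hcomm
  exact ⟨Triangle.π₃.mapIso i⟩

end

theorem p_ADJ {C : Type u} [Category.{v} C] [Preadditive C] [HasZeroObject C] [HasShift C ℤ]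
    [∀ n : ℤ, (shiftFunctor C n).Additive] [Pretriangulated C] [IsTriangulated C] [Linear ℂ C]
    [∀ n : ℤ, (shiftFunctor C n).Linear ℂ] (hCRO : Stmt_CRO C) (hTWO : Stmt_TWO C)
    (hEUD : Stmt_EUD C) (hPNT : Stmt_PNT C) (hPEN : Stmt_PEN C) (hEXI : Stmt_EXI C) :
    Stmt_ADJ C := by
  intro h σ t δ n α hF i j k l A X hij hA hX
  have hfin := h.k3.homFinite
  have hne : i ≠ j := by
    rintro rfl
    have h1 := hF.norm i
    rw [hij] at h1
    norm_num at h1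
  obtain ⟨W, hW, -, -⟩ := hEXI h σ t δ n α hF j (l - 1)
  have hX' : IsS σ t δ α j (l - 1 + 1) X := by
    rw [sub_add_cancel]
    exact hX
  obtain ⟨h2, -⟩ := hTWO h σ t δ n α hF j (l - 1) W X hW hX'
  obtain ⟨hAW, hAW0⟩ := hCRO h σ t δ n α hF i j k (l - 1) A W hne hA hW
  obtain ⟨hAX, hAX0⟩ := hCRO h σ t δ n α hF i j k l A X hne hA hX
  rw [hij] at hAW hAX
  have hAW1 : Module.finrank ℂ (A ⟶ W⟦(1 : ℤ)⟧) = 1 := by
    have h3 : (Module.finrank ℂ (A ⟶ W⟦(1 : ℤ)⟧) : ℤ) = 1 := by rw [hAW]; norm_num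
    exact_mod_cast h3
  have hAX1 : Module.finrank ℂ (A ⟶ X⟦(1 : ℤ)⟧) = 1 := by
    have h3 : (Module.finrank ℂ (A ⟶ X⟦(1 : ℤ)⟧) : ℤ) = 1 := by rw [hAX]; norm_num
    exact_mod_cast h3
  have hAX00 : ∀ f : A ⟶ X, f = 0 := by
    refine forall_zero_of_finrank h.k3 ?_
    rw [← finrank_shift_zero]
    exact finrank_of_forall_zero (hAX0 0 (by norm_num))
  obtain ⟨v, hv0, hv⟩ := finrank_eq_one_iff'.1 hAW1
  -- the linear map
  let L : (W ⟶ X) →ₗ[ℂ] (A ⟶ X⟦(1 : ℤ)⟧) :=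
    { toFun := fun g => v ≫ g⟦(1 : ℤ)⟧'
      map_add' := by
        intro a b
        rw [Functor.map_add, Preadditive.comp_add]
      map_smul' := by
        intro c a
        rw [Functor.map_smul, Linear.comp_smul]
        rfl }
  have hL : ∀ g : W ⟶ X, L g = v ≫ g⟦(1 : ℤ)⟧' := fun g => rfl
  have hL0 : L ≠ 0 := by
    intro hL0
    have hall : ∀ (u : A ⟶ W⟦(1 : ℤ)⟧) (g : W ⟶ X), u ≫ g⟦(1 : ℤ)⟧' = 0 := by
      intro u g
      obtain ⟨c, rfl⟩ := hv u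
      have h3 : v ≫ g⟦(1 : ℤ)⟧' = 0 := by
        rw [← hL g, hL0]
        rfl
      rw [Linear.smul_comp, h3, smul_zero]
    let B := Module.finBasisOfFinrankEq ℂ (W ⟶ X) h2
    have hB : ∀ a b : ℂ, a • B 0 + b • B 1 = 0 → a = 0 ∧ b = 0 := by
      intro a b hab
      have h3 := Fintype.linearIndependent_iff.1 B.linearIndependent ![a, b]
        (by rw [Fin.sum_univ_two]; exact hab)
      exact ⟨h3 0, h3 1⟩
    obtain ⟨W', w', q, hW', hT⟩ := hEUD h σ t δ n α hF j (l - 1) W X hW hX' (B 0) (B 1) hB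
    obtain ⟨-, hAW'⟩ := hCRO h σ t δ n α hF i j k (l - 1 - 1) A W' hne hA hW'
    obtain ⟨w, hw0, -⟩ := finrank_eq_one_iff'.1 hAX1
    apply hw0
    have h4 : ∀ f : A ⟶ (W'⟦(1 : ℤ)⟧)⟦(1 : ℤ)⟧, f = 0 := by
      refine forall_zero_of_finrank h.k3 ?_
      rw [finrank_shift_obj A W' (show (1 : ℤ) + 1 = 2 by norm_num)]
      exact finrank_of_forall_zero (hAW' 2 (by norm_num))
    obtain ⟨u, hu⟩ := ADJ_lift hT w (h4 _)
    have h5 : (biprod.desc (B 0) (B 1) : W ⊞ W ⟶ X) = biprod.fst ≫ B 0 + biprod.snd ≫ B 1 := by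
      ext <;> simp
    rw [hu, h5, Functor.map_add, Functor.map_comp, Functor.map_comp, Preadditive.comp_add,
      ← Category.assoc, ← Category.assoc, hall, hall, add_zero]
  -- the kernel
  have hker : Module.finrank ℂ (LinearMap.ker L) = 1 := by
    have h3 := LinearMap.finrank_range_add_finrank_ker L
    rw [h2] at h3
    have h4 : Module.finrank ℂ (LinearMap.range L) ≤ 1 := by
      rw [← hAX1]
      exact Submodule.finrank_le _
    have h5 : Module.finrank ℂ (LinearMap.range L) ≠ 0 := by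
      intro h0
      apply hL0
      have h6 : LinearMap.range L = ⊥ := Submodule.finrank_eq_zero.1 h0
      exact LinearMap.range_eq_bot.1 h6
    omega
  obtain ⟨g0, hg00, hg0⟩ := finrank_eq_one_iff'.1 hker
  have hg0ne : (g0 : W ⟶ X) ≠ 0 := fun h0 => hg00 (Subtype.ext h0)
  have hg0L : v ≫ (g0 : W ⟶ X)⟦(1 : ℤ)⟧' = 0 := by
    have h3 : L (g0 : W ⟶ X) = 0 := LinearMap.mem_ker.1 g0.2
    rw [← hL]
    exact h3
  -- `Hom(A, Q) ≠ 0` iff `c(g) = 0`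
  have hto : ∀ (g : W ⟶ X) (Q : C) (p : X ⟶ Q) (q : Q ⟶ W⟦(1 : ℤ)⟧),
      Triangle.mk g p q ∈ distTriang C → (∃ a : A ⟶ Q, a ≠ 0) → v ≫ g⟦(1 : ℤ)⟧' = 0 := by
    rintro g Q p q hT ⟨a, ha⟩
    have h3 : a ≫ q ≠ 0 := by
      intro h0
      have hb1 : ∃ b : A ⟶ X, a = b ≫ p := Triangle.coyoneda_exact₃ _ hT a h0
      obtain ⟨b, hb⟩ := hb1
      apply ha
      rw [hb, hAX00 b, zero_comp]
    obtain ⟨c, hc⟩ := hv (a ≫ q)
    have hc0 : c ≠ 0 := by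
      rintro rfl
      rw [zero_smul] at hc
      exact h3 hc.symm
    have h4 : q ≫ g⟦(1 : ℤ)⟧' = 0 := comp_distTriang_mor_zero₃₁ _ hT
    have h5 : (c • v) ≫ g⟦(1 : ℤ)⟧' = 0 := by
      rw [hc, Category.assoc, h4, comp_zero]
    rw [Linear.smul_comp] at h5
    rcases smul_eq_zero.1 h5 with h6 | h6
    · exact absurd h6 hc0
    · exact h6
  have hfrom : ∀ (g : W ⟶ X) (Q : C) (p : X ⟶ Q) (q : Q ⟶ W⟦(1 : ℤ)⟧),
      Triangle.mk g p q ∈ distTriang C → v ≫ g⟦(1 : ℤ)⟧' = 0 → ∃ a : A ⟶ Q, a ≠ 0 := by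
    intro g Q p q hT h0
    have ha1 : ∃ a : A ⟶ Q, v = a ≫ q := Triangle.coyoneda_exact₁ _ hT v h0
    obtain ⟨a, ha⟩ := ha1
    refine ⟨a, ?_⟩
    rintro rfl
    rw [zero_comp] at ha
    exact hv0 ha
  obtain ⟨Q, p, q, hT⟩ := distinguished_cocone_triangle (g0 : W ⟶ X)
  obtain ⟨hQ, -⟩ := hPNT h σ t δ n α hF j (l - 1) W X hW hX' g0 Q p q hg0ne hT
  refine ⟨Q, hQ, hfrom g0 Q p q hT hg0L, ⟨p, ?_⟩, ?_⟩
  · intro hp
    exact hQ.2.1 (isZero₃_of_mor₂ hT hp fun r =>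
      σ.hom_shift_zero hW.1.1 (StabCond.Stable.simple hQ).1 r)
  · intro Q' hQ' hA' hX''
    obtain ⟨f, p', q', hf0, hT'⟩ := hPEN h σ t δ n α hF j (l - 1) W X Q' hW hX' hQ' hX''
    have h3 : f ∈ LinearMap.ker L := by
      rw [LinearMap.mem_ker, hL]
      exact hto f Q' p' q' hT' hA'
    obtain ⟨c, hc⟩ := hg0 ⟨f, h3⟩
    have hc' : f = c • (g0 : W ⟶ X) := by
      have h4 := congrArg Subtype.val hc
      exact h4.symm
    have hc0 : c ≠ 0 := by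
      rintro rfl
      rw [zero_smul] at hc'
      exact hf0 hc'
    exact ADJ_cone hT hT' c hc0 hc'

end Pool.Tube
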