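import Pool.Agent.Work.MP_841263_tu.Interface

set_option autoImplicit false

/-! # Tube structure theorem: block BAS -/

namespace Pool.Tube

open Pool.Stab

universe u

/-- elements of the closure of the simple roots -/
theorem BAS_nonneg {K : Type u} [AddCommGroup K] (B : K →+ K →+ ℤ) (im : K →+ ℝ) (δ : K) {n : ℕ}
    (α : Fin n → K)
    (hall : ∀ β, IsSimpleRoot B im β → ∃ (i : Fin n) (k : ℤ), β = α i + k • δ) (x : K)
    (hx : x ∈ AddSubmonoid.closure {α | IsSimpleRoot B im α}) :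
    ∃ (k : ℤ) (c : Fin n → ℕ), x = k • δ + ∑ i, (c i : ℤ) • α i := by
  classical
  induction hx using AddSubmonoid.closure_induction with
  | mem β hβ =>
    obtain ⟨i, k, hk⟩ := hall β hβ
    refine ⟨k, Pi.single i 1, ?_⟩
    have e : ∑ j, (((Pi.single i 1 : Fin n → ℕ) j : ℕ) : ℤ) • α j = α i := by
      rw [Finset.sum_eq_single i]
      · rw [Pi.single_eq_same, Nat.cast_one, one_smul]
      · intro j _ hj
        rw [Pi.single_eq_of_ne hj, Nat.cast_zero, zero_smul]
      · intro hi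
        exact absurd (Finset.mem_univ i) hi
    rw [e, hk, add_comm]
  | zero =>
    refine ⟨0, fun _ => 0, ?_⟩
    simp
  | add x y _ _ hx hy =>
    obtain ⟨k, c, hc⟩ := hx
    obtain ⟨l, d, hd⟩ := hy
    refine ⟨k + l, fun i => c i + d i, ?_⟩
    have e : ∑ i, ((c i + d i : ℕ) : ℤ) • α i =
        ∑ i, (c i : ℤ) • α i + ∑ i, (d i : ℤ) • α i := by
      rw [← Finset.sum_add_distrib]
      refine Finset.sum_congr rfl fun i _ => ?_
      rw [Nat.cast_add, add_smul]
    rw [e, hc, hd, add_smul]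
    abel

theorem p_BAS (hDEC : Stmt_DEC.{u}) (hIND : Stmt_IND.{u}) (hFIN : Stmt_FIN.{u})
    (hOF1 : Stmt_OF1.{u}) : Stmt_BAS.{u} := by
  intro K _ _ _ B im δ h
  obtain ⟨n, α, hs, hne, hall⟩ := hFIN K B im δ h
  have hnn : ∀ x : K, B x x ≤ 2 → 0 < im x →
      ∃ (k : ℤ) (c : Fin n → ℕ), x = k • δ + ∑ i, (c i : ℤ) • α i := fun x hx hx2 =>
    BAS_nonneg B im δ α hall x (hDEC K B im δ h x hx hx2)
  have hneg : ∀ x : K, (∃ (k : ℤ) (c : Fin n → ℤ), x = k • δ + ∑ i, c i • α i) →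
      ∃ (k : ℤ) (c : Fin n → ℤ), -x = k • δ + ∑ i, c i • α i := by
    rintro x ⟨k, c, hc⟩
    refine ⟨-k, fun i => -c i, ?_⟩
    have e : ∑ i, (-c i) • α i = -∑ i, c i • α i := by
      rw [← Finset.sum_neg_distrib]
      exact Finset.sum_congr rfl fun i _ => neg_smul _ _
    rw [e, hc, neg_smul]
    abel
  refine ⟨n, α, ?_⟩
  have hoff : ∀ i j, i ≠ j → B (α i) (α j) = 0 ∨ B (α i) (α j) = -1 := by
    intro i j hij
    exact hOF1 K B im δ h (α i) (α j) (hs i) (hs j) (hne i j hij)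
  have hind : ∀ (k : ℤ) (c : Fin n → ℤ), k • δ + ∑ i, c i • α i = 0 → k = 0 ∧ ∀ i, c i = 0 :=
    hIND K B im δ h n α hs hne
  refine ⟨fun i => (hs i).1, hoff, fun i => (hs i).2.1, ?_, hind, hnn⟩
  intro x
  have hx : x ∈ AddSubgroup.closure {x : K | B x x = 2} := by
    rw [h.gen]
    exact AddSubgroup.mem_top x
  induction hx using AddSubgroup.closure_induction with
  | mem x hx =>
    have hx2 : B x x = 2 := hx
    rcases lt_or_gt_of_ne (h.imroot x hx2) with hlt | hgt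
    · have h1 : B (-x) (-x) ≤ 2 := by
        rw [map_neg, map_neg, AddMonoidHom.neg_apply, neg_neg, hx2]
      have h2 : 0 < im (-x) := by
        rw [map_neg]
        exact neg_pos.2 hlt
      obtain ⟨k, c, hc⟩ := hnn (-x) h1 h2
      have h3 := hneg (-x) ⟨k, fun i => (c i : ℤ), hc⟩
      rwa [neg_neg] at h3
    · obtain ⟨k, c, hc⟩ := hnn x hx2.le hgt
      exact ⟨k, fun i => (c i : ℤ), hc⟩
  | zero =>
    refine ⟨0, fun _ => 0, ?_⟩
    simp
  | add x y _ _ hx hy =>
    obtain ⟨k, c, hc⟩ := hx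
    obtain ⟨l, d, hd⟩ := hy
    refine ⟨k + l, fun i => c i + d i, ?_⟩
    have e : ∑ i, (c i + d i) • α i = ∑ i, c i • α i + ∑ i, d i • α i := by
      rw [← Finset.sum_add_distrib]
      exact Finset.sum_congr rfl fun i _ => add_smul _ _ _
    rw [e, hc, hd, add_smul]
    abel
  | neg x _ hx => exact hneg x hx

end Pool.Tube
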