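import Pool.Agent.Work.MP_841263_tu.Interface

set_option autoImplicit false

/-! # Tube structure theorem, block CRO: morphisms between different components -/

open CategoryTheory CategoryTheory.Limits CategoryTheory.Pretriangulated
open scoped ZeroObject

namespace Pool.Tube

open Pool.Stab

universe v u

theorem p_CRO {C : Type u} [Category.{v} C] [Preadditive C] [HasZeroObject C] [HasShift C ℤ]
    [∀ n : ℤ, (shiftFunctor C n).Additive] [Pretriangulated C] [IsTriangulated C] [Linear ℂ C]
    [∀ n : ℤ, (shiftFunctor C n).Linear ℂ] (hMOR : Stmt_MOR C) : Stmt_CRO C := by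
  intro h σ t δ n α hF i j k l X Y hij hX hY
  have hK := h.k3
  have hXY : ∀ f : X ⟶ Y, f = 0 := by
    intro f
    by_contra hf
    exact hij (hMOR h σ t δ n α hF i j k l X Y hX hY f hf).1
  have hYX : ∀ f : Y ⟶ X, f = 0 := by
    intro f
    by_contra hf
    exact hij (hMOR h σ t δ n α hF j i l k Y X hY hX f hf).1.symm
  have hXh : σ.sl.Heart t X := hX.1.1
  have hYh : σ.sl.Heart t Y := hY.1.1
  refine ⟨?_, ?_⟩
  · have h1 := hXh.eulerChar hK hYh
    rw [finrank_of_forall_zero hXY, finrank_of_forall_zero hYX, ← eulerForm_cls hK, hX.2,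
      hY.2] at h1
    have h2 : eulerForm h.k3 (α i + k • δ) (α j + l • δ) = eulerForm h.k3 (α i) (α j) := by
      have h3 : ∀ y, eulerForm h.k3 δ y = 0 := hF.rad
      have h4 : ∀ y, eulerForm h.k3 (α i + k • δ) y = eulerForm h.k3 (α i) y := by
        intro y
        have h5 : (eulerForm h.k3).flip y (α i + k • δ) =
            (eulerForm h.k3).flip y (α i) + k • (eulerForm h.k3).flip y δ := by
          rw [map_add, map_zsmul]
        rw [AddMonoidHom.flip_apply, AddMonoidHom.flip_apply, AddMonoidHom.flip_apply, h3 y,
          smul_zero, add_zero] at h5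
        exact h5
      rw [h4, map_add, map_zsmul, eulerForm_symm h.k3 (α i) δ, h3, smul_zero, add_zero]
    rw [h2] at h1
    rw [h1]
    push_cast
    ring
  · intro m hm
    refine forall_zero_of_finrank hK ?_
    by_cases hn : m < 0 ∨ 2 < m
    · exact hXh.finrank_zero hK hYh hn
    · push Not at hn
      obtain ⟨h1, h2⟩ := hn
      interval_cases m
      · rw [finrank_shift_zero]
        exact finrank_of_forall_zero hXY
      · omega
      · rw [← hK.serre Y X]
        exact finrank_of_forall_zero hYX

end Pool.Tube
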