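import Pool.Agent.Work.MP_841263_tu.Interface

/-! # Block DEC (helper72) -/

namespace Pool.Tube

open Pool.Stab

universe v u

theorem DEC_root {K : Type u} [AddCommGroup K] [Module.Finite ℤ K] [Module.Free ℤ K]
    {B : K →+ K →+ ℤ} {im : K →+ ℝ} {δ : K} (h : LatHyp B im δ) : ∃ β, B β β = 2 := by
  by_contra hno
  push Not at hno
  have h1 : {x : K | B x x = 2} = ∅ := Set.eq_empty_of_forall_notMem hno
  have h2 := h.gen
  rw [h1, AddSubgroup.closure_empty] at h2
  have h3 : Subsingleton K := by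
    refine ⟨fun a b => ?_⟩
    have ha : a ∈ (⊥ : AddSubgroup K) := by rw [h2]; exact AddSubgroup.mem_top a
    have hb : b ∈ (⊥ : AddSubgroup K) := by rw [h2]; exact AddSubgroup.mem_top b
    rw [AddSubgroup.mem_bot] at ha hb
    rw [ha, hb]
  have h4 := h.rank4
  rw [Module.finrank_zero_of_subsingleton] at h4
  omega

theorem DEC_key {K : Type u} [AddCommGroup K] [Module.Finite ℤ K] [Module.Free ℤ K]
    {B : K →+ K →+ ℤ} {im : K →+ ℝ} {δ : K} (h : LatHyp B im δ) (x : K) (hx : B x x ≤ 2)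
    (hxi : 0 < im x)
    (hind : ∀ y z : K, B y y ≤ 2 → B z z ≤ 2 → 0 < im y → 0 < im z → x ≠ y + z) :
    B x x = 2 := by
  by_contra hne
  have hnn := h.psd.nonneg x
  obtain ⟨k, hk⟩ := h.even x
  have h0 : B x x = 0 := by omega
  have hrad := h.psd.mem_radical_of_self h0
  have hr1 : ∀ y, B x y = 0 := hrad
  have hr2 : ∀ y, B y x = 0 := fun y => by rw [h.psd.symm]; exact hr1 y
  obtain ⟨β, hβ⟩ := DEC_root h
  obtain ⟨m, hm⟩ : ∃ m : ℤ, m = ⌊im β / im x⌋ := ⟨_, rfl⟩
  have hm1 : (m : ℝ) * im x ≤ im β := by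
    have := Int.floor_le (im β / im x)
    rw [← hm] at this
    exact (le_div_iff₀ hxi).1 this
  have hm2 : im β < ((m : ℝ) + 1) * im x := by
    have := Int.lt_floor_add_one (im β / im x)
    rw [← hm] at this
    exact (div_lt_iff₀ hxi).1 this
  have h1 : ∀ a b : ℤ, B (a • β + b • x) (a • β + b • x) = 2 * a ^ 2 := by
    intro a b
    rw [h.psd.expand, hβ, hr2, h0]
    ring
  have h1' : ∀ a b : ℤ, im (a • β + b • x) = a * im β + b * im x := by
    intro a b
    rw [map_add, map_zsmul, map_zsmul, zsmul_eq_mul, zsmul_eq_mul]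
  have h2 := h1 1 (-m)
  have h3 := h1 (-1) (m + 1)
  have h2' := h1' 1 (-m)
  have h3' := h1' (-1) (m + 1)
  push_cast at h2' h3'
  refine hind ((1 : ℤ) • β + (-m) • x) ((-1 : ℤ) • β + (m + 1) • x) (by omega) (by omega) ?_ ?_ ?_
  · refine lt_of_le_of_ne ?_ (h.imroot _ (by omega)).symm
    rw [h2']
    linarith
  · rw [h3']
    linarith
  · module

theorem p_DEC (hGAP : Stmt_GAP.{u}) : Stmt_DEC.{u} := by
  intro K _ _ _ B im δ h
  obtain ⟨ε, hε, hgap⟩ := hGAP K B im δ h
  have key : ∀ (N : ℕ) (x : K), B x x ≤ 2 → 0 < im x → im x < N * ε →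
      x ∈ AddSubmonoid.closure {α | IsSimpleRoot B im α} := by
    intro N
    induction N with
    | zero =>
      intro x _ h1 h2
      rw [Nat.cast_zero, zero_mul] at h2
      exact absurd h1 (not_lt.2 h2.le)
    | succ N ih =>
      intro x hx h1 h2
      push_cast at h2
      by_cases hind : ∀ y z : K, B y y ≤ 2 → B z z ≤ 2 → 0 < im y → 0 < im z → x ≠ y + z
      · exact AddSubmonoid.subset_closure ⟨DEC_key h x hx h1 hind, h1, hind⟩
      · push Not at hind
        obtain ⟨y, z, hy, hz, hyi, hzi, rfl⟩ := hind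
        have h3 := hgap y hy hyi
        have h4 := hgap z hz hzi
        rw [map_add] at h2
        exact add_mem (ih y hy hyi (by linarith)) (ih z hz hzi (by linarith))
  intro x hx hxi
  obtain ⟨N, hN⟩ := exists_nat_gt (im x / ε)
  exact key N x hx hxi ((div_lt_iff₀ hε).1 hN)

end Pool.Tube
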