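import Pool.Agent.Work.MP_841263_tu.Interface

/-!
# Block EUD: the dual Euler sequence
-/

open CategoryTheory CategoryTheory.Limits CategoryTheory.Pretriangulated
open scoped ZeroObject

set_option linter.unusedSectionVars false

namespace Pool.Tube

open Pool.Stab

universe v u

variable {C : Type u} [Category.{v} C] [Preadditive C] [HasZeroObject C] [HasShift C ℤ]
  [∀ n : ℤ, (shiftFunctor C n).Additive] [Pretriangulated C] [IsTriangulated C] [Linear ℂ C]
  [∀ n : ℤ, (shiftFunctor C n).Linear ℂ]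

/-- two vectors in a space of dimension one are dependent -/
lemma EUD_dep {V : Type*} [AddCommGroup V] [Module ℂ V] (h : Module.finrank ℂ V = 1)
    (x y : V) : ∃ a b : ℂ, a • x + b • y = 0 ∧ (a ≠ 0 ∨ b ≠ 0) := by
  obtain ⟨v, hv0, hv⟩ := finrank_eq_one_iff'.1 h
  obtain ⟨c, hc⟩ := hv x
  obtain ⟨d, hd⟩ := hv y
  by_cases hd0 : d = 0
  · refine ⟨0, 1, ?_, Or.inr one_ne_zero⟩
    rw [← hd, hd0]
    simp
  · refine ⟨d, -c, ?_, Or.inl hd0⟩
    rw [← hc, ← hd, smul_smul, smul_smul, ← add_smul]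
    have : d * c + -c * d = 0 := by ring
    rw [this, zero_smul]

/-- the sum of two copies of a torsion free object is torsion free -/
lemma EUD_tf_biprod {σ : StabCond C} {t : ℝ} {X Y : C} (hX : σ.TF t X) (hY : σ.TF t Y) :
    σ.TF t (X ⊞ Y) := by
  refine ⟨Slicing.Heart.ext (binaryBiproductTriangle_distinguished X Y) hX.1 hY.1, ?_, ?_⟩
  · intro h
    apply hX.2.1
    rw [IsZero.iff_id_eq_zero, ← biprod.inl_fst (X := X) (Y := Y), h.eq_of_tgt biprod.inl 0,
      zero_comp]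
  · intro T hT f
    apply biprod.hom_ext
    · rw [zero_comp]
      exact hX.2.2 T hT _
    · rw [zero_comp]
      exact hY.2.2 T hT _

theorem p_EUD (hPTP : Stmt_PTP C) (hATM : Stmt_ATM C) (hMOR : Stmt_MOR C) (hUNI : Stmt_UNI C)
    (hSPH : Stmt_SPH C) : Stmt_EUD C := by
  intro h σ t δ n α hF i k X Y hX hY f g hfg
  have hf0 : f ≠ 0 := by
    intro hf
    have h1 := (hfg 1 0 (by rw [hf]; simp)).1
    exact one_ne_zero h1
  have hV : σ.TF t (X ⊞ X) := EUD_tf_biprod hX.1 hX.1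
  obtain ⟨K, I, Q, i', p, d, j, q, e, hT1, hT2, hK, hI, hQ, hpj⟩ :=
    Slicing.exists_KIQ hV.1 hY.1.1 (biprod.desc f g)
  have hfI : (biprod.inl ≫ p) ≫ j = f := by
    rw [Category.assoc, hpj, biprod.inl_desc]
  have hgI : (biprod.inr ≫ p) ≫ j = g := by
    rw [Category.assoc, hpj, biprod.inr_desc]
  have ha0 : (biprod.inl ≫ p : X ⟶ I) ≠ 0 := by
    intro h0
    apply hf0
    rw [← hfI, h0, zero_comp]
  have hI0 : ¬ IsZero I := by
    intro h0
    exact ha0 (h0.eq_of_tgt _ _)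
  have hQP : σ.sl.P (t + 1) Q :=
    ((hATM h σ t δ n α hF i (k + 1) Y hY).2 _ _ _ _ _ hT2 hI hQ).resolve_left hI0
  obtain ⟨m, hm, hm0⟩ := hPTP h σ t δ hF.toTubeHyp Q hQP
  have hclsI : cls I = α i + (k + 1 - (m : ℤ)) • δ := by
    have h1 := cls_mk hT2
    rw [hY.2, hm] at h1
    rw [sub_smul, ← add_sub_assoc, h1]
    abel
  have hIS : IsS σ t δ α i (k + 1 - (m : ℤ)) I := ⟨hY.1.sub hT2 hI hQ hI0, hclsI⟩
  obtain ⟨-, m', Q', g', w', hkm, -⟩ := hMOR h σ t δ n α hF i i k _ X I hX hIS _ ha0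
  have hm1 : m ≠ 1 := by
    intro hm1
    have hIS' : IsS σ t δ α i k I := by
      have h1 := hIS
      rw [hm1] at h1
      have h2 : k + 1 - ((1 : ℕ) : ℤ) = k := by push_cast; ring
      rwa [h2] at h1
    obtain ⟨u⟩ := hUNI h σ t δ n α hF i k X I hX hIS'
    have hdim : Module.finrank ℂ (X ⟶ I) = 1 := by
      rw [← LinearEquiv.finrank_eq (Linear.homCongr ℂ (Iso.refl X) u)]
      exact (hSPH h σ t δ n α hF i k X hX).1.1
    obtain ⟨a, b, hab, hne⟩ := EUD_dep hdim (biprod.inl ≫ p : X ⟶ I) (biprod.inr ≫ p)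
    have h2 : (a • (biprod.inl ≫ p : X ⟶ I)) ≫ j = a • f := by rw [Linear.smul_comp, hfI]
    have h3 : (b • (biprod.inr ≫ p : X ⟶ I)) ≫ j = b • g := by rw [Linear.smul_comp, hgI]
    have h1 : a • f + b • g = 0 := by
      rw [← h2, ← h3, ← Preadditive.add_comp, hab, zero_comp]
    obtain ⟨ha, hb⟩ := hfg a b h1
    rcases hne with hne | hne
    · exact hne ha
    · exact hne hb
  have hmz : m = 0 := by omega
  have hQz : IsZero Q := hm0 hmz
  have hj : IsIso j := iso_of_isZero₃ hT2 hQz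
  have hT : Triangle.mk i' (biprod.desc f g) (inv j ≫ d) ∈ distTriang C := by
    have h1 := tri_last_iso hT1 (asIso j)
    rw [asIso_hom, asIso_inv, hpj] at h1
    exact h1
  have hclsK : cls K = α i + (k - 1) • δ := by
    have h1 := cls_mk hT
    rw [cls_biprod, hX.2, hY.2] at h1
    have h2 : cls K = (α i + k • δ + (α i + k • δ)) - (α i + (k + 1) • δ) := by
      rw [h1]
      abel
    rw [h2, sub_smul, add_smul, one_smul]
    abel
  have hK0 : ¬ IsZero K := by
    intro h0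
    have h1 := cls_of_isZero h0
    rw [hclsK] at h1
    have h2 := congrArg (σ.im t) h1
    rw [map_add, map_zsmul, hF.im0, map_zero, smul_zero, add_zero] at h2
    exact absurd h2 (hF.pos i).ne'
  exact ⟨K, i', inv j ≫ d, ⟨hV.sub hT hK hY.1.1 hK0, hclsK⟩, hT⟩

end Pool.Tube
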