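import Pool.Agent.Work.MP_841263_tu.Interface

open CategoryTheory CategoryTheory.Limits CategoryTheory.Pretriangulated
open scoped ZeroObject

set_option backward.isDefEq.respectTransparency false
set_option backward.defeqAttrib.useBackward true
set_option linter.unusedSectionVars false

namespace Pool.Tube

open Pool.Stab

universe v u

variable {C : Type u} [Category.{v} C] [Preadditive C] [HasZeroObject C] [HasShift C ℤ]
  [∀ n : ℤ, (shiftFunctor C n).Additive] [Pretriangulated C]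

lemma EUL_tri_first {X I V Q : C} {p : X ⟶ I} (hp : IsIso p) {j : I ⟶ V} {q : V ⟶ Q}
    {e : Q ⟶ I⟦(1 : ℤ)⟧} (hT : Triangle.mk j q e ∈ distTriang C) :
    Triangle.mk (p ≫ j) q (e ≫ (inv p)⟦(1 : ℤ)⟧') ∈ distTriang C := by
  refine isomorphic_distinguished _ hT _ ?_
  refine Triangle.isoMk _ _ (asIso p) (Iso.refl _) (Iso.refl _) (by simp) (by simp) ?_
  simp

lemma EUL_dep [Linear ℂ C] {A B : C} (h1 : Module.finrank ℂ (A ⟶ B) = 1) (a b : A ⟶ B) :
    ∃ c d : ℂ, c • a + d • b = 0 ∧ (c ≠ 0 ∨ d ≠ 0) := by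
  obtain ⟨v, hv, hspan⟩ := finrank_eq_one_iff'.1 h1
  obtain ⟨x, hx⟩ := hspan a
  obtain ⟨y, hy⟩ := hspan b
  by_cases hx0 : x = 0
  · refine ⟨1, 0, ?_, Or.inl one_ne_zero⟩
    rw [← hx, hx0]
    simp
  · refine ⟨y, -x, ?_, Or.inr (neg_ne_zero.2 hx0)⟩
    rw [← hx, ← hy, smul_smul, smul_smul, ← add_smul]
    have : y * x + -x * y = 0 := by ring
    rw [this, zero_smul]

theorem p_EUL {C : Type u} [Category.{v} C] [Preadditive C] [HasZeroObject C] [HasShift C ℤ]
    [∀ n : ℤ, (shiftFunctor C n).Additive] [Pretriangulated C] [IsTriangulated C] [Linear ℂ C]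
    [∀ n : ℤ, (shiftFunctor C n).Linear ℂ] (hPTP : Stmt_PTP C) (hATM : Stmt_ATM C)
    (hMOR : Stmt_MOR C) (hUNI : Stmt_UNI C) (hSPH : Stmt_SPH C) : Stmt_EUL C := by
  intro h σ t δ n α fr i k X Y hX hY f g hfg
  have him : ∀ a : ℤ, 0 < σ.im t (α i + a • δ) := by
    intro a
    rw [map_add, map_zsmul, fr.im0, smul_zero, add_zero]
    exact fr.pos i
  have hf : f ≠ 0 := by
    intro h0
    have := (hfg 1 0 (by simp [h0])).1
    exact one_ne_zero this
  have hVH : σ.sl.Heart t (Y ⊞ Y) :=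
    Slicing.Heart.ext (binaryBiproductTriangle_distinguished Y Y) hY.1.1 hY.1.1
  have hV0 : ¬ IsZero (Y ⊞ Y) := by
    intro hz
    apply hY.1.2.1
    rw [IsZero.iff_id_eq_zero, ← biprod.inl_fst (X := Y) (Y := Y),
      hz.eq_of_tgt (biprod.inl : Y ⟶ Y ⊞ Y) 0, zero_comp]
  have hV : σ.TF t (Y ⊞ Y) := by
    refine ⟨hVH, hV0, ?_⟩
    intro T hT a
    apply biprod.hom_ext
    · rw [zero_comp]; exact hY.1.2.2 T hT _
    · rw [zero_comp]; exact hY.1.2.2 T hT _
  have hu : biprod.lift f g ≠ 0 := by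
    intro h0
    apply hf
    rw [← biprod.lift_fst f g, h0, zero_comp]
  obtain ⟨K, I, Q, i', p, d, j, q, e, hT1, hT2, hK, hI, hQ, hpj⟩ :=
    Slicing.exists_KIQ hX.1.1 hVH (biprod.lift f g)
  have hK0 : IsZero K := by
    rcases (hATM h σ t δ n α fr i k X hX).2 _ _ _ _ _ hT1 hK hI with h0 | h0
    · exact h0
    · exfalso
      apply hu
      rw [← hpj, hV.2.2 _ h0 j, comp_zero]
  have hp : IsIso p := iso_of_isZero₁ hT1 hK0
  have hT3 := EUL_tri_first hp hT2
  rw [hpj] at hT3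
  -- class of Q
  have hclsQ : cls Q = α i + (k + 2) • δ := by
    have h1 := cls_mk hT3
    rw [cls_biprod, hX.2, hY.2] at h1
    have h2 : cls Q = (α i + (k + 1) • δ + (α i + (k + 1) • δ)) - (α i + k • δ) := by
      rw [h1]; abel
    rw [h2]
    simp only [add_smul, one_smul, two_smul]
    abel
  obtain ⟨T, F, a1, b1, c1, hTF, hTP, hF⟩ := hQ.exists_torsion
  have hFH : σ.sl.Heart t F := hF.mono (fun φ hφ => ⟨hφ.1, hφ.2.le⟩)
  obtain ⟨X', i3, d3, hX'⟩ := distinguished_cocone_triangle₁ (q ≫ b1)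
  obtain ⟨m1, n1, r1, hm1, hm1'⟩ := exists_octa_cocone hT3 hTF hX'
  obtain ⟨m, hm, hm0⟩ := hPTP h σ t δ fr.toTubeHyp T hTP
  have hTH : σ.sl.Heart t T := Slicing.heart_of_P hTP (by linarith) le_rfl
  have hX'H : σ.sl.Heart t X' := Slicing.Heart.ext hm1 hX.1.1 hTH
  have hi3 : i3 ≠ 0 := by
    intro h0
    apply hu
    rw [← hm1', h0, comp_zero]
  have hX'0 : ¬ IsZero X' := by
    intro hz
    exact hi3 (hz.eq_of_src _ _)
  have hX'TF : σ.TF t X' := StabCond.TF.sub hX' hV hX'H hFH hX'0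
  have hX'S : IsS σ t δ α i (k + m) X' := by
    refine ⟨hX'TF, ?_⟩
    rw [cls_mk hm1, hX.2, hm, add_smul]
    abel
  have hcomp : i3 ≫ biprod.fst ≠ 0 ∨ i3 ≫ biprod.snd ≠ 0 := by
    by_contra hcon
    push Not at hcon
    apply hi3
    apply biprod.hom_ext
    · rw [hcon.1, zero_comp]
    · rw [hcon.2, zero_comp]
  have hm1le : m ≤ 1 := by
    have key : ∀ w : X' ⟶ Y, w ≠ 0 → m ≤ 1 := by
      intro w hw
      obtain ⟨-, m', -, -, -, h1, -⟩ := hMOR h σ t δ n α fr i i (k + m) (k + 1) X' Y hX'S hY w hw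
      have : (m : ℤ) ≤ 1 := by
        have : (0 : ℤ) ≤ m' := by positivity
        linarith
      exact_mod_cast this
    rcases hcomp with hc | hc
    · exact key _ hc
    · exact key _ hc
  have hmne : m ≠ 1 := by
    intro hm1
    subst hm1
    have hX'S' : IsS σ t δ α i (k + 1) X' := by simpa using hX'S
    obtain ⟨eXY⟩ := hUNI h σ t δ n α fr i (k + 1) X' Y hX'S' hY
    have hsp := (hSPH h σ t δ n α fr i (k + 1) X' hX'S').1.1
    have hfin : Module.finrank ℂ (X' ⟶ Y) = 1 := by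
      rw [← hsp]
      exact (LinearEquiv.finrank_eq (Linear.homCongr ℂ (Iso.refl X') eXY)).symm
    obtain ⟨c, d', hcd, hne⟩ := EUL_dep hfin (i3 ≫ biprod.fst) (i3 ≫ biprod.snd)
    have hfm : m1 ≫ i3 ≫ biprod.fst = f := by
      rw [← Category.assoc, hm1', biprod.lift_fst]
    have hgm : m1 ≫ i3 ≫ biprod.snd = g := by
      rw [← Category.assoc, hm1', biprod.lift_snd]
    have h0 : c • f + d' • g = 0 := by
      have h1 : m1 ≫ (c • (i3 ≫ biprod.fst) + d' • (i3 ≫ biprod.snd)) = c • f + d' • g := by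
        rw [Preadditive.comp_add, Linear.comp_smul, Linear.comp_smul, hfm, hgm]
      rw [← h1, hcd, comp_zero]
    have := hfg c d' h0
    rcases hne with h1 | h1
    · exact h1 this.1
    · exact h1 this.2
  have hmz : m = 0 := by omega
  have hTz : IsZero T := hm0 hmz
  have hb1 : IsIso b1 := iso_of_isZero₁ hTF hTz
  have hQin : σ.sl.In (Set.Ioo t (t + 1)) Q := hF.iso (asIso b1).symm
  have hQ0 : ¬ IsZero Q := by
    intro hz
    have h1 := him (k + 2)
    rw [← hclsQ, cls_of_isZero hz, map_zero] at h1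
    exact lt_irrefl _ h1
  exact ⟨Q, q, _, ⟨σ.tf_of_in hQin hQ0, hclsQ⟩, hT3⟩

end Pool.Tube
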