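import Pool.Agent.Work.MP_841263_tu.Interface

/-!
# Tube structure theorem, block EXI: existence of the objects of class `α i + k • δ`
-/

open CategoryTheory CategoryTheory.Limits CategoryTheory.Pretriangulated
open scoped ZeroObject

namespace Pool.Tube

open Pool.Stab

universe v u

variable {C : Type u} [Category.{v} C] [Preadditive C] [HasZeroObject C] [HasShift C ℤ]
  [∀ n : ℤ, (shiftFunctor C n).Additive] [Pretriangulated C] [IsTriangulated C] [Linear ℂ C]
  [∀ n : ℤ, (shiftFunctor C n).Linear ℂ]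

theorem p_EXI : Stmt_EXI C := by
  intro h σ t δ n α hF i k
  have := h.finite
  have := h.free
  have hrad : ∀ y, eulerForm h.k3 δ y = 0 := hF.rad
  have hrad' : ∀ y, eulerForm h.k3 y δ = 0 := fun y => by
    rw [h.psd'.symm]
    exact hrad y
  have hnorm : eulerForm h.k3 (α i + k • δ) (α i + k • δ) = 2 := by
    have h1 := h.psd'.expand 1 k (α i) δ
    rw [one_smul, hF.norm i, hrad', hrad] at h1
    rw [h1]
    ring
  have him : σ.im t (α i + k • δ) = σ.im t (α i) := by
    rw [map_add, map_zsmul, hF.im0, smul_zero, add_zero]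
  obtain ⟨φ, X, hX, hs, hc⟩ := h.root_semistable σ hnorm
  obtain ⟨m, ψ, h1, h2, hP⟩ := Slicing.exists_shift_P t hX
  have hpos := hF.pos i
  have h3 := σ.im_nonneg_of_P hP h1 h2
  rcases cls_shift_cases X m with h4 | h4
  · have h5 : 0 < σ.im t (cls (X⟦m⟧)) := by
      rw [h4, hc, him]
      exact hpos
    have h6 : ψ < t + 1 := by
      refine lt_of_le_of_ne h2 ?_
      rintro rfl
      rw [σ.im_of_P hP] at h5
      exact lt_irrefl _ h5
    have h7 : ¬ IsZero (X⟦m⟧) := by
      intro h0
      rw [cls_of_isZero h0, map_zero] at h5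
      exact lt_irrefl _ h5
    exact ⟨X⟦m⟧, ⟨σ.tf_of_in (Slicing.in_of_P hP ⟨h1, h6⟩) h7, h4.trans hc⟩, hs.shift m, ψ, h1,
      h6, hP⟩
  · exfalso
    rw [h4, hc, map_neg, him] at h3
    linarith

end Pool.Tube
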