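import Mathlib
import Pool.Agent.Work.MP_841263_r.Main

/-!
# The structure of a stability condition in a generic rational direction: definitions

`Fibre h σ t δ α S`: the heart `P((t, t+1])` of the stability condition `σ`, the objects `S i k`
and the stable objects of phase `t + 1` have the formal properties of the category of coherent
sheaves supported on a singular fibre of an elliptic surface, the line bundles of degree
`k - 1` on the components of the fibre, and the points of the fibre.
-/

open CategoryTheory CategoryTheory.Limits CategoryTheory.Pretriangulated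
open scoped ZeroObject

namespace Pool.Tube

open Pool.Stab

universe v u

section Lattice

variable {K : Type*} [AddCommGroup K]

/-- `α 0, …, α (n - 1)` are the simple roots of the affine root system `K / ℤ δ` with respect to
the positive half space `0 < im`: together with `δ` they form a basis of `K`, and every class of
norm at most two with positive imaginary part is a nonnegative combination of them up to a
multiple of `δ`. -/
structure SimpleRoots (B : K →+ K →+ ℤ) (im : K →+ ℝ) (δ : K) {n : ℕ} (α : Fin n → K) :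
    Prop where
  norm : ∀ i, B (α i) (α i) = 2
  off : ∀ i j, i ≠ j → B (α i) (α j) = 0 ∨ B (α i) (α j) = -1
  pos : ∀ i, 0 < im (α i)
  span : ∀ x : K, ∃ (k : ℤ) (c : Fin n → ℤ), x = k • δ + ∑ i, c i • α i
  indep : ∀ (k : ℤ) (c : Fin n → ℤ), k • δ + ∑ i, c i • α i = 0 → k = 0 ∧ ∀ i, c i = 0
  nonneg : ∀ x : K, B x x ≤ 2 → 0 < im x →
    ∃ (k : ℤ) (c : Fin n → ℕ), x = k • δ + ∑ i, (c i : ℤ) • α i

end Lattice

variable {C : Type u} [Category.{v} C] [Preadditive C] [HasZeroObject C] [HasShift C ℤ]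
  [∀ n : ℤ, (shiftFunctor C n).Additive] [Pretriangulated C]

section

variable [Linear ℂ C]

/-- The point `Q` lies on the projective line `i`: for every `k` it is the cone of a nonzero
morphism `S i k ⟶ S i (k + 1)`. -/
def OnLine {n : ℕ} (S : Fin n → ℤ → C) (i : Fin n) (Q : C) : Prop :=
  ∀ k : ℤ, ∃ f : S i k ⟶ S i (k + 1), f ≠ 0 ∧
    ∃ (p : S i (k + 1) ⟶ Q) (q : Q ⟶ (S i k)⟦(1 : ℤ)⟧), Triangle.mk f p q ∈ distTriang C

variable [IsTriangulated C] [∀ n : ℤ, (shiftFunctor C n).Linear ℂ]

/-- `σ` looks like the category of coherent sheaves on a fibre: the objects `S i k` (`k ∈ ℤ`)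
behave like the line bundles on the component `i`, the stable objects of phase `t + 1` like the
points of the fibre. -/
structure Fibre (h : EllipticSetting C) (σ : StabCond C) (t : ℝ) (δ : K0 C) {n : ℕ}
    (α : Fin n → K0 C) (S : Fin n → ℤ → C) : Prop where
  /-- the `α i` are the simple roots of an affine root system -/
  roots : SimpleRoots (eulerForm h.k3) (σ.im t) δ α
  cls_eq : ∀ i k, cls (S i k) = α i + k • δ
  spherical : ∀ i k, Spherical (S i k)
  stable : ∀ i k, ∃ φ : ℝ, t < φ ∧ φ < t + 1 ∧ σ.Stable φ (S i k)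
  /-- `Hom` from `S i k` to `S i (k + 1)` is two-dimensional, in degree zero only -/
  two : ∀ i k, Module.finrank ℂ (S i k ⟶ S i (k + 1)) = 2
  two' : ∀ i k (m : ℤ), m ≠ 0 → ∀ f : S i k ⟶ (S i (k + 1))⟦m⟧, f = 0
  /-- for different components there are only morphisms of degree one, of dimension
  `-χ (α i) (α j)`, that is `1` for neighbours and `0` otherwise -/
  cross : ∀ i j, i ≠ j → ∀ k l : ℤ,
    (Module.finrank ℂ (S i k ⟶ (S j l)⟦(1 : ℤ)⟧) : ℤ) = - eulerForm h.k3 (α i) (α j)
  cross' : ∀ i j, i ≠ j → ∀ (k l m : ℤ), m ≠ 1 → ∀ f : S i k ⟶ (S j l)⟦m⟧, f = 0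
  /-- the Euler sequence, for any basis of `Hom` -/
  euler : ∀ i k (f g : S i k ⟶ S i (k + 1)),
    (∀ a b : ℂ, a • f + b • g = 0 → a = 0 ∧ b = 0) →
    ∃ (p : S i (k + 1) ⊞ S i (k + 1) ⟶ S i (k + 2)) (q : S i (k + 2) ⟶ (S i k)⟦(1 : ℤ)⟧),
      Triangle.mk (biprod.lift f g) p q ∈ distTriang C
  /-- the cones of the nonzero morphisms `S i k ⟶ S i (k + 1)` are points on the line `i`, and
  points belonging to different lines of morphisms are different -/
  cone : ∀ i k (f : S i k ⟶ S i (k + 1)), f ≠ 0 → ∀ (Q : C) (p : S i (k + 1) ⟶ Q)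
    (q : Q ⟶ (S i k)⟦(1 : ℤ)⟧), Triangle.mk f p q ∈ distTriang C →
      σ.Stable (t + 1) Q ∧ OnLine S i Q ∧
      ∀ (f' : S i k ⟶ S i (k + 1)) (p' : S i (k + 1) ⟶ Q) (q' : Q ⟶ (S i k)⟦(1 : ℤ)⟧),
        Triangle.mk f' p' q' ∈ distTriang C → ∃ c : ℂ, f' = c • f
  /-- the points are exactly the stable objects of phase `t + 1`; every point is on a line -/
  point : ∀ Q, σ.Stable (t + 1) Q → cls Q = δ ∧ ∃ i, OnLine S i Q
  /-- neighbouring lines meet in one point -/
  meet : ∀ i j, eulerForm h.k3 (α i) (α j) = -1 →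
    ∃ Q, σ.Stable (t + 1) Q ∧ OnLine S i Q ∧ OnLine S j Q ∧
      ∀ Q', OnLine S i Q' → OnLine S j Q' → Nonempty (Q' ≅ Q)
  /-- the other pairs of different lines are disjoint -/
  disjoint : ∀ i j, eulerForm h.k3 (α i) (α j) = 0 → ∀ Q, ¬ (OnLine S i Q ∧ OnLine S j Q)
  /-- all objects of the heart are iterated extensions of the `S i k` and of points -/
  heart : ∀ X, σ.sl.Heart t X →
    Gen (fun Y => (∃ i k, Nonempty (Y ≅ S i k)) ∨ σ.Stable (t + 1) Y) X
  /-- all objects are iterated extensions of shifts of the `2 n` objects `S i 0`, `S i 1` -/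
  generate : ∀ X : C, Gen (fun Y => ∃ (i : Fin n) (m : ℤ),
    Nonempty (Y ≅ (S i 0)⟦m⟧) ∨ Nonempty (Y ≅ (S i 1)⟦m⟧)) X

end

end Pool.Tube
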