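import Mathlib
import Pool.Agent.Work.MP_841263_tu.Defs

/-!
# Tube structure theorem: statements of the blocks

Everything is over the landed library `MP_841263_st` and `MP_841263_r` (imported by `Defs`):
`StabCond`, `Slicing.Heart`, `StabCond.TF` (torsion free objects of the heart `P((t, t+1])`),
`StabCond.Atomic` (torsion free without proper torsion free quotient), `StabCond.Stable`,
`SimpleIn`, `Gen`, `Orth`, `eulerForm`, `IsPSD`, `radical`, and their lemmas, among them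
`Slicing.exists_KIQ` (kernel, image, cokernel in the heart), `Slicing.Heart.eulerChar`
(`χ(X,Y) = hom(X,Y) + hom(Y,X) - hom(X,Y[1])`), `StabCond.TF.sub`, `StabCond.Atomic.sub`,
`StabCond.Atomic.eulerChar_self_le`, `StabCond.P_sub_quot`, `StabCond.P_of_im`,
`StabCond.im_of_P`, `StabCond.im_pos_of_P`, `StabCond.re_neg_of_P`, `StabCond.gen_stable`
(semistable objects are iterated extensions of stable ones), `StabCond.Stable.simple`,
`SimpleIn.isIso`, `SimpleIn.orth`, `SimpleIn.hom_zero`, `SimpleIn.finrank_end`,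
`Slicing.Heart.exists_torsion`, `StabCond.tf_of_in`, `StabCond.TF.in`, `StabCond.exists_gap`,
`StabCond.gap_tf`, `finrank_duality`, `IsK3.serre`, `hom_zero_of_ext₁`, `hom_zero_of_ext₂`,
`cls_mk` (class of the middle term of a triangle), `rot_mk`, `exists_invrot`, `exists_octa`,
`exists_octa_cocone`, `tri_last_iso`, `tri_mid_iso`, `isZero₁_of_mor₁`, `iso_of_isZero₁`.
Abelian categories as full subcategories: `AbSub`, `SES`, `Slicing.heart_ab` (in `r/Ab.lean`,
`r/Fin.lean`). For rank computations: `rk`, `finrank_hom₁₂₃` (`st/Euler.lean`).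
-/

open CategoryTheory CategoryTheory.Limits CategoryTheory.Pretriangulated
open scoped ZeroObject

namespace Pool.Tube

open Pool.Stab

universe v u

section Lattice

variable {K : Type u} [AddCommGroup K]

/-- The lattice theoretic hypotheses. -/
structure LatHyp (B : K →+ K →+ ℤ) (im : K →+ ℝ) (δ : K) : Prop where
  psd : IsPSD B
  even : ∀ x, Even (B x x)
  rank : Module.finrank ℤ (radical B) = 2
  rank4 : 4 ≤ Module.finrank ℤ K
  irred : ∀ P Q : AddSubgroup K, P ⊔ Q = ⊤ → (∀ x ∈ P, ∀ y ∈ Q, B x y = 0) →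
    (∀ x ∈ P, x ∈ radical B) ∨ (∀ x ∈ Q, x ∈ radical B)
  gen : AddSubgroup.closure {x : K | B x x = 2} = ⊤
  rad : δ ∈ radical B
  ne : δ ≠ 0
  prim : ∀ (x : K) (n : ℤ), δ = n • x → n = 1 ∨ n = -1
  im0 : im δ = 0
  imroot : ∀ α, B α α = 2 → im α ≠ 0
  imrad : ∀ r ∈ radical B, im r = 0 → ∃ k : ℤ, r = k • δ

/-- Simple roots: positive roots which are not sums of two positive classes of norm at most
two. -/
def IsSimpleRoot (B : K →+ K →+ ℤ) (im : K →+ ℝ) (α : K) : Prop :=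
  B α α = 2 ∧ 0 < im α ∧
    ∀ x y : K, B x x ≤ 2 → B y y ≤ 2 → 0 < im x → 0 < im y → α ≠ x + y

/-- GAP. Copy the proof of `StabCond.exists_gap` (`st/Radical2.lean`): `hB.finite_mod_radical 2`
gives a finite set `F` of representatives modulo the radical of all `x` with `B x x ≤ 2`, and
`exists_step` (with `hF : im δ = 0`) a number `η` with `im r ∈ ℤ η` for all `r` in the radical;
the values of `im` in `(0, 1]` on such `x` are in a finite set. -/
def Stmt_GAP : Prop := ∀ (K : Type u) [AddCommGroup K] [Module.Finite ℤ K] [Module.Free ℤ K]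
  (B : K →+ K →+ ℤ) (im : K →+ ℝ) (δ : K), LatHyp B im δ →
  ∃ ε : ℝ, 0 < ε ∧ ∀ x, B x x ≤ 2 → 0 < im x → ε ≤ im x

/-- DEC (uses GAP). Induction on `N` with `im x < N ε`. If `x` is a simple root, done. If
`x = y + z` with `B y y ≤ 2`, `B z z ≤ 2`, `0 < im y`, `0 < im z`, then `ε ≤ im y, im z`, so both
have `im < (N - 1) ε`; add. Otherwise `x` is indecomposable and `B x x ≠ 2`, so (even, psd)
`B x x = 0`, `x` in the radical (`IsPSD.mem_radical_of_self`). There is a root `β` (if there is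
none, `gen` says that the closure of the empty set is everything, so `K` is trivial, against
`rank4`). Put `m = ⌊im β / im x⌋` and `β' = β - m • x`: `B β' β' = 2` (as `x` is in the radical),
`0 ≤ im β' < im x`, and `im β' ≠ 0` by `imroot`. Then `x = β' + (x - β')` with
`B (x - β') (x - β') = 2` and both imaginary parts positive, contradiction. -/
def Stmt_DEC : Prop := ∀ (K : Type u) [AddCommGroup K] [Module.Finite ℤ K] [Module.Free ℤ K]
  (B : K →+ K →+ ℤ) (im : K →+ ℝ) (δ : K), LatHyp B im δ →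
  ∀ x, B x x ≤ 2 → 0 < im x → x ∈ AddSubmonoid.closure {α | IsSimpleRoot B im α}

/-- OFF. Suppose `1 ≤ B α β`. By Cauchy-Schwarz (`IsPSD.cauchy`) `B α β ≤ 2`. If `B α β = 1`,
`α - β` is a root, so `im (α - β) ≠ 0`; if positive, `α = β + (α - β)` contradicts that `α` is
simple, if negative `β = α + (β - α)`. If `B α β = 2`, `B (α - β) (α - β) = 0`, so `α - β` is in
the radical; `im (α - β) = 0` would give `α - β = k • δ` by `imrad`, excluded; so it is positive
or negative and the same decompositions contradict simplicity. -/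
def Stmt_OFF : Prop := ∀ (K : Type u) [AddCommGroup K] [Module.Finite ℤ K] [Module.Free ℤ K]
  (B : K →+ K →+ ℤ) (im : K →+ ℝ) (δ : K), LatHyp B im δ →
  ∀ α β, IsSimpleRoot B im α → IsSimpleRoot B im β → (∀ k : ℤ, α ≠ β + k • δ) → B α β ≤ 0

/-- IND (uses DEC, OFF). Let `k • δ + ∑ c i • α i = 0`, `I = {i | 0 < c i}`, `J = {i | c i < 0}`,
`v = ∑_I c i • α i`, `w = ∑_J (- c j) • α j`, so `v - w = - k • δ`. As `δ` is in the radical,
`B v v = B v w ≤ 0` (OFF, `I` and `J` are disjoint), so `v` is in the radical. If `I` is empty,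
`v = 0`, `im w = 0` (`im δ = 0`), but `im w = ∑_J (- c j) im (α j)` is positive unless `J` is
empty; then all `c i = 0` and `k = 0` since `δ ≠ 0` (`K` is torsion free). The same if `J` is
empty. Now let both be nonempty. For a simple root `β` which is not `α i + m • δ` with `i ∈ I`:
`0 = B v β = ∑_I c i B (α i) β` with nonpositive terms (OFF), so `B (α i) β = 0` for `i ∈ I`.
Let `P` be generated by `δ` and the simple roots of the form `α i + m • δ`, `i ∈ I`, and `Q` by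
`δ` and the other simple roots. By `gen` and DEC (a root or its negative has positive imaginary
part) `P ⊔ Q = ⊤`, and `B x y = 0` for `x ∈ P`, `y ∈ Q`. By `irred`, `P` or `Q` is in the
radical; but `P` contains `α i` (`i ∈ I`) and `Q` contains `α j` (`j ∈ J`), of norm 2. -/
def Stmt_IND : Prop := ∀ (K : Type u) [AddCommGroup K] [Module.Finite ℤ K] [Module.Free ℤ K]
  (B : K →+ K →+ ℤ) (im : K →+ ℝ) (δ : K), LatHyp B im δ →
  ∀ (n : ℕ) (α : Fin n → K), (∀ i, IsSimpleRoot B im (α i)) →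
    (∀ i j, i ≠ j → ∀ k : ℤ, α i ≠ α j + k • δ) →
    ∀ (k : ℤ) (c : Fin n → ℤ), k • δ + ∑ i, c i • α i = 0 → k = 0 ∧ ∀ i, c i = 0

/-- FIN (uses IND). By IND every family as there is linearly independent over `ℤ`, so
`n ≤ finrank ℤ K`. Take such a family with the largest `n` (the empty family is one); a simple
root `β` not of the form `α i + k • δ` would extend it (`Fin.snoc`). -/
def Stmt_FIN : Prop := ∀ (K : Type u) [AddCommGroup K] [Module.Finite ℤ K] [Module.Free ℤ K]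
  (B : K →+ K →+ ℤ) (im : K →+ ℝ) (δ : K), LatHyp B im δ →
  ∃ (n : ℕ) (α : Fin n → K), (∀ i, IsSimpleRoot B im (α i)) ∧
    (∀ i j, i ≠ j → ∀ k : ℤ, α i ≠ α j + k • δ) ∧
    ∀ β, IsSimpleRoot B im β → ∃ (i : Fin n) (k : ℤ), β = α i + k • δ

/-- OF1 (uses DEC, OFF). By OFF `B α β ≤ 0`, by Cauchy-Schwarz `-2 ≤ B α β`. Suppose
`B α β = -2`: `B (α + β) (α + β) = 0`, so `α + β` is in the radical. For every simple root `γ`
which is neither `α + k • δ` nor `β + k • δ`: `B γ α + B γ β = 0`, both `≤ 0`, so both are zero.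
`P` generated by `δ` and the simple roots `α + k • δ`, `β + k • δ`, `Q` by `δ` and the other
simple roots: orthogonal, `P ⊔ Q = ⊤` (`gen`, DEC); `P` contains `α`, so `Q` is in the radical,
so there is no other simple root. Hence `K` is generated by `δ, α, β`, of rank at most 3,
against `rank4`. -/
def Stmt_OF1 : Prop := ∀ (K : Type u) [AddCommGroup K] [Module.Finite ℤ K] [Module.Free ℤ K]
  (B : K →+ K →+ ℤ) (im : K →+ ℝ) (δ : K), LatHyp B im δ →
  ∀ α β, IsSimpleRoot B im α → IsSimpleRoot B im β → (∀ k : ℤ, α ≠ β + k • δ) →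
    B α β = 0 ∨ B α β = -1

/-- BAS (uses DEC, IND, FIN, OF1). Take the family of FIN. `span`: roots generate `K` (`gen`),
a root or its negative is in the closure of the simple roots (DEC), and these are `α i + k • δ`.
`nonneg`: DEC and FIN. -/
def Stmt_BAS : Prop := ∀ (K : Type u) [AddCommGroup K] [Module.Finite ℤ K] [Module.Free ℤ K]
  (B : K →+ K →+ ℤ) (im : K →+ ℝ) (δ : K), LatHyp B im δ →
  ∃ (n : ℕ) (α : Fin n → K), SimpleRoots B im δ α

end Lattice

variable {C : Type u} [Category.{v} C] [Preadditive C] [HasZeroObject C] [HasShift C ℤ]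
  [∀ n : ℤ, (shiftFunctor C n).Additive] [Pretriangulated C] [IsTriangulated C] [Linear ℂ C]
  [∀ n : ℤ, (shiftFunctor C n).Linear ℂ]

/-- `δ` is a primitive radical class of phase `t + 1`, and no root is on its line. -/
structure TubeHyp (h : EllipticSetting C) (σ : StabCond C) (t : ℝ) (δ : K0 C) : Prop where
  rad : δ ∈ radical (eulerForm h.k3)
  ne : δ ≠ 0
  prim : ∀ (x : K0 C) (n : ℤ), δ = n • x → n = 1 ∨ n = -1
  im0 : σ.im t δ = 0
  re0 : σ.re t δ < 0
  imroot : ∀ α, eulerForm h.k3 α α = 2 → σ.im t α ≠ 0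

/-- A tube together with its simple roots. -/
structure Frame (h : EllipticSetting C) (σ : StabCond C) (t : ℝ) (δ : K0 C) {n : ℕ}
    (α : Fin n → K0 C) : Prop extends TubeHyp h σ t δ,
    SimpleRoots (eulerForm h.k3) (σ.im t) δ α

/-- `X` is a torsion free object of the heart of class `α i + k δ`. -/
def IsS (σ : StabCond C) (t : ℝ) (δ : K0 C) {n : ℕ} (α : Fin n → K0 C) (i : Fin n) (k : ℤ)
    (X : C) : Prop := σ.TF t X ∧ cls X = α i + k • δ

/-- Objects orthogonal to all `IsS` objects, in all degrees. -/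
def OrthS (σ : StabCond C) (t : ℝ) (δ : K0 C) {n : ℕ} (α : Fin n → K0 C) (Y : C) : Prop :=
  ∀ (i : Fin n) (k : ℤ) (X : C), IsS σ t δ α i k X → Orth X Y

variable (C)

/-- LHY. `gen`: as in `StabCond.Gap.all_roots` and `EllipticSetting.exists_root`: for a gap
`t'` (`σ.exists_Gap`), classes of rigid objects are in the closure of `σ.RR t' h.k3`
(`Gap.rigid_mem`), whose elements have norm 2; with `h.gen`. `imrad`: by
`StabCond.commensurable` `n • r = m • δ` with `n ≠ 0`; as `δ` is primitive and the radical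
saturated (`K0 C` is free), `r` is a multiple of `δ`: divide `n, m` by their gcd, `n' • r = m' • δ`
with `u n' + w m' = 1`, then `δ = (u n' + w m') • δ = n' • (u • δ + w • r)`, so `n' = 1` or `-1`. -/
def Stmt_LHY : Prop := ∀ (h : EllipticSetting C) (σ : StabCond C) (t : ℝ) (δ : K0 C),
  TubeHyp h σ t δ → LatHyp (eulerForm h.k3) (σ.im t) δ

/-- PTP (uses LHY). By `gen_stable` it is enough to treat stable `Q`, where `cls Q` has norm at
most 2 (`SimpleIn.eulerChar_self_le` for the heart `P((t, t+1])`) and `im = 0` (`im_of_P`), so it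
is not a root (`imroot`), so (even) in the radical, so `k • δ` by `imrad`, and `re < 0`
(`re_neg_of_P`) gives `0 < k`. -/
def Stmt_PTP : Prop := ∀ (h : EllipticSetting C) (σ : StabCond C) (t : ℝ) (δ : K0 C),
  TubeHyp h σ t δ → ∀ Q, σ.sl.P (t + 1) Q → ∃ m : ℕ, cls Q = (m : ℤ) • δ ∧ (m = 0 → IsZero Q)

/-- HCL (uses PTP). `Heart.exists_torsion` and PTP reduce to `X` in `σ.sl.In (Set.Ioo t (t+1))`;
induction on the HN filtration and `gen_stable` reduce to stable objects of phase in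
`(t, t+1)`, of norm at most 2 (they are simple in the heart `P((φ-1, φ])`) and `0 < im`
(`im_pos_of_P`); use `nonneg`. -/
def Stmt_HCL : Prop := ∀ (h : EllipticSetting C) (σ : StabCond C) (t : ℝ) (δ : K0 C) (n : ℕ)
  (α : Fin n → K0 C), Frame h σ t δ α → ∀ X, σ.sl.Heart t X →
    ∃ (k : ℤ) (c : Fin n → ℕ), cls X = k • δ + ∑ i, (c i : ℤ) • α i

/-- ATM (uses HCL). Let `Y → X → Z` be a triangle in the heart, `Y` nonzero. `Y` is torsion free
(`TF.sub`), so `0 < im (cls Y)` (`exists_gap`, `gap_tf`). By HCL `cls Y` and `cls Z` have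
nonnegative coordinates `c, d` (unique by `indep`) with `c + d` the `i`-th unit vector; `c ≠ 0`
as `im (cls Y) > 0`; so `d = 0`, `im (cls Z) = 0`, `P_of_im`. -/
def Stmt_ATM : Prop := ∀ (h : EllipticSetting C) (σ : StabCond C) (t : ℝ) (δ : K0 C) (n : ℕ)
  (α : Fin n → K0 C), Frame h σ t δ α → ∀ i k X, IsS σ t δ α i k X → σ.Atomic t X

/-- MOR (uses PTP, ATM). `exists_KIQ` for `f`: `K → X → I` and `I → Y → Q` with `p ≫ j = f`.
`I` is not zero as `f ≠ 0`. `X` is atomic: `K = 0` or `I ∈ P(t+1)`; the latter gives `j = 0` as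
`Y` is torsion free. So `K = 0` and `p` is an isomorphism (`iso_of_isZero₁`). `Y` is atomic and
`I ≠ 0`, so `Q ∈ P(t+1)`, `cls Q = m δ` by PTP, and `α j + l δ = α i + k δ + m δ`, so `i = j` and
`l = k + m` by `indep` (as a relation between basis elements). Compose with the isomorphism
`p` to get a triangle with first morphism `f`. -/
def Stmt_MOR : Prop := ∀ (h : EllipticSetting C) (σ : StabCond C) (t : ℝ) (δ : K0 C) (n : ℕ)
  (α : Fin n → K0 C), Frame h σ t δ α → ∀ i j (k l : ℤ) X Y, IsS σ t δ α i k X →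
    IsS σ t δ α j l Y → ∀ f : X ⟶ Y, f ≠ 0 →
    i = j ∧ ∃ (m : ℕ) (Q : C) (g : Y ⟶ Q) (w : Q ⟶ X⟦(1 : ℤ)⟧), l = k + m ∧
      cls Q = (m : ℤ) • δ ∧ σ.sl.P (t + 1) Q ∧ Triangle.mk f g w ∈ distTriang C

/-- UNI (uses PTP, MOR). `eulerChar X Y = 2`, so by `Heart.eulerChar` there is a nonzero morphism
in one of the two directions. In MOR `m = 0`, `Q` is zero, so the morphism is an isomorphism. -/
def Stmt_UNI : Prop := ∀ (h : EllipticSetting C) (σ : StabCond C) (t : ℝ) (δ : K0 C) (n : ℕ)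
  (α : Fin n → K0 C), Frame h σ t δ α → ∀ i k X Y, IsS σ t δ α i k X → IsS σ t δ α i k Y →
    Nonempty (X ≅ Y)

/-- EXI. The class `x = α i + k • δ` has norm 2 and `0 < im x`. `h.root_semistable σ` gives
`(φ, X)` with `X ∈ P(φ)` spherical of class `x`. `Slicing.exists_shift_P` (or
`Slicing.exists_shift_heart`) gives a shift `X[m] ∈ P(ψ)` with `ψ = φ + m ∈ (t, t+1]`; the sign
of `im (cls (X[m])) = ± im x` must be nonnegative, so `m` is even (positive sign), and `ψ < t + 1`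
since `0 < im`. `Spherical.shift`. Torsion free: `tf_of_in`. -/
def Stmt_EXI : Prop := ∀ (h : EllipticSetting C) (σ : StabCond C) (t : ℝ) (δ : K0 C) (n : ℕ)
  (α : Fin n → K0 C), Frame h σ t δ α → ∀ i k, ∃ X, IsS σ t δ α i k X ∧ Spherical X ∧
    ∃ φ : ℝ, t < φ ∧ φ < t + 1 ∧ σ.sl.P φ X

/-- SPH (uses HCL, UNI, EXI). `X` is isomorphic to the object of EXI, so spherical (transport
along an isomorphism) and in `P(φ)`. Stable: for a triangle `Y → X → Z` in `P(φ)` with `Y, Z`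
nonzero, both are in the heart with `0 < im` (`im_pos_of_P`), so by HCL both have nonzero
coordinate vectors in `ℕ`, with sum the unit vector: contradiction. -/
def Stmt_SPH : Prop := ∀ (h : EllipticSetting C) (σ : StabCond C) (t : ℝ) (δ : K0 C) (n : ℕ)
  (α : Fin n → K0 C), Frame h σ t δ α → ∀ i k X, IsS σ t δ α i k X →
    Spherical X ∧ ∃ φ : ℝ, t < φ ∧ φ < t + 1 ∧ σ.Stable φ X

/-- CRO (uses MOR). Degrees `m < 0` and `2 < m`: `Heart.finrank_zero`. `m = 0`: MOR. `m = 2`: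
`hom(X, Y[2]) = hom(Y, X) = 0` (`h.k3.serre`, MOR with the roles exchanged). `m = 1`:
`Heart.eulerChar`, `eulerForm_cls`, and `δ` is in the radical. -/
def Stmt_CRO : Prop := ∀ (h : EllipticSetting C) (σ : StabCond C) (t : ℝ) (δ : K0 C) (n : ℕ)
  (α : Fin n → K0 C), Frame h σ t δ α → ∀ i j (k l : ℤ) X Y, i ≠ j → IsS σ t δ α i k X →
    IsS σ t δ α j l Y →
    (Module.finrank ℂ (X ⟶ Y⟦(1 : ℤ)⟧) : ℤ) = - eulerForm h.k3 (α i) (α j) ∧
    ∀ m : ℤ, m ≠ 1 → ∀ f : X ⟶ Y⟦m⟧, f = 0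

/-- HN2 (uses HCL, MOR, EXI, SPH). `K` torsion free of class `2 α i + (2k - 1) δ`. Take an HN
filtration of `K` (phases in `(t, t+1)`, `TF.in`) and its last step `K' → K → A`, `A ∈ P(φ)`
nonzero, `K'` with phases `> φ`, both in the heart.
(a) `K'` not zero: both are torsion free, with nonzero coordinate vectors in `ℕ` adding up to
`2 α i`, so `K'` is `IsS i a` and `A` is `IsS i b` with `a + b = 2k - 1`. If `a < b`: `χ = 2`, so
`Hom(K', A) ≠ 0` or `Hom(A, K') ≠ 0`; the second is impossible by MOR (`a < b`), the first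
contradicts the phases (`hom_zero'`, all phases of `K'` are `> φ`). So `b ≤ a`, `k ≤ a`; take
`J = K'` and `K' → K`, which is not zero (otherwise `K' = 0`, `isZero₁_of_mor₁`).
(b) `K'` zero: `K ≅ A` is in `P(φ)`. It is not stable (norm 8, `SimpleIn.eulerChar_self_le`), so
there is a triangle `Y → K → Z` in `P(φ)` with `Y, Z` nonzero, as before `IsS i a` and `IsS i b`
with `a + b = 2k - 1`, both stable of phase `φ` (SPH; the phase is unique: `phase_unique`). One of
`Hom(Y, Z)`, `Hom(Z, Y)` is nonzero (`χ = 2`), so `Y ≅ Z` by Schur (both simple in the heart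
`P((φ - 1, φ])`), so `a = b`, contradiction to the parity. -/
def Stmt_HN2 : Prop := ∀ (h : EllipticSetting C) (σ : StabCond C) (t : ℝ) (δ : K0 C) (n : ℕ)
  (α : Fin n → K0 C), Frame h σ t δ α → ∀ (i : Fin n) (k : ℤ) (K : C), σ.TF t K →
    cls K = (2 : ℤ) • α i + (2 * k - 1) • δ →
    ∃ (j : ℤ) (J : C) (f : J ⟶ K), k ≤ j ∧ IsS σ t δ α i j J ∧ f ≠ 0

/-- TWO (uses PTP, ATM, MOR, UNI, SPH, HN2). `χ(X, Y) = 2`, `Hom(Y, X) = 0` by MOR, so
`hom(X, Y) = 2 + hom(X, Y[1])`. Suppose `3 ≤ hom(X, Y)` and take independent `f1, f2, f3`, and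
`g : V = X ⊞ (X ⊞ X) ⟶ Y` given by them. `V` is torsion free in the heart. `exists_KIQ`:
`K → V → I`, `I → Y → Q`. `I ≠ 0`, so `Q ∈ P(t+1)` (`Y` atomic), `cls Q = m δ`, and `I` (torsion
free, subobject of `Y`) is `IsS i (k + 1 - m)`. `f1` factors through `I`, so there is a nonzero
`X ⟶ I` and `m ≤ 1` by MOR. If `m = 1`, `I ≅ X` (UNI), `Hom(X, I)` is one-dimensional (SPH) and
`f1, f2` both factor through it: dependent. So `m = 0`, `Q = 0`, `cls I = cls Y`, so
`cls K = 3 cls X - cls Y = 2 α i + (2k - 1) δ`, and `K` is torsion free (subobject of `V`, nonzero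
as its class is not 0). `Hom(X, K) = 0`: for `u : X ⟶ K`, the composite `X ⟶ V` has components
`c1, c2, c3` in `End X = ℂ`, and `∑ c_a f_a = 0`, so it is zero, and `K → V` is a monomorphism for
maps from the heart (`hom_shift_zero` / `exists_invrot`), so `u = 0`. HN2 gives `J ⟶ K` nonzero,
`IsS i j J`, `k ≤ j`; the composite `J ⟶ V` is not zero, so some component `J ⟶ X` is not zero,
`j ≤ k` by MOR, `j = k`, `J ≅ X` (UNI), contradicting `Hom(X, K) = 0`. So `hom(X, Y) = 2`,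
`hom(X, Y[1]) = 0`; degree 2: `hom(Y, X) = 0`; other degrees `Heart.finrank_zero`. -/
def Stmt_TWO : Prop := ∀ (h : EllipticSetting C) (σ : StabCond C) (t : ℝ) (δ : K0 C) (n : ℕ)
  (α : Fin n → K0 C), Frame h σ t δ α → ∀ i (k : ℤ) X Y, IsS σ t δ α i k X →
    IsS σ t δ α i (k + 1) Y →
    Module.finrank ℂ (X ⟶ Y) = 2 ∧ ∀ m : ℤ, m ≠ 0 → ∀ f : X ⟶ Y⟦m⟧, f = 0

/-- EUL (uses PTP, ATM, MOR, UNI, SPH). `V = Y ⊞ Y` is torsion free. `exists_KIQ` for
`(f, g) : X ⟶ V`: nonzero, `X` atomic, `V` torsion free, so `K = 0` and we have a triangle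
`X → V → Q` with first morphism `(f, g)` and `Q` in the heart. Let `T → Q → F`
(`exists_torsion`), `cls T = m δ`, and `X' → V → F`, `X → X' → T` (octahedron
`exists_octa_cocone`; the composite `X → X' → V` is `(f, g)`): `X'` is torsion free (`TF.sub`; it
is not zero since `X` is not) of class `α i + (k + m) δ`. `X' → V` is not zero, so a component
`X' ⟶ Y` is not zero, `k + m ≤ k + 1`. If `m = 1`, `X' ≅ Y`, `Hom(X', Y)` is one-dimensional, and
`f, g` are `u ≫ a, u ≫ b` with `u : X ⟶ X'` and `a, b : X' ⟶ Y` proportional: then `f, g` are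
dependent. So `m = 0`, `T` is zero, `Q ≅ F` torsion free of class `2 cls Y - cls X`. -/
def Stmt_EUL : Prop := ∀ (h : EllipticSetting C) (σ : StabCond C) (t : ℝ) (δ : K0 C) (n : ℕ)
  (α : Fin n → K0 C), Frame h σ t δ α → ∀ i (k : ℤ) X Y, IsS σ t δ α i k X →
    IsS σ t δ α i (k + 1) Y → ∀ f g : X ⟶ Y,
    (∀ a b : ℂ, a • f + b • g = 0 → a = 0 ∧ b = 0) →
    ∃ (Z : C) (p : Y ⊞ Y ⟶ Z) (q : Z ⟶ X⟦(1 : ℤ)⟧), IsS σ t δ α i (k + 2) Z ∧
      Triangle.mk (biprod.lift f g) p q ∈ distTriang C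

/-- EUD (uses PTP, ATM, MOR, UNI, SPH). `V = X ⊞ X`, `exists_KIQ` for `biprod.desc f g : V ⟶ Y`:
`K → V → I`, `I → Y → Q`; `I ≠ 0`, `Q ∈ P(t+1)`, `cls Q = m δ`, `I` is `IsS i (k + 1 - m)`, there
is a nonzero `X ⟶ I` (a component), so `m ≤ 1`; `m = 1` makes `I ≅ X`, `Hom(X, I)` of dimension
one and `f, g` dependent; so `m = 0`, `Q = 0`, `I ≅ Y`, `K` torsion free (nonzero class) of class
`2 cls X - cls Y = α i + (k - 1) δ`. -/
def Stmt_EUD : Prop := ∀ (h : EllipticSetting C) (σ : StabCond C) (t : ℝ) (δ : K0 C) (n : ℕ)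
  (α : Fin n → K0 C), Frame h σ t δ α → ∀ i (k : ℤ) X Y, IsS σ t δ α i k X →
    IsS σ t δ α i (k + 1) Y → ∀ f g : X ⟶ Y,
    (∀ a b : ℂ, a • f + b • g = 0 → a = 0 ∧ b = 0) →
    ∃ (W : C) (w : W ⟶ X ⊞ X) (q : Y ⟶ W⟦(1 : ℤ)⟧), IsS σ t δ α i (k - 1) W ∧
      Triangle.mk w (biprod.desc f g) q ∈ distTriang C

/-- PNT (uses PTP, MOR). By MOR some cone of `f` is in `P(t+1)` of class `1 • δ`, and cones are
isomorphic. Stable: in a triangle `Y → Q → Z` in `P(t+1)` the classes are `a δ`, `b δ` with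
`a + b = 1` (PTP, `δ` has infinite order), so one of them is zero. -/
def Stmt_PNT : Prop := ∀ (h : EllipticSetting C) (σ : StabCond C) (t : ℝ) (δ : K0 C) (n : ℕ)
  (α : Fin n → K0 C), Frame h σ t δ α → ∀ i (k : ℤ) X Y, IsS σ t δ α i k X →
    IsS σ t δ α i (k + 1) Y → ∀ (f : X ⟶ Y) (Q : C) (p : Y ⟶ Q) (q : Q ⟶ X⟦(1 : ℤ)⟧), f ≠ 0 →
    Triangle.mk f p q ∈ distTriang C → σ.Stable (t + 1) Q ∧ cls Q = δ

/-- PEN (uses PTP, TWO, PNT), the pencil argument. Suppose no nonzero `f : W ⟶ X` has a cone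
isomorphic to `Q`. For every nonzero `f` with cone `Q'` (PNT): `Q', Q` are simple objects of the
heart, not isomorphic, so no nonzero morphisms in both directions (`SimpleIn.isIso`),
`χ(Q', Q) = 0` (radical class), so `Hom(Q', Q[1]) = 0` (`Heart.eulerChar`), and composition with
`f` is a bijection `Hom(X, Q) → Hom(W, Q)` (exactness at `Hom(X, Q)` and `Hom(W, Q)`; a map
`W ⟶ Q` extends to `X` since `Hom(Q'[-1], Q) = 0`). Take independent `f, g` (TWO): `A = f^*`,
`B = g^*` bijective, `Hom(X, Q) ≠ 0` finite-dimensional, so `A⁻¹ B` has an eigenvalue `c`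
(`Module.End.exists_eigenvalue`) and `(g - c f)^*` kills a nonzero element, contradiction with
injectivity. So some nonzero `f` has cone isomorphic to `Q` (`tri_last_iso`). -/
def Stmt_PEN : Prop := ∀ (h : EllipticSetting C) (σ : StabCond C) (t : ℝ) (δ : K0 C) (n : ℕ)
  (α : Fin n → K0 C), Frame h σ t δ α → ∀ i (k : ℤ) W X Q, IsS σ t δ α i k W →
    IsS σ t δ α i (k + 1) X → σ.Stable (t + 1) Q → (∃ g : X ⟶ Q, g ≠ 0) →
    ∃ (f : W ⟶ X) (p : X ⟶ Q) (q : Q ⟶ W⟦(1 : ℤ)⟧), f ≠ 0 ∧ Triangle.mk f p q ∈ distTriang C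

/-- ONE (uses UNI, EXI, SPH, TWO, PNT, PEN). (a) If `W → X → Q` is a triangle with `W` in
`IsS i (k-1)`, `X` in `IsS i k`, first morphism nonzero, then `hom(W, Q) = 1`:
`0 → Hom(W, W) → Hom(W, X) → Hom(W, Q) → Hom(W, W[1]) = 0`, dimensions 1, 2 (SPH, TWO).
(b) Going down: `Hom(X, Q) ≠ 0` gives (PEN, EXI) such a triangle, so `Hom(W, Q) ≠ 0` for
`W` in `IsS i (k - 1)`. (c) Going up: let `Y` be in `IsS i (k+1)` and suppose `Hom(Y, Q) = 0`.
`Hom(Q, Y) = 0` (`Y` torsion free) and `χ(Y, Q) = 0`, so `Hom(Y, Q[1]) = 0`. Take `f : X ⟶ Y`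
nonzero with cone `Q'` (stable, PNT): `Hom(X, Q) → Hom(Q', Q[1])` is injective, so
`Hom(Q', Q[1]) ≠ 0`, so `Q' ≅ Q` (otherwise `SimpleIn.orth` type argument: both Homs vanish and
`χ = 0`), so `Hom(Y, Q) ≠ 0` (the map `Y ⟶ Q'` is nonzero since `X` is not isomorphic to `Y`...,
as `Q' ≠ 0` and `Hom(X[1], Q') = 0`), contradiction. So `Hom ≠ 0` for one `k` implies it for all
`k` (induction on `ℤ`), and `hom(X, Q) = 1` by (a) for the pair `X, Y` (PEN at `Y`). Objects in
`IsS i l` are unique up to isomorphism (UNI). -/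
def Stmt_ONE : Prop := ∀ (h : EllipticSetting C) (σ : StabCond C) (t : ℝ) (δ : K0 C) (n : ℕ)
  (α : Fin n → K0 C), Frame h σ t δ α → ∀ i (k : ℤ) X Q, IsS σ t δ α i k X →
    σ.Stable (t + 1) Q → (∃ g : X ⟶ Q, g ≠ 0) → Module.finrank ℂ (X ⟶ Q) = 1 ∧
    ∀ (l : ℤ) (Y : C), IsS σ t δ α i l Y → ∃ g : Y ⟶ Q, g ≠ 0

/-- INJ (uses SPH, PNT, ONE). `p` and `p'` are nonzero elements of the one-dimensional space
`Hom(Y, Q)` (`p = 0` would make `Q` zero or `Hom(X[1], Q) ≠ 0`; `Q` is a nonzero object of the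
heart; if `f' = 0` take `c = 0`), so `p' = c' p` with `c' ≠ 0`, `f' ≫ p = 0`, so `f' = u ≫ f` with
`u ∈ End X = ℂ`. -/
def Stmt_INJ : Prop := ∀ (h : EllipticSetting C) (σ : StabCond C) (t : ℝ) (δ : K0 C) (n : ℕ)
  (α : Fin n → K0 C), Frame h σ t δ α → ∀ i (k : ℤ) X Y Q, IsS σ t δ α i k X →
    IsS σ t δ α i (k + 1) Y → ∀ (f : X ⟶ Y) (p : Y ⟶ Q) (q : Q ⟶ X⟦(1 : ℤ)⟧) (f' : X ⟶ Y)
    (p' : Y ⟶ Q) (q' : Q ⟶ X⟦(1 : ℤ)⟧), f ≠ 0 → Triangle.mk f p q ∈ distTriang C →
    Triangle.mk f' p' q' ∈ distTriang C → ∃ c : ℂ, f' = c • f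

/-- NAD (uses CRO, PEN, ONE, EXI). Suppose `g : X ⟶ Q`, `g' : X' ⟶ Q` nonzero with `X` in
`IsS i k`, `X'` in `IsS j l`. By PEN (objects from EXI) there is a triangle `W → X' → Q` with
`W` in `IsS j (l - 1)`; `Hom(X, X') = 0` and `Hom(X, W[1]) = 0` by CRO (`χ = 0`), so
`Hom(X, Q) = 0`, contradiction. -/
def Stmt_NAD : Prop := ∀ (h : EllipticSetting C) (σ : StabCond C) (t : ℝ) (δ : K0 C) (n : ℕ)
  (α : Fin n → K0 C), Frame h σ t δ α → ∀ i j (k l : ℤ) X X' Q,
    eulerForm h.k3 (α i) (α j) = 0 → IsS σ t δ α i k X → IsS σ t δ α j l X' →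
    σ.Stable (t + 1) Q → (∃ g : X ⟶ Q, g ≠ 0) → (∀ g : X' ⟶ Q, g = 0)

/-- ADJ (uses CRO, TWO, EUD, PNT, PEN, EXI). `A` in `IsS i k`, `X` in `IsS j l`; take `W` in
`IsS j (l - 1)` (EXI); `χ(α i, α j) = -1`, so `i ≠ j`. `Hom(A, W[1])` and `Hom(A, X[1])` are
one-dimensional (CRO), spanned by `v`, `w`; for `g : W ⟶ X` let `v ≫ g[1] = c(g) • w`, `c` a
linear form on the two-dimensional space `Hom(W, X)` (TWO). It is not zero: for a basis `g1, g2`
EUD gives a triangle `W' → W ⊞ W → X`, `W'` in `IsS j (l - 2)`, and `Hom(A, W'[2])` is zero (CRO),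
so `Hom(A, (W ⊞ W)[1]) → Hom(A, X[1])` is onto and `c(g1)` or `c(g2)` is not zero. So there is
`g0 ≠ 0`, unique up to scalars, with `c(g0) = 0`. For every nonzero `g` with cone `Q`:
`Hom(A, X) = 0 → Hom(A, Q) → Hom(A, W[1]) → Hom(A, X[1])` is exact, so `Hom(A, Q) ≠ 0` iff
`c(g) = 0`. Existence: the cone of `g0`. Uniqueness: if `Q'` is stable of phase `t + 1` with
nonzero maps from `A` and from `X`, PEN shows it is the cone of some `g ≠ 0`, `c(g) = 0`, so `g`
is a multiple of `g0` and `Q' ≅ Q`. -/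
def Stmt_ADJ : Prop := ∀ (h : EllipticSetting C) (σ : StabCond C) (t : ℝ) (δ : K0 C) (n : ℕ)
  (α : Fin n → K0 C), Frame h σ t δ α → ∀ i j (k l : ℤ) A X,
    eulerForm h.k3 (α i) (α j) = -1 → IsS σ t δ α i k A → IsS σ t δ α j l X →
    ∃ Q, σ.Stable (t + 1) Q ∧ (∃ g : A ⟶ Q, g ≠ 0) ∧ (∃ g : X ⟶ Q, g ≠ 0) ∧
      ∀ Q', σ.Stable (t + 1) Q' → (∃ g : A ⟶ Q', g ≠ 0) → (∃ g : X ⟶ Q', g ≠ 0) →
        Nonempty (Q' ≅ Q)

/-- GN1 (uses PTP, HCL, MOR, UNI, ATM, EXI). Every object of the heart is an iterated extension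
of `IsS` objects, stable objects of phase `t + 1`, and objects of `OrthS`.
Torsion part: `gen_stable`. Torsion free `X`: induction on `N` with `im (cls X) < N ε`
(`exists_gap`, `gap_tf`, and `Filt` by HN and `gen_stable`), it is enough to treat a stable `E` of
phase in `(t, t+1)` (all constituents have smaller or equal `im`). Cases:
(1) some nonzero `f : E ⟶ X'`, `IsS i k X'`: `exists_KIQ`: `K → E → I`, `I → X' → Q`; `I ≠ 0`
is a subobject of the atomic `X'`: `Q ∈ P(t+1)`, so `I` is `IsS i k'`; `K` is zero or torsion free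
with `im (cls K) = im (cls E) - im (α i) ≤ im (cls E) - ε`: induction (`ε ≤ im (α i)` by
`gap_tf` for `X'`). (2) some nonzero `f : X' ⟶ E`: kernel zero (`X'` atomic, `E` torsion free),
so a triangle `X' → E → Q` with `Q` in the heart, `im (cls Q) ≤ im (cls E) - ε`; `Q` has a torsion
part (`gen_stable`) and a torsion free part (induction). (3) neither: for all `i, k` and `X'` in
`IsS i k`: `χ(X', E) = - hom(X', E[1]) ≤ 0`; `E` is simple in the heart `P((φ-1, φ])`, so
`χ(E, E) ≤ 2`; if `χ(E, E) = 2` write `cls E = k δ + ∑ c i α i` with `c i ∈ ℕ` (HCL):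
`2 = χ(E, E) = ∑ c i χ(α i, E) ≤ 0`, contradiction; so `cls E` is in the radical, so
`χ(X', E) = 0` and `Hom(X', E[1]) = 0`; `Hom(X', E[2])` has the dimension of `Hom(E, X') = 0`;
other degrees `Heart.finrank_zero`: `E` is in `OrthS`. -/
def Stmt_GN1 : Prop := ∀ (h : EllipticSetting C) (σ : StabCond C) (t : ℝ) (δ : K0 C) (n : ℕ)
  (α : Fin n → K0 C), Frame h σ t δ α → ∀ X, σ.sl.Heart t X →
    Gen (fun Y => (∃ i k, IsS σ t δ α i k Y) ∨ σ.Stable (t + 1) Y ∨ OrthS σ t δ α Y) X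

/-- ORT (uses GN1, PEN, EXI, SPH). Let `G` be the class of all `Y ≅ X'[m]`, `X'` in some
`IsS i k`, and `G'` the class `OrthS` (closed under shifts and isomorphisms: `Orth.shift`,
`Orth.iso`). A stable `Q` of phase `t + 1` is in `Gen G` or in `OrthS`: if some `X'` in `IsS i k`
has a nonzero map to `Q`, PEN makes `Q` a cone (so a middle term, by rotation) of `G` objects;
otherwise `Hom(X', Q) = 0` for all, `Hom(Q, X') = 0` (torsion free), `χ = 0`, so `Q` is in
`OrthS`. By GN1 and HN filtrations (`Slicing.exists_shift_heart`, induction) every object is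
`Gen (G ∪ G')`, so `exists_biprod_of_gen` gives `E ≅ X ⊞ Y`. `G` to `G'`: no morphisms; `G'` to
`G`: none by the K3 duality (`finrank_duality`). Apply `h.indec` with `P = Gen G`,
`Q = OrthS`: the first alternative is impossible since `IsS i 0` objects are not zero and
`n ≠ 0` (if `n = 0`, `span` makes `K0 C` cyclic, against `h.rank4`). -/
def Stmt_ORT : Prop := ∀ (h : EllipticSetting C) (σ : StabCond C) (t : ℝ) (δ : K0 C) (n : ℕ)
  (α : Fin n → K0 C), Frame h σ t δ α → ∀ Y, OrthS σ t δ α Y → IsZero Y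

/-- PTL (uses ORT, EXI, PTP, PNT, PEN, ONE). `Q` is not zero, so not in `OrthS`: as `χ = 0` and
`Hom(Q, X) = 0` for torsion free `X`, some `X` in `IsS i k` has a nonzero map to `Q`; ONE gives
all `k`; PEN and PNT give the class (cones are isomorphic). -/
def Stmt_PTL : Prop := ∀ (h : EllipticSetting C) (σ : StabCond C) (t : ℝ) (δ : K0 C) (n : ℕ)
  (α : Fin n → K0 C), Frame h σ t δ α → ∀ Q, σ.Stable (t + 1) Q → cls Q = δ ∧
    ∃ i, ∀ (k : ℤ) (X : C), IsS σ t δ α i k X → ∃ g : X ⟶ Q, g ≠ 0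

/-- GNH (uses GN1, ORT). -/
def Stmt_GNH : Prop := ∀ (h : EllipticSetting C) (σ : StabCond C) (t : ℝ) (δ : K0 C) (n : ℕ)
  (α : Fin n → K0 C), Frame h σ t δ α → ∀ X, σ.sl.Heart t X →
    Gen (fun Y => (∃ i k, IsS σ t δ α i k Y) ∨ σ.Stable (t + 1) Y) X

/-- GNA (uses GNH, PTL, EXI, UNI, TWO, EUL, EUD, PEN). `IsS i k` objects are iterated extensions
of shifts of `IsS i 0` and `IsS i 1` objects: upwards by EUL (rotate the triangle
`X → Y ⊞ Y → Z`), downwards by EUD, induction over `ℤ` (a basis `f, g` of `Hom(X, Y)` exists by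
TWO). Points are cones of maps from `IsS i 0` to `IsS i 1` (PTL, PEN). Every object is an iterated
extension of shifts of objects of the heart (HN filtration, `Slicing.exists_shift_heart`). -/
def Stmt_GNA : Prop := ∀ (h : EllipticSetting C) (σ : StabCond C) (t : ℝ) (δ : K0 C) (n : ℕ)
  (α : Fin n → K0 C), Frame h σ t δ α → ∀ X : C,
    Gen (fun Y => ∃ (i : Fin n) (m : ℤ) (Z : C), (IsS σ t δ α i 0 Z ∨ IsS σ t δ α i 1 Z) ∧
      Nonempty (Y ≅ Z⟦m⟧)) X

/-- TUB. `exists_im_zero σ δ` gives `lam` with `im (lam - 1) δ = 0` and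
`re (lam - 1) δ = -‖Z δ‖`; put `t = lam - 1`. `Z δ ≠ 0`: `h.Z_ne_zero` (norm 0). With
`Z δ = -‖Z δ‖ e^{iπt}`: `im_t(x) = Im (Z x e^{-iπt}) = -‖Z δ‖ Im (Z x / Z δ)`. -/
def Stmt_TUB : Prop := ∀ (h : EllipticSetting C) (σ : StabCond C) (δ : K0 C),
  δ ∈ radical (eulerForm h.k3) → δ ≠ 0 → (∀ (x : K0 C) (n : ℤ), δ = n • x → n = 1 ∨ n = -1) →
  (∀ α, eulerForm h.k3 α α = 2 → (σ.Z α / σ.Z δ).im ≠ 0) →
  ∃ t : ℝ, σ.Z δ = -(‖σ.Z δ‖ : ℂ) * Complex.exp (Real.pi * t * Complex.I) ∧ TubeHyp h σ t δ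

/-- TRF. `StabCond.im`, `StabCond.re` depend on `Z` only. -/
def Stmt_TRF : Prop := ∀ (h : EllipticSetting C) (σ τ : StabCond C) (t : ℝ) (δ : K0 C) (n : ℕ)
  (α : Fin n → K0 C), Frame h σ t δ α → τ.Z = σ.Z → Frame h τ t δ α

/-- UQ1 (uses TWO, EUL, EUD). If `X`, `Y` are `IsS i k`, `IsS i (k+1)` for both `σ` and `τ`, take
a basis `f, g` of `Hom(X, Y)`; the objects `Z` of EUL for `σ` and for `τ` are cones of the same
morphism, so isomorphic (`TF` is invariant under isomorphisms). Downwards EUD. Induction. -/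
def Stmt_UQ1 : Prop := ∀ (h : EllipticSetting C) (σ τ : StabCond C) (t : ℝ) (δ : K0 C) (n : ℕ)
  (α : Fin n → K0 C), Frame h σ t δ α → Frame h τ t δ α →
  ∀ i, (∃ X, IsS σ t δ α i 0 X ∧ IsS τ t δ α i 0 X) →
    (∃ X, IsS σ t δ α i 1 X ∧ IsS τ t δ α i 1 X) →
    ∀ k : ℤ, ∃ X, IsS σ t δ α i k X ∧ IsS τ t δ α i k X

/-- UQ2 (uses UNI, PNT, PEN, PTL, GNH). By UNI the `IsS` objects of `σ` and `τ` are the same. By
GNH for `σ` it is enough that `σ`-stable `Q` of phase `t + 1` are in the heart of `τ`: by PTL and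
PEN for `σ` such a `Q` is the cone of a nonzero map `X ⟶ Y` from `IsS i 0` to `IsS i 1`, so by PNT
for `τ` it is `τ`-stable of phase `t + 1` (`Slicing.Heart.ext`, `Slicing.heart_of_P`). -/
def Stmt_UQ2 : Prop := ∀ (h : EllipticSetting C) (σ τ : StabCond C) (t : ℝ) (δ : K0 C) (n : ℕ)
  (α : Fin n → K0 C), Frame h σ t δ α → Frame h τ t δ α →
  (∀ i (k : ℤ), ∃ X, IsS σ t δ α i k X ∧ IsS τ t δ α i k X) →
    ∀ X, σ.sl.Heart t X → τ.sl.Heart t X

/-- UQ3. Equal hearts and charges give equal stability conditions. For `φ ∈ (t, t+1)` and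
`X ∈ P_σ(φ)` nonzero: `StabCond.king_of_P` (a statement about the heart and the charge), then
`StabCond.P_of_king` for `τ` gives `X ∈ P_τ(ψ)`, `t < ψ ≤ t + 1`, and `ψ = φ` (`phase_unique`
or `polar`, same charge). For `φ = t + 1`: `P_of_im`, `im_of_P`. Other phases by shifts. Then
the structures are equal (`P` is a function to `ObjectProperty`, use `funext`, `propext`). -/
def Stmt_UQ3 : Prop := ∀ (σ τ : StabCond C) (t : ℝ), τ.Z = σ.Z →
  (∀ X, σ.sl.Heart t X ↔ τ.sl.Heart t X) → σ = τ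

/-- FIB (uses everything above). Choose `S i k` by EXI. `OnLine S i Q` for a stable `Q` of phase
`t + 1` iff there is a nonzero `S i 0 ⟶ Q` (ONE, PEN; conversely the second morphism of the
triangle is nonzero). -/
def Stmt_FIB : Prop := ∀ (h : EllipticSetting C) (σ : StabCond C) (t : ℝ) (δ : K0 C) (n : ℕ)
  (α : Fin n → K0 C), Frame h σ t δ α → ∃ S : Fin n → ℤ → C,
    (∀ i k, IsS σ t δ α i k (S i k)) ∧ Fibre h σ t δ α S

/-- FBS. In a `Fibre` the objects `S i k` are `IsS` (they are semistable of phase in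
`(t, t+1)`: `tf_of_in`). -/
def Stmt_FBS : Prop := ∀ (h : EllipticSetting C) (σ : StabCond C) (t : ℝ) (δ : K0 C) (n : ℕ)
  (α : Fin n → K0 C) (S : Fin n → ℤ → C), Fibre h σ t δ α S → ∀ i k, IsS σ t δ α i k (S i k)

end Pool.Tube
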