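import Mathlib
import Pool.Agent.Work.MP_841263_tu.Interface

open CategoryTheory CategoryTheory.Limits CategoryTheory.Pretriangulated
open scoped ZeroObject

namespace Pool.Tube

open Pool.Stab

universe v u

theorem p_FBS {C : Type u} [Category.{v} C] [Preadditive C] [HasZeroObject C] [HasShift C ℤ]
    [∀ n : ℤ, (shiftFunctor C n).Additive] [Pretriangulated C] [IsTriangulated C] [Linear ℂ C]
    [∀ n : ℤ, (shiftFunctor C n).Linear ℂ] : Stmt_FBS C := by
  intro h σ t δ n α S hF i k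
  obtain ⟨φ, h1, h2, hS⟩ := hF.stable i k
  exact ⟨σ.tf_of_in (Slicing.in_of_P hS.1 ⟨h1, h2⟩) hS.2.1, hF.cls_eq i k⟩

end Pool.Tube
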