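import Pool.Agent.Work.MP_841263_tu.Interface

set_option autoImplicit false

/-! # Block FIB: the fibre -/

open CategoryTheory CategoryTheory.Limits CategoryTheory.Pretriangulated
open scoped ZeroObject

namespace Pool.Tube

open Pool.Stab

universe v u

theorem p_FIB {C : Type u} [Category.{v} C] [Preadditive C] [HasZeroObject C] [HasShift C ℤ]
    [∀ n : ℤ, (shiftFunctor C n).Additive] [Pretriangulated C] [IsTriangulated C] [Linear ℂ C]
    [∀ n : ℤ, (shiftFunctor C n).Linear ℂ] (hEXI : Stmt_EXI C) (hSPH : Stmt_SPH C)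
    (hTWO : Stmt_TWO C) (hCRO : Stmt_CRO C) (hEUL : Stmt_EUL C) (hUNI : Stmt_UNI C)
    (hPNT : Stmt_PNT C) (hPEN : Stmt_PEN C) (hONE : Stmt_ONE C) (hINJ : Stmt_INJ C)
    (hNAD : Stmt_NAD C) (hADJ : Stmt_ADJ C) (hPTL : Stmt_PTL C) (hGNH : Stmt_GNH C)
    (hGNA : Stmt_GNA C) : Stmt_FIB C := by
  intro h σ t δ n α hF
  choose S hS _ using fun (i : Fin n) (k : ℤ) => hEXI h σ t δ n α hF i k
  -- the second morphism of a triangle is not zero
  have hmor : ∀ (i : Fin n) (k : ℤ) (f : S i k ⟶ S i (k + 1)) (Q : C) (p : S i (k + 1) ⟶ Q)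
      (q : Q ⟶ (S i k)⟦(1 : ℤ)⟧), f ≠ 0 → Triangle.mk f p q ∈ distTriang C →
      σ.Stable (t + 1) Q ∧ p ≠ 0 := by
    intro i k f Q p q hf hT
    have hQ := (hPNT h σ t δ n α hF i k _ _ (hS i k) (hS i (k + 1)) f Q p q hf hT).1
    refine ⟨hQ, fun hp => ?_⟩
    exact hQ.2.1 (isZero₃_of_mor₂ hT hp fun r =>
      σ.hom_shift_zero (hS i k).1.1 (StabCond.Stable.simple hQ).1 r)
  -- points with a nonzero morphism from one `S i k` are on the line `i`
  have hline : ∀ (i : Fin n) (k : ℤ) (Q : C), σ.Stable (t + 1) Q →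
      (∃ g : S i k ⟶ Q, g ≠ 0) → OnLine S i Q := by
    intro i k Q hQ hg l
    have h1 := (hONE h σ t δ n α hF i k (S i k) Q (hS i k) hQ hg).2 (l + 1) (S i (l + 1))
      (hS i (l + 1))
    obtain ⟨f, p, q, hf, hT⟩ := hPEN h σ t δ n α hF i l (S i l) (S i (l + 1)) Q (hS i l)
      (hS i (l + 1)) hQ h1
    exact ⟨f, hf, p, q, hT⟩
  have hline' : ∀ (i : Fin n) (Q : C), OnLine S i Q → σ.Stable (t + 1) Q ∧
      ∀ l : ℤ, ∃ g : S i l ⟶ Q, g ≠ 0 := by
    intro i Q hQ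
    obtain ⟨f, hf, p, q, hT⟩ := hQ 0
    obtain ⟨h1, h2⟩ := hmor i 0 f Q p q hf hT
    exact ⟨h1, fun l => (hONE h σ t δ n α hF i (0 + 1) (S i (0 + 1)) Q (hS i (0 + 1)) h1
      ⟨p, h2⟩).2 l (S i l) (hS i l)⟩
  refine ⟨S, hS, ?_⟩
  exact
    { roots := hF.toSimpleRoots
      cls_eq := fun i k => (hS i k).2
      spherical := fun i k => (hSPH h σ t δ n α hF i k _ (hS i k)).1
      stable := fun i k => (hSPH h σ t δ n α hF i k _ (hS i k)).2
      two := fun i k => (hTWO h σ t δ n α hF i k _ _ (hS i k) (hS i (k + 1))).1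
      two' := fun i k => (hTWO h σ t δ n α hF i k _ _ (hS i k) (hS i (k + 1))).2
      cross := fun i j hij k l => (hCRO h σ t δ n α hF i j k l _ _ hij (hS i k) (hS j l)).1
      cross' := fun i j hij k l => (hCRO h σ t δ n α hF i j k l _ _ hij (hS i k) (hS j l)).2
      euler := by
        intro i k f g hfg
        obtain ⟨Z, p, q, hZ, hT⟩ := hEUL h σ t δ n α hF i k _ _ (hS i k) (hS i (k + 1)) f g hfg
        obtain ⟨e⟩ := hUNI h σ t δ n α hF i (k + 2) Z (S i (k + 2)) hZ (hS i (k + 2))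
        exact ⟨_, _, tri_last_iso hT e⟩
      cone := by
        intro i k f hf Q p q hT
        obtain ⟨h1, h2⟩ := hmor i k f Q p q hf hT
        refine ⟨h1, hline i (k + 1) Q h1 ⟨p, h2⟩, ?_⟩
        intro f' p' q' hT'
        exact hINJ h σ t δ n α hF i k _ _ Q (hS i k) (hS i (k + 1)) f p q f' p' q' hf hT hT'
      point := by
        intro Q hQ
        obtain ⟨h1, i, h2⟩ := hPTL h σ t δ n α hF Q hQ
        exact ⟨h1, i, hline i 0 Q hQ (h2 0 (S i 0) (hS i 0))⟩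
      meet := by
        intro i j hij
        obtain ⟨Q, hQ, h1, h2, h3⟩ := hADJ h σ t δ n α hF i j 0 0 _ _ hij (hS i 0) (hS j 0)
        refine ⟨Q, hQ, hline i 0 Q hQ h1, hline j 0 Q hQ h2, ?_⟩
        intro Q' hi hj
        obtain ⟨h4, h5⟩ := hline' i Q' hi
        obtain ⟨-, h6⟩ := hline' j Q' hj
        exact h3 Q' h4 (h5 0) (h6 0)
      disjoint := by
        rintro i j hij Q ⟨hi, hj⟩
        obtain ⟨h4, h5⟩ := hline' i Q hi
        obtain ⟨-, h6⟩ := hline' j Q hj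
        obtain ⟨g, hg⟩ := h6 0
        exact hg (hNAD h σ t δ n α hF i j 0 0 _ _ Q hij (hS i 0) (hS j 0) h4 (h5 0) g)
      heart := by
        intro X hX
        refine (hGNH h σ t δ n α hF X hX).mono ?_
        rintro Y (⟨i, k, hY⟩ | hY)
        · exact Or.inl ⟨i, k, hUNI h σ t δ n α hF i k Y (S i k) hY (hS i k)⟩
        · exact Or.inr hY
      generate := by
        intro X
        refine (hGNA h σ t δ n α hF X).mono ?_
        rintro Y ⟨i, m, Z, hZ, ⟨e⟩⟩
        refine ⟨i, m, ?_⟩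
        rcases hZ with hZ | hZ
        · obtain ⟨e'⟩ := hUNI h σ t δ n α hF i 0 Z (S i 0) hZ (hS i 0)
          exact Or.inl ⟨e ≪≫ (shiftFunctor C m).mapIso e'⟩
        · obtain ⟨e'⟩ := hUNI h σ t δ n α hF i 1 Z (S i 1) hZ (hS i 1)
          exact Or.inr ⟨e ≪≫ (shiftFunctor C m).mapIso e'⟩ }

end Pool.Tube
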