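import Pool.Agent.Work.MP_841263_tu.Interface

/-! # Block FIN (helper72) -/

namespace Pool.Tube

open Pool.Stab

universe v u

theorem p_FIN (hIND : Stmt_IND.{u}) : Stmt_FIN.{u} := by
  classical
  intro K _ _ _ B im δ h
  let P : ℕ → Prop := fun n => ∃ α : Fin n → K, (∀ i, IsSimpleRoot B im (α i)) ∧
    (∀ i j, i ≠ j → ∀ k : ℤ, α i ≠ α j + k • δ)
  have hbd : ∀ n, P n → n ≤ Module.finrank ℤ K := by
    rintro n ⟨α, h1, h2⟩
    have h3 : LinearIndependent ℤ α := by
      rw [Fintype.linearIndependent_iff]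
      intro c hc
      exact (hIND K B im δ h n α h1 h2 0 c (by rw [zero_smul, zero_add, hc])).2
    simpa using h3.fintype_card_le_finrank
  have hP0 : P 0 := ⟨fun i => i.elim0, fun i => i.elim0, fun i => i.elim0⟩
  have hg := Nat.findGreatest_spec (Nat.zero_le (Module.finrank ℤ K)) hP0
  obtain ⟨n, hn⟩ : ∃ n, n = Nat.findGreatest P (Module.finrank ℤ K) := ⟨_, rfl⟩
  rw [← hn] at hg
  obtain ⟨α, h1, h2⟩ := hg
  refine ⟨n, α, h1, h2, ?_⟩
  intro β hβ
  by_contra hno
  push Not at hno
  have hP1 : P (n + 1) := by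
    refine ⟨Fin.cons β α, ?_, ?_⟩
    · intro i
      refine Fin.cases ?_ (fun j => ?_) i
      · rw [Fin.cons_zero]
        exact hβ
      · rw [Fin.cons_succ]
        exact h1 j
    · intro i j
      refine Fin.cases ?_ (fun i' => ?_) i
      · refine Fin.cases ?_ (fun j' => ?_) j
        · intro hij
          exact absurd rfl hij
        · intro _ k
          rw [Fin.cons_zero, Fin.cons_succ]
          exact hno j' k
      · refine Fin.cases ?_ (fun j' => ?_) j
        · intro _ k hk
          rw [Fin.cons_zero, Fin.cons_succ] at hk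
          exact hno i' (-k) (by rw [hk, neg_smul]; abel)
        · intro hij k
          rw [Fin.cons_succ, Fin.cons_succ]
          exact h2 i' j' (fun e => hij (by rw [e])) k
  have h3 := Nat.le_findGreatest (hbd _ hP1) hP1
  omega

end Pool.Tube
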