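import Pool.Agent.Work.MP_841263_tu.Interface

set_option autoImplicit false

/-! # Block GN1: generation of the heart, first form -/

open CategoryTheory CategoryTheory.Limits CategoryTheory.Pretriangulated
open scoped ZeroObject

namespace Pool.Tube

open Pool.Stab

universe v u

section

variable {C : Type u} [Category.{v} C] [Preadditive C] [HasZeroObject C] [HasShift C ℤ]
  [∀ n : ℤ, (shiftFunctor C n).Additive] [Pretriangulated C]

/-- induction over the extensions, with a bound for the imaginary part -/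
theorem GN1_gen {F : K0 C →+ ℝ} {G G' : C → Prop} {M : ℝ} (hpos : ∀ X, G X → 0 ≤ F (cls X))
    (hG : ∀ X, G X → F (cls X) < M → Gen G' X) {X : C} (hX : Gen G X) :
    0 ≤ F (cls X) ∧ (F (cls X) < M → Gen G' X) := by
  induction hX with
  | zero hX => exact ⟨by rw [cls_of_isZero hX, map_zero], fun _ => Gen.zero hX⟩
  | of hX => exact ⟨hpos _ hX, hG _ hX⟩
  | ext hT _ _ ih1 ih2 =>
    have h1 := cls_mk hT
    refine ⟨?_, fun hM => ?_⟩
    · rw [h1, map_add]
      linarith [ih1.1, ih2.1]
    · rw [h1, map_add] at hM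
      exact Gen.ext hT (ih1.2 (by linarith [ih2.1])) (ih2.2 (by linarith [ih1.1]))

/-- reduction to stable objects -/
theorem GN1_hn [Module.Finite ℤ (K0 C)] [Module.Free ℤ (K0 C)] {σ : StabCond C} {t M : ℝ}
    {G : C → Prop}
    (hG : ∀ φ, t < φ → φ < t + 1 → ∀ E, σ.Stable φ E → σ.im t (cls E) < M → Gen G E) {X : C}
    {l : List ℝ} (hX : HN σ.sl.P X l) (hl : ∀ φ ∈ l, φ ∈ Set.Ioo t (t + 1)) :
    0 ≤ σ.im t (cls X) ∧ (σ.im t (cls X) < M → Gen G X) := by
  induction hX with
  | zero hX => exact ⟨by rw [cls_of_isZero hX, map_zero], fun _ => Gen.zero hX⟩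
  | @step X Y A φ l hX hφ hA hA0 f g h hT ih =>
    have h0 := ih fun ψ hψ => hl ψ (List.mem_cons_of_mem _ hψ)
    have hφ' := hl φ List.mem_cons_self
    have h1 := cls_mk hT
    have h2 := GN1_gen (F := σ.im t) (M := M)
      (fun E hE => σ.im_nonneg_of_P hE.1 hφ'.1 hφ'.2.le)
      (fun E hE => hG φ hφ'.1 hφ'.2 E hE) (σ.gen_stable hA)
    refine ⟨?_, fun hM => ?_⟩
    · rw [h1, map_add]
      linarith [h0.1, h2.1]
    · rw [h1, map_add] at hM
      exact Gen.ext hT (h0.2 (by linarith [h2.1])) (h2.2 (by linarith [h0.1]))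

end

theorem p_GN1 {C : Type u} [Category.{v} C] [Preadditive C] [HasZeroObject C] [HasShift C ℤ]
    [∀ n : ℤ, (shiftFunctor C n).Additive] [Pretriangulated C] [IsTriangulated C] [Linear ℂ C]
    [∀ n : ℤ, (shiftFunctor C n).Linear ℂ] (hPTP : Stmt_PTP C) (hHCL : Stmt_HCL C)
    (_hMOR : Stmt_MOR C) (_hUNI : Stmt_UNI C) (hATM : Stmt_ATM C) (hEXI : Stmt_EXI C) :
    Stmt_GN1 C := by
  intro h σ t δ n α hF
  have hfin := h.k3.homFinite
  have := h.finite
  have := h.free
  have hB : IsPSD (eulerForm h.k3) := isPSD_of h.k3 h.psd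
  obtain ⟨ε, hε, hgap⟩ := σ.exists_gap h.k3 hB h.rank hF.rad hF.ne hF.im0
  set G : C → Prop := fun Y => (∃ i k, IsS σ t δ α i k Y) ∨ σ.Stable (t + 1) Y ∨
    OrthS σ t δ α Y with hGdef
  have htors : ∀ T, σ.sl.P (t + 1) T → Gen G T := fun T hT =>
    (σ.gen_stable hT).mono fun W hW => Or.inr (Or.inl hW)
  have hδ : ∀ (x y : K0 C) (k : ℤ), eulerForm h.k3 (x + k • δ) y = eulerForm h.k3 x y := by
    intro x y k
    have h1 : eulerForm h.k3 (k • δ) y = 0 := (radical (eulerForm h.k3)).smul_mem k hF.rad y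
    rw [map_add, AddMonoidHom.add_apply, h1, add_zero]
  -- an object `I` of the heart with `cls I = α i + k • δ` inside a torsion free object
  have hIs : ∀ (i : Fin n) (k : ℤ) (I E Q : C) (f : I ⟶ E) (g : E ⟶ Q) (d : Q ⟶ I⟦(1 : ℤ)⟧),
      Triangle.mk f g d ∈ distTriang C → σ.TF t E → σ.sl.Heart t I → σ.sl.Heart t Q →
      ¬ IsZero I → cls I = α i + k • δ → IsS σ t δ α i k I := fun i k I E Q f g d hT hE hI hQ h0 hc =>
    ⟨StabCond.TF.sub hT hE hI hQ h0, hc⟩
  have hIim : ∀ (i : Fin n) (k : ℤ) (I : C), IsS σ t δ α i k I → ε ≤ σ.im t (cls I) :=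
    fun i k I hI => σ.gap_tf hε hgap hI.1
  -- stable objects
  have hstab : ∀ M : ℝ, (∀ X, σ.sl.Heart t X → σ.im t (cls X) < M → Gen G X) →
      ∀ φ, t < φ → φ < t + 1 → ∀ E, σ.Stable φ E → σ.im t (cls E) < M + ε → Gen G E := by
    intro M hM φ hφ1 hφ2 E hE hEM
    have hE0 : ¬ IsZero E := hE.2.1
    have hEh : σ.sl.Heart t E := Slicing.heart_of_P hE.1 hφ1 hφ2.le
    have hEtf : σ.TF t E := σ.tf_of_in (Slicing.in_of_P hE.1 ⟨hφ1, hφ2⟩) hE0
    by_cases c1 : ∃ (i : Fin n) (k : ℤ) (X' : C) (f : E ⟶ X'), IsS σ t δ α i k X' ∧ f ≠ 0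
    · obtain ⟨i, k, X', f, hX', hf⟩ := c1
      obtain ⟨K, I, Q, a, p, d, j, q, e, hT1, hT2, hK, hI, hQ, hpj⟩ :=
        Slicing.exists_KIQ hEh hX'.1.1 f
      have hI0 : ¬ IsZero I := by
        intro h0
        apply hf
        rw [← hpj, h0.eq_of_tgt p 0, zero_comp]
      have hQP : σ.sl.P (t + 1) Q := by
        rcases (hATM h σ t δ n α hF i k X' hX').2 I Q j q e hT2 hI hQ with h1 | h1
        · exact absurd h1 hI0
        · exact h1
      obtain ⟨m, hm, -⟩ := hPTP h σ t δ hF.toTubeHyp Q hQP
      have hcI : cls I = α i + (k - m) • δ := by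
        have h1 := cls_mk hT2
        rw [hX'.2, hm] at h1
        rw [sub_smul]
        rw [← add_sub_assoc, h1]
        abel
      have hIS := hIs i (k - m) I X' Q j q e hT2 hX'.1 hI hQ hI0 hcI
      have h2 := cls_mk hT1
      have h3 := hIim i (k - m) I hIS
      refine Gen.ext hT1 (hM K hK ?_) (Gen.of (Or.inl ⟨i, k - m, hIS⟩))
      rw [h2, map_add] at hEM
      linarith
    · by_cases c2 : ∃ (i : Fin n) (k : ℤ) (X' : C) (f : X' ⟶ E), IsS σ t δ α i k X' ∧ f ≠ 0
      · obtain ⟨i, k, X', f, hX', hf⟩ := c2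
        obtain ⟨K, I, Q, a, p, d, j, q, e, hT1, hT2, hK, hI, hQ, hpj⟩ :=
          Slicing.exists_KIQ hX'.1.1 hEh f
        have hI0 : ¬ IsZero I := by
          intro h0
          apply hf
          rw [← hpj, h0.eq_of_tgt p 0, zero_comp]
        have hK0 : IsZero K := by
          rcases (hATM h σ t δ n α hF i k X' hX').2 K I a p d hT1 hK hI with h1 | h1
          · exact h1
          · exfalso
            apply hf
            rw [← hpj, hEtf.2.2 I h1 j, comp_zero]
        have hcI : cls I = α i + k • δ := by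
          have h1 := cls_mk hT1
          rw [hX'.2, cls_of_isZero hK0, zero_add] at h1
          exact h1.symm
        have hIS := hIs i k I E Q j q e hT2 hEtf hI hQ hI0 hcI
        have h2 := cls_mk hT2
        have h3 := hIim i k I hIS
        refine Gen.ext hT2 (Gen.of (Or.inl ⟨i, k, hIS⟩)) (hM Q hQ ?_)
        rw [h2, map_add] at hEM
        linarith
      · refine Gen.of (Or.inr (Or.inr ?_))
        have z1 : ∀ (i : Fin n) (k : ℤ) (X' : C), IsS σ t δ α i k X' → ∀ f : E ⟶ X', f = 0 := by
          intro i k X' hX' f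
          by_contra hf
          exact c1 ⟨i, k, X', f, hX', hf⟩
        have z2 : ∀ (i : Fin n) (k : ℤ) (X' : C), IsS σ t δ α i k X' → ∀ f : X' ⟶ E, f = 0 := by
          intro i k X' hX' f
          by_contra hf
          exact c2 ⟨i, k, X', f, hX', hf⟩
        have hchi : ∀ (i : Fin n) (k : ℤ) (X' : C), IsS σ t δ α i k X' →
            eulerForm h.k3 (α i) (cls E) =
              -(Module.finrank ℂ (X' ⟶ E⟦(1 : ℤ)⟧) : ℤ) := by
          intro i k X' hX'
          have h1 := Slicing.Heart.eulerChar h.k3 hX'.1.1 hEh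
          rw [finrank_of_forall_zero (z1 i k X' hX'), finrank_of_forall_zero (z2 i k X' hX'),
            ← eulerForm_cls h.k3, hX'.2, hδ] at h1
          rw [h1]
          simp
        have hneg : ∀ i, eulerForm h.k3 (α i) (cls E) ≤ 0 := by
          intro i
          obtain ⟨X', hX', -⟩ := hEXI h σ t δ n α hF i 0
          rw [hchi i 0 X' hX']
          have h1 : (0 : ℤ) ≤ (Module.finrank ℂ (X' ⟶ E⟦(1 : ℤ)⟧) : ℤ) := Int.natCast_nonneg _
          linarith
        obtain ⟨k0, c, hc⟩ := hHCL h σ t δ n α hF E hEh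
        have hself : eulerForm h.k3 (cls E) (cls E) ≤ 0 := by
          have h1 : eulerForm h.k3 (cls E) (cls E) =
              ∑ i, (c i : ℤ) * eulerForm h.k3 (α i) (cls E) := by
            have h2 : eulerForm h.k3 (cls E) (k0 • δ + ∑ i, (c i : ℤ) • α i) =
                ∑ i, (c i : ℤ) * eulerForm h.k3 (α i) (cls E) := by
              have h3 : eulerForm h.k3 (cls E) δ = 0 := by
                rw [hB.symm]
                exact hF.rad (cls E)
              rw [map_add, map_zsmul, h3, smul_zero, zero_add, map_sum]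
              refine Finset.sum_congr rfl fun i _ => ?_
              rw [map_zsmul, hB.symm, smul_eq_mul]
            rw [← hc] at h2
            exact h2
          rw [h1]
          refine Finset.sum_nonpos fun i _ => ?_
          exact mul_nonpos_of_nonneg_of_nonpos (Int.natCast_nonneg _) (hneg i)
        have hrad : cls E ∈ radical (eulerForm h.k3) :=
          hB.mem_radical_of_self (le_antisymm hself (hB.nonneg _))
        intro i k X' hX' m f
        have hz : Module.finrank ℂ (X' ⟶ E⟦m⟧) = 0 := by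
          by_cases hm : m < 0 ∨ 2 < m
          · exact Slicing.Heart.finrank_zero h.k3 hX'.1.1 hEh hm
          · have hm' : m = 0 ∨ m = 1 ∨ m = 2 := by omega
            rcases hm' with rfl | rfl | rfl
            · rw [finrank_shift_zero]
              exact finrank_of_forall_zero (z2 i k X' hX')
            · have h1 := hchi i k X' hX'
              have h2 : eulerForm h.k3 (α i) (cls E) = 0 := by
                rw [hB.symm]
                exact hrad (α i)
              rw [h2] at h1
              omega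
            · rw [← h.k3.serre E X']
              exact finrank_of_forall_zero (z1 i k X' hX')
        exact forall_zero_of_finrank h.k3 hz f
  -- induction
  have hmain : ∀ N : ℕ, ∀ X, σ.sl.Heart t X → σ.im t (cls X) < N * ε → Gen G X := by
    intro N
    induction N with
    | zero =>
      intro X hX h1
      exfalso
      have h2 := σ.im_nonneg hX
      simp at h1
      linarith
    | succ N ih =>
      intro X hX h1
      obtain ⟨T, Y, f, g, d, hT, hTP, l, hl, hlI⟩ := hX.exists_torsion
      have h2 := GN1_hn (σ := σ) (t := t) (M := N * ε + ε) (G := G) (hstab (N * ε) ih) hl hlI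
      refine Gen.ext hT (htors T hTP) (h2.2 ?_)
      have h3 := cls_mk hT
      rw [h3, map_add, σ.im_of_P hTP, zero_add] at h1
      push_cast at h1
      linarith
  intro X hX
  obtain ⟨N, hN⟩ := exists_nat_gt (σ.im t (cls X) / ε)
  exact hmain N X hX ((div_lt_iff₀ hε).1 hN)

end Pool.Tube
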