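import Pool.Agent.Work.MP_841263_tu.Interface

open CategoryTheory CategoryTheory.Limits CategoryTheory.Pretriangulated
open scoped ZeroObject

set_option backward.isDefEq.respectTransparency false
set_option backward.defeqAttrib.useBackward true
set_option linter.unusedSectionVars false

namespace Pool.Tube

open Pool.Stab

universe v u

lemma GNA_basis {E : Type*} [AddCommGroup E] [Module ℂ E] (h : Module.finrank ℂ E = 2) :
    ∃ f g : E, ∀ a b : ℂ, a • f + b • g = 0 → a = 0 ∧ b = 0 := by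
  have hfin : Module.Finite ℂ E := Module.finite_of_finrank_pos (by omega)
  let b := Module.finBasisOfFinrankEq ℂ E h
  refine ⟨b 0, b 1, ?_⟩
  intro x y hxy
  have h1 := Fintype.linearIndependent_iff.1 b.linearIndependent ![x, y] (by
    simpa [Fin.sum_univ_two] using hxy)
  exact ⟨by simpa using h1 0, by simpa using h1 1⟩

variable {C : Type u} [Category.{v} C] [Preadditive C] [HasZeroObject C] [HasShift C ℤ]
  [∀ n : ℤ, (shiftFunctor C n).Additive] [Pretriangulated C]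

lemma GNA_two {G : C → Prop} (hG : ∀ X (n : ℤ), G X → G (X⟦n⟧)) {A B Z : C} {u : A ⟶ B ⊞ B}
    {p : B ⊞ B ⟶ Z} {q : Z ⟶ A⟦(1 : ℤ)⟧} (hT : Triangle.mk u p q ∈ distTriang C)
    (hA : Gen G A) (hB : Gen G B) : Gen G Z :=
  Gen.ext (rot_mk hT) (Gen.ext (binaryBiproductTriangle_distinguished B B) hB hB)
    (hA.shift hG 1)

lemma GNA_two' {G : C → Prop} (hG : ∀ X (n : ℤ), G X → G (X⟦n⟧)) {A B Z : C} {w : Z ⟶ A ⊞ A}
    {p : A ⊞ A ⟶ B} {q : B ⟶ Z⟦(1 : ℤ)⟧} (hT : Triangle.mk w p q ∈ distTriang C)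
    (hA : Gen G A) (hB : Gen G B) : Gen G Z := by
  obtain ⟨a, c, hT'⟩ := exists_invrot hT
  exact Gen.ext hT' (hB.shift hG (-1))
    (Gen.ext (binaryBiproductTriangle_distinguished A A) hA hA)

theorem p_GNA {C : Type u} [Category.{v} C] [Preadditive C] [HasZeroObject C] [HasShift C ℤ]
    [∀ n : ℤ, (shiftFunctor C n).Additive] [Pretriangulated C] [IsTriangulated C] [Linear ℂ C]
    [∀ n : ℤ, (shiftFunctor C n).Linear ℂ] (hGNH : Stmt_GNH C) (hPTL : Stmt_PTL C)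
    (hEXI : Stmt_EXI C) (hUNI : Stmt_UNI C) (hTWO : Stmt_TWO C) (hEUL : Stmt_EUL C)
    (hEUD : Stmt_EUD C) (hPEN : Stmt_PEN C) : Stmt_GNA C := by
  intro h σ t δ n α fr X
  set G : C → Prop := fun Y => ∃ (i : Fin n) (m : ℤ) (Z : C),
    (IsS σ t δ α i 0 Z ∨ IsS σ t δ α i 1 Z) ∧ Nonempty (Y ≅ Z⟦m⟧) with hGdef
  have hG : ∀ X (n : ℤ), G X → G (X⟦n⟧) := by
    rintro Y s ⟨i, m, Z, hZ, ⟨e⟩⟩
    exact ⟨i, m + s, Z, hZ, ⟨(shiftFunctor C s).mapIso e ≪≫ ((shiftFunctorAdd C m s).app Z).symm⟩⟩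
  -- the objects of the components
  have hS : ∀ (i : Fin n) (k : ℤ), (∀ X, IsS σ t δ α i k X → Gen G X) ∧
      (∀ X, IsS σ t δ α i (k + 1) X → Gen G X) := by
    intro i k
    induction k using Int.induction_on with
    | zero =>
      refine ⟨fun X hX => Gen.of ⟨i, 0, X, Or.inl hX, ⟨((shiftFunctorZero C ℤ).app X).symm⟩⟩,
        fun X hX => Gen.of ⟨i, 0, X, Or.inr ?_, ⟨((shiftFunctorZero C ℤ).app X).symm⟩⟩⟩
      simpa using hX
    | succ k ih =>
      refine ⟨ih.2, ?_⟩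
      intro X hX
      obtain ⟨A, hA, -⟩ := hEXI h σ t δ n α fr i k
      obtain ⟨B, hB, -⟩ := hEXI h σ t δ n α fr i (k + 1)
      obtain ⟨f, g, hfg⟩ := GNA_basis (hTWO h σ t δ n α fr i k A B hA hB).1
      obtain ⟨Z, p, q, hZ, hT⟩ := hEUL h σ t δ n α fr i k A B hA hB f g hfg
      have hX' : IsS σ t δ α i ((k : ℤ) + 2) X := by
        have : (k : ℤ) + 2 = k + 1 + 1 := by ring
        rw [this]; exact hX
      obtain ⟨e⟩ := hUNI h σ t δ n α fr i _ Z X hZ hX'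
      exact (GNA_two hG hT (ih.1 A hA) (ih.2 B hB)).iso e
    | pred k ih =>
      refine ⟨?_, fun X hX => ih.1 X (by simpa using hX)⟩
      intro X hX
      obtain ⟨A, hA, -⟩ := hEXI h σ t δ n α fr i (-(k : ℤ))
      obtain ⟨B, hB, -⟩ := hEXI h σ t δ n α fr i (-(k : ℤ) + 1)
      obtain ⟨f, g, hfg⟩ := GNA_basis (hTWO h σ t δ n α fr i _ A B hA hB).1
      obtain ⟨Z, w, q, hZ, hT⟩ := hEUD h σ t δ n α fr i _ A B hA hB f g hfg
      obtain ⟨e⟩ := hUNI h σ t δ n α fr i _ Z X hZ hX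
      exact (GNA_two' hG hT (ih.1 A hA) (ih.2 B hB)).iso e
  -- points
  have hP : ∀ Q, σ.Stable (t + 1) Q → Gen G Q := by
    intro Q hQ
    obtain ⟨-, i, hi⟩ := hPTL h σ t δ n α fr Q hQ
    obtain ⟨W, hW, -⟩ := hEXI h σ t δ n α fr i 0
    obtain ⟨Y, hY, -⟩ := hEXI h σ t δ n α fr i (0 + 1)
    obtain ⟨f, p, q, -, hT⟩ := hPEN h σ t δ n α fr i 0 W Y Q hW hY hQ (hi _ Y hY)
    exact Gen.ext (rot_mk hT) ((hS i 0).2 Y hY) (((hS i 0).1 W hW).shift hG 1)
  -- the heart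
  have hH : ∀ X, σ.sl.Heart t X → Gen G X := by
    intro X hX
    refine Gen.trans ((hGNH h σ t δ n α fr X hX).mono ?_)
    rintro Y (⟨i, k, hY⟩ | hY)
    · exact (hS i k).1 Y hY
    · exact hP Y hY
  -- all objects
  obtain ⟨l, hl⟩ := σ.sl.exists_HN X
  induction hl with
  | zero h => exact Gen.zero h
  | @step X Y A φ l hX hφ hA hA0 f g k hT ih =>
    refine Gen.ext hT ih ?_
    obtain ⟨m, hm⟩ := σ.sl.exists_shift_heart t φ hA
    exact ((hH _ hm).shift hG (-m)).iso ((shiftFunctorCompIsoId C m (-m) (by ring)).app A)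

end Pool.Tube
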