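import Mathlib
import Pool.Agent.Work.MP_841263_tu.Interface

/-! GNH: generation of the heart (uses GN1, ORT). -/

open CategoryTheory CategoryTheory.Limits CategoryTheory.Pretriangulated
open scoped ZeroObject

namespace Pool.Tube

open Pool.Stab

universe v u

theorem p_GNH {C : Type u} [Category.{v} C] [Preadditive C] [HasZeroObject C] [HasShift C ℤ]
    [∀ n : ℤ, (shiftFunctor C n).Additive] [Pretriangulated C] [IsTriangulated C] [Linear ℂ C]
    [∀ n : ℤ, (shiftFunctor C n).Linear ℂ] (hGN1 : Stmt_GN1 C) (hORT : Stmt_ORT C) :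
    Stmt_GNH C := by
  intro h σ t δ n α hF X hX
  refine Gen.trans ((hGN1 h σ t δ n α hF X hX).mono ?_)
  rintro Y (hY | hY | hY)
  · exact Gen.of (Or.inl hY)
  · exact Gen.of (Or.inr hY)
  · exact Gen.zero (hORT h σ t δ n α hF Y hY)

end Pool.Tube
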