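import Pool.Agent.Work.MP_841263_tu.Interface

/-! # Tube structure theorem, block HCL: classes of objects of the heart -/

open CategoryTheory CategoryTheory.Limits CategoryTheory.Pretriangulated
open scoped ZeroObject

namespace Pool.Tube

open Pool.Stab

universe v u

/-- The classes with nonnegative coordinates. -/
def HCL_pc {K : Type*} [AddCommGroup K] (δ : K) {n : ℕ} (α : Fin n → K) (x : K) : Prop :=
  ∃ (k : ℤ) (c : Fin n → ℕ), x = k • δ + ∑ i, (c i : ℤ) • α i

lemma HCL_zero {K : Type*} [AddCommGroup K] (δ : K) {n : ℕ} (α : Fin n → K) :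
    HCL_pc δ α 0 := ⟨0, 0, by simp⟩

lemma HCL_add {K : Type*} [AddCommGroup K] {δ : K} {n : ℕ} {α : Fin n → K} {x y : K}
    (hx : HCL_pc δ α x) (hy : HCL_pc δ α y) : HCL_pc δ α (x + y) := by
  obtain ⟨k, c, rfl⟩ := hx
  obtain ⟨l, d, rfl⟩ := hy
  refine ⟨k + l, fun i => c i + d i, ?_⟩
  have e1 : ∑ i, ((c i + d i : ℕ) : ℤ) • α i = ∑ i, (c i : ℤ) • α i + ∑ i, (d i : ℤ) • α i := by
    rw [← Finset.sum_add_distrib]
    refine Finset.sum_congr rfl fun i _ => ?_
    rw [Nat.cast_add, add_smul]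
  rw [e1, add_smul]
  abel

/-- HCL. -/
theorem p_HCL {C : Type u} [Category.{v} C] [Preadditive C] [HasZeroObject C] [HasShift C ℤ]
    [∀ n : ℤ, (shiftFunctor C n).Additive] [Pretriangulated C] [IsTriangulated C] [Linear ℂ C]
    [∀ n : ℤ, (shiftFunctor C n).Linear ℂ] (hPTP : Stmt_PTP C) : Stmt_HCL C := by
  intro h σ t δ n α hF X hX
  have hfin := h.finite
  have hfree := h.free
  -- semistable objects of phase in `(t, t + 1]`
  have hsemi : ∀ φ ∈ Set.Ioc t (t + 1), ∀ A, σ.sl.P φ A → HCL_pc δ α (cls A) := by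
    intro φ hφ A hA
    rcases hφ.2.eq_or_lt with h1 | h1
    · rw [h1] at hA
      obtain ⟨m, hm, -⟩ := hPTP h σ t δ hF.toTubeHyp A hA
      exact ⟨m, 0, by rw [hm]; simp⟩
    · have hg := σ.gen_stable hA
      clear hA
      induction hg with
      | zero h0 => rw [cls_of_isZero h0]; exact HCL_zero δ α
      | @of A hA =>
        refine hF.nonneg _ ?_ (σ.im_pos_of_P hA.1 hA.2.1 hφ.1 h1)
        rw [eulerForm_cls]
        have hA' : σ.Stable ((φ - 1) + 1) A := by
          rw [sub_add_cancel]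
          exact hA
        exact hA'.simple.eulerChar_self_le h.k3
      | ext hT _ _ ih1 ih2 => rw [cls_mk hT]; exact HCL_add ih1 ih2
  obtain ⟨l, hl, hI⟩ := hX
  show HCL_pc δ α (cls X)
  induction hl with
  | zero h0 => rw [cls_of_isZero h0]; exact HCL_zero δ α
  | @step X Y A φ l hX hφ hA hA0 f g k hT ih =>
    rw [cls_mk hT]
    exact HCL_add (ih (fun ψ hψ => hI ψ (by simp [hψ]))) (hsemi φ (hI φ (by simp)) A hA)

end Pool.Tube
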