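import Mathlib
import Pool.Agent.Work.MP_841263_tu.Interface

/-!
# Tube structure theorem: block HN2
-/

open CategoryTheory CategoryTheory.Limits CategoryTheory.Pretriangulated
open scoped ZeroObject

namespace Pool.Tube

open Pool.Stab

universe v u

section

variable {C : Type u} [Category.{v} C] [Preadditive C] [HasZeroObject C] [HasShift C ℤ]
  [∀ n : ℤ, (shiftFunctor C n).Additive] [Pretriangulated C] [IsTriangulated C] [Linear ℂ C]
  [∀ n : ℤ, (shiftFunctor C n).Linear ℂ]

/-- A torsion free object has positive imaginary part. -/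
lemma HN2_im_pos {σ : StabCond C} {t : ℝ} {X : C} (hX : σ.TF t X) : 0 < σ.im t (cls X) := by
  have h1 := σ.im_nonneg hX.1
  rcases h1.lt_or_eq with h | h
  · exact h
  · exfalso
    have hP := σ.P_of_im hX.1 h.symm
    exact hX.2.1 ((IsZero.iff_id_eq_zero X).2 (hX.2.2 X hP (𝟙 X)))

/-- Uniqueness of coordinates. -/
lemma HN2_coord {h : EllipticSetting C} {σ : StabCond C} {t : ℝ} {δ : K0 C} {n : ℕ}
    {α : Fin n → K0 C} (hF : Frame h σ t δ α) {k l : ℤ} {c d : Fin n → ℤ}
    (he : k • δ + ∑ i, c i • α i = l • δ + ∑ i, d i • α i) : k = l ∧ ∀ i, c i = d i := by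
  have h0 : (k - l) • δ + ∑ i, (c i - d i) • α i = 0 := by
    simp only [sub_smul, Finset.sum_sub_distrib]
    have : k • δ - l • δ + (∑ i, c i • α i - ∑ i, d i • α i) =
      (k • δ + ∑ i, c i • α i) - (l • δ + ∑ i, d i • α i) := by abel
    rw [this, he, sub_self]
  obtain ⟨h1, h2⟩ := hF.indep (k - l) (fun i => c i - d i) h0
  exact ⟨by omega, fun i => by have h3 : c i - d i = 0 := h2 i; omega⟩

lemma HN2_single {n : ℕ} (α : Fin n → K0 C) (i : Fin n) (a : ℤ) :
    ∑ j, (if j = i then a else 0) • α j = a • α i := by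
  rw [Finset.sum_eq_single i]
  · simp
  · intro j _ hj
    simp [hj]
  · intro hi
    exact absurd (Finset.mem_univ i) hi

/-- The classes of the two parts. -/
lemma HN2_split (hHCL : Stmt_HCL C) {h : EllipticSetting C} {σ : StabCond C} {t : ℝ}
    {δ : K0 C} {n : ℕ} {α : Fin n → K0 C} (hF : Frame h σ t δ α) {i : Fin n} {k : ℤ}
    {X Y : C} (hX : σ.TF t X) (hY : σ.TF t Y)
    (he : cls X + cls Y = (2 : ℤ) • α i + (2 * k - 1) • δ) :
    ∃ a b : ℤ, cls X = α i + a • δ ∧ cls Y = α i + b • δ ∧ a + b = 2 * k - 1 := by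
  obtain ⟨a, c, hc⟩ := hHCL h σ t δ n α hF X hX.1
  obtain ⟨b, d, hd⟩ := hHCL h σ t δ n α hF Y hY.1
  have hsum : (a + b) • δ + ∑ j, ((c j : ℤ) + (d j : ℤ)) • α j =
      (2 * k - 1) • δ + ∑ j, (if j = i then (2 : ℤ) else 0) • α j := by
    rw [HN2_single α i 2]
    simp only [add_smul, Finset.sum_add_distrib]
    have h1 : a • δ + b • δ + (∑ j, (c j : ℤ) • α j + ∑ j, (d j : ℤ) • α j) =
      cls X + cls Y := by rw [hc, hd]; abel
    rw [h1, he]
    abel
  obtain ⟨hab, hcd⟩ := HN2_coord hF hsum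
  have him : ∀ m : ℤ, σ.im t (m • δ) = 0 := by
    intro m
    rw [map_zsmul, hF.im0, smul_zero]
  have hc0 : c i ≠ 0 := by
    intro h0
    have hall : ∀ j, c j = 0 := by
      intro j
      by_cases hj : j = i
      · rw [hj, h0]
      · have := hcd j
        rw [if_neg hj] at this
        omega
    have h1 := HN2_im_pos hX
    rw [hc, map_add, him] at h1
    simp [hall] at h1
  have hd0 : d i ≠ 0 := by
    intro h0
    have hall : ∀ j, d j = 0 := by
      intro j
      by_cases hj : j = i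
      · rw [hj, h0]
      · have := hcd j
        rw [if_neg hj] at this
        omega
    have h1 := HN2_im_pos hY
    rw [hd, map_add, him] at h1
    simp [hall] at h1
  have hci : ∀ j, (c j : ℤ) = if j = i then 1 else 0 := by
    intro j
    have := hcd j
    by_cases hj : j = i
    · subst hj
      rw [if_pos rfl] at this ⊢
      omega
    · rw [if_neg hj] at this ⊢
      omega
  have hdi : ∀ j, (d j : ℤ) = if j = i then 1 else 0 := by
    intro j
    have := hcd j
    by_cases hj : j = i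
    · subst hj
      rw [if_pos rfl] at this ⊢
      omega
    · rw [if_neg hj] at this ⊢
      omega
  refine ⟨a, b, ?_, ?_, hab⟩
  · rw [hc]
    simp only [hci]
    rw [HN2_single α i 1, one_smul, add_comm]
  · rw [hd]
    simp only [hdi]
    rw [HN2_single α i 1, one_smul, add_comm]

/-- Euler characteristic of two classes in the same family. -/
lemma HN2_chi {h : EllipticSetting C} {σ : StabCond C} {t : ℝ}
    {δ : K0 C} {n : ℕ} {α : Fin n → K0 C} (hF : Frame h σ t δ α) {i : Fin n} {a b r s : ℤ}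
    {X Y : C} (hX : cls X = r • α i + a • δ) (hY : cls Y = s • α i + b • δ) :
    eulerChar X Y = r * s * 2 := by
  have hr : ∀ x, eulerForm h.k3 δ x = 0 := fun x => hF.rad x
  have hr' : ∀ x, eulerForm h.k3 x δ = 0 := fun x => by
    rw [eulerForm_symm]; exact hr x
  rw [← eulerForm_cls h.k3, hX, hY]
  simp only [map_add, map_zsmul, AddMonoidHom.add_apply, AddMonoidHom.zsmul_apply,
    AddMonoidHom.smul_apply, hr, hr', hF.norm, smul_zero, add_zero, zero_add, smul_eq_mul]
  ring

/-- A nonzero morphism in one of the two directions. -/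
lemma HN2_hom {h : EllipticSetting C} {S : Slicing C} {t : ℝ} {X Y : C}
    (hX : S.Heart t X) (hY : S.Heart t Y) (hc : 0 < eulerChar X Y) :
    (∃ f : X ⟶ Y, f ≠ 0) ∨ (∃ f : Y ⟶ X, f ≠ 0) := by
  by_contra hcon
  push Not at hcon
  rw [hX.eulerChar h.k3 hY, finrank_of_forall_zero hcon.1, finrank_of_forall_zero hcon.2] at hc
  have : (0 : ℤ) ≤ (Module.finrank ℂ (X ⟶ Y⟦(1 : ℤ)⟧) : ℤ) := by positivity
  push_cast at hc
  linarith

end

theorem p_HN2 {C : Type u} [Category.{v} C] [Preadditive C] [HasZeroObject C] [HasShift C ℤ]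
    [∀ n : ℤ, (shiftFunctor C n).Additive] [Pretriangulated C] [IsTriangulated C] [Linear ℂ C]
    [∀ n : ℤ, (shiftFunctor C n).Linear ℂ] (hHCL : Stmt_HCL C) (hMOR : Stmt_MOR C)
    (_hEXI : Stmt_EXI C) (hSPH : Stmt_SPH C) : Stmt_HN2 C := by
  intro h σ t δ n α hF i k K hK hcls
  obtain ⟨l, hl, hI⟩ := hK.in
  cases hl with
  | zero h0 => exact absurd h0 hK.2.1
  | @step K' _ A φ l hK' hφ hA hA0 f g w hT =>
    have hφI : φ ∈ Set.Ioo t (t + 1) := hI φ (by simp)
    have hK'I : σ.sl.In (Set.Ioo t (t + 1)) K' := ⟨l, hK', fun ψ hψ => hI ψ (by simp [hψ])⟩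
    have hAI : σ.sl.In (Set.Ioo t (t + 1)) A := Slicing.in_of_P hA hφI
    have hATF : σ.TF t A := σ.tf_of_in hAI hA0
    by_cases hz : IsZero K'
    · -- case (b)
      have hiso : IsIso g := iso_of_isZero₁ hT hz
      have hKP : σ.sl.P φ K := σ.sl.iso_mem φ (asIso g).symm hA
      have hns : ¬ SimpleIn (σ.sl.P φ) K := by
        intro hs
        have hs' : σ.Stable ((φ - 1) + 1) K := by
          rw [sub_add_cancel]; exact hs
        have h1 := hs'.simple.eulerChar_self_le h.k3
        rw [HN2_chi hF hcls hcls] at h1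
        norm_num at h1
      obtain ⟨Y, Z, a, b, c, hT', hY, hZ, hYZ⟩ : ∃ (Y Z : C) (f : Y ⟶ K) (g : K ⟶ Z)
          (h : Z ⟶ Y⟦(1 : ℤ)⟧), Triangle.mk f g h ∈ distTriang C ∧ σ.sl.P φ Y ∧ σ.sl.P φ Z ∧
          ¬ (IsZero Y ∨ IsZero Z) := by
        by_contra hcon
        push Not at hcon
        refine hns ⟨hKP, hK.2.1, ?_⟩
        intro Y Z f g h hT hY hZ
        by_contra hYZ
        push Not at hYZ
        exact absurd (hcon Y Z f g h hT hY hZ) (by tauto)
      push Not at hYZ
      have hYI : σ.TF t Y := σ.tf_of_in (Slicing.in_of_P hY hφI) hYZ.1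
      have hZI : σ.TF t Z := σ.tf_of_in (Slicing.in_of_P hZ hφI) hYZ.2
      have hsum := cls_mk hT'
      rw [hcls] at hsum
      obtain ⟨p, q, hp, hq, hpq⟩ := HN2_split hHCL hF hYI hZI hsum.symm
      have hst : ∀ (X : C) (m : ℤ), IsS σ t δ α i m X → σ.sl.P φ X → ¬ IsZero X →
          SimpleIn (σ.sl.Heart (φ - 1)) X := by
        intro X m hX hXP hX0
        obtain ⟨-, ψ, h1, h2, h3⟩ := hSPH h σ t δ n α hF i m X hX
        have h4 : φ = ψ := σ.phase_unique hXP h3.1 hX0 hX0 rfl t ⟨hφI.1.le, hφI.2.le⟩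
          ⟨h1.le, h2.le⟩
        have hs' : σ.Stable ((φ - 1) + 1) X := by
          rw [sub_add_cancel, h4]; exact h3
        exact hs'.simple
      have hYs := hst Y p ⟨hYI, hp⟩ hY hYZ.1
      have hZs := hst Z q ⟨hZI, hq⟩ hZ hYZ.2
      have hchi : 0 < eulerChar Y Z := by
        rw [HN2_chi hF (r := 1) (s := 1) (a := p) (b := q) (i := i) (by rw [one_smul]; exact hp)
          (by rw [one_smul]; exact hq)]
        norm_num
      have hne : cls Y ≠ cls Z := by
        intro heq
        have h1 : p • δ + ∑ j, (if j = i then (1 : ℤ) else 0) • α j =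
            q • δ + ∑ j, (if j = i then (1 : ℤ) else 0) • α j := by
          rw [HN2_single, one_smul, add_comm, ← hp, heq, hq, add_comm]
        have h2 := (HN2_coord hF h1).1
        omega
      rcases HN2_hom (h := h) hYs.1 hZs.1 hchi with ⟨u, hu⟩ | ⟨u, hu⟩
      · exact absurd (hYs.hom_zero hZs hne u) hu
      · exact absurd (hZs.hom_zero hYs hne.symm u) hu
    · -- case (a)
      have hK'TF : σ.TF t K' := σ.tf_of_in hK'I hz
      have hsum := cls_mk hT
      rw [hcls] at hsum
      obtain ⟨p, q, hp, hq, hpq⟩ := HN2_split hHCL hF hK'TF hATF hsum.symm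
      have hchi : 0 < eulerChar K' A := by
        rw [HN2_chi hF (r := 1) (s := 1) (a := p) (b := q) (i := i) (by rw [one_smul]; exact hp)
          (by rw [one_smul]; exact hq)]
        norm_num
      have hqp : q ≤ p := by
        rcases HN2_hom (h := h) hK'TF.1 hATF.1 hchi with ⟨u, hu⟩ | ⟨u, hu⟩
        · exfalso
          refine hu (Slicing.hom_zero' hK' (Slicing.hn_single hA hA0) ?_ u)
          intro ψ hψ χ hχ
          simp only [List.mem_singleton] at hχ
          rw [hχ]
          exact hφ ψ hψ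
        · obtain ⟨-, m, -, -, -, h1, -⟩ := hMOR h σ t δ n α hF i i q p A K' ⟨hATF, hq⟩
            ⟨hK'TF, hp⟩ u hu
          omega
      refine ⟨p, K', f, by omega, ⟨hK'TF, hp⟩, ?_⟩
      intro hf
      exact hz (isZero₁_of_mor₁ hT hf (fun r => σ.hom_shift_zero hK'TF.1 hATF.1 r))

end Pool.Tube
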