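import Mathlib
import Pool.Agent.Work.MP_841263_tu.Interface

/-!
# Block IND: simple roots are linearly independent modulo the isotropic class
-/

open CategoryTheory CategoryTheory.Limits CategoryTheory.Pretriangulated
open scoped ZeroObject

namespace Pool.Tube

open Pool.Stab

universe v u

section Lattice

variable {K : Type u} [AddCommGroup K] {B : K →+ K →+ ℤ} {im : K →+ ℝ} {δ : K}

/-- The form is additive in the first variable, for integral combinations. -/
lemma IND_left {n : ℕ} (α : Fin n → K) (c : Fin n → ℤ) (x : K) :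
    B (∑ i, c i • α i) x = ∑ i, c i * B (α i) x := by
  rw [map_sum, AddMonoidHom.finsetSum_apply]
  refine Finset.sum_congr rfl fun i _ => ?_
  rw [map_zsmul, AddMonoidHom.coe_smul, Pi.smul_apply, smul_eq_mul]

/-- The form is additive in the second variable, for integral combinations. -/
lemma IND_right {n : ℕ} (α : Fin n → K) (c : Fin n → ℤ) (x : K) :
    B x (∑ i, c i • α i) = ∑ i, c i * B x (α i) := by
  rw [map_sum]
  refine Finset.sum_congr rfl fun i _ => ?_
  rw [map_zsmul, smul_eq_mul]

/-- The case of coefficients of one sign. -/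
lemma IND_zero [Module.Free ℤ K] (h : LatHyp B im δ) {n : ℕ} (α : Fin n → K)
    (hα : ∀ i, IsSimpleRoot B im (α i)) (k : ℤ) (c : Fin n → ℤ) (hc : ∀ i, 0 ≤ c i)
    (hrel : k • δ + ∑ i, c i • α i = 0) : k = 0 ∧ ∀ i, c i = 0 := by
  have him : ∑ i, (c i : ℝ) * im (α i) = 0 := by
    have h1 := congrArg im hrel
    rw [map_add, map_zsmul, h.im0, smul_zero, zero_add, map_sum, map_zero] at h1
    rw [← h1]
    refine Finset.sum_congr rfl fun i _ => ?_
    rw [map_zsmul, zsmul_eq_mul]
  have hnn : ∀ i ∈ (Finset.univ : Finset (Fin n)), 0 ≤ (c i : ℝ) * im (α i) := fun i _ =>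
    mul_nonneg (by exact_mod_cast hc i) (hα i).2.1.le
  have hz := (Finset.sum_eq_zero_iff_of_nonneg hnn).1 him
  have hc0 : ∀ i, c i = 0 := by
    intro i
    have h2 := hz i (Finset.mem_univ i)
    rcases mul_eq_zero.1 h2 with h3 | h3
    · exact_mod_cast h3
    · exact absurd h3 (hα i).2.1.ne'
  refine ⟨?_, hc0⟩
  have h4 : k • δ = 0 := by
    simpa [hc0] using hrel
  have : Module.IsTorsionFree ℤ K := inferInstance
  rcases smul_eq_zero.1 h4 with h5 | h5
  · exact h5
  · exact absurd h5 h.ne

end Lattice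

theorem p_IND (hDEC : Stmt_DEC.{u}) (hOFF : Stmt_OFF.{u}) : Stmt_IND.{u} := by
  intro K _ _ _ B im δ h n α hα hne k c hrel
  by_cases hI : ∃ i, 0 < c i
  swap
  · -- all coefficients are nonpositive
    have hneg : ∀ i, 0 ≤ (fun i => - c i) i := fun i => by
      have : ¬ 0 < c i := fun hh => hI ⟨i, hh⟩
      show 0 ≤ - c i
      omega
    have hrel' : (-k) • δ + ∑ i, (fun i => - c i) i • α i = 0 := by
      have : (-k) • δ + ∑ i, (- c i) • α i = -(k • δ + ∑ i, c i • α i) := by
        simp only [neg_smul, Finset.sum_neg_distrib]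
        abel
      show (-k) • δ + ∑ i, (- c i) • α i = 0
      rw [this, hrel, neg_zero]
    obtain ⟨h1, h2⟩ := IND_zero h α hα (-k) (fun i => - c i) hneg hrel'
    exact ⟨by omega, fun i => by have := h2 i; simp only [neg_eq_zero] at this; exact this⟩
  by_cases hJ : ∃ j, c j < 0
  swap
  · exact IND_zero h α hα k c (fun i => not_lt.1 fun hh => hJ ⟨i, hh⟩) hrel
  exfalso
  obtain ⟨i0, hi0⟩ := hI
  obtain ⟨j0, hj0⟩ := hJ
  -- the positive and negative parts
  set cp : Fin n → ℤ := fun i => max (c i) 0 with hcp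
  set cm : Fin n → ℤ := fun i => max (- c i) 0 with hcm
  have hcpn : ∀ i, 0 ≤ cp i := fun i => le_max_right _ _
  have hcmn : ∀ i, 0 ≤ cm i := fun i => le_max_right _ _
  have hcc : ∀ i, c i = cp i - cm i := by
    intro i
    simp only [hcp, hcm]
    omega
  have hcz : ∀ i, cp i * cm i = 0 := by
    intro i
    rcases le_total (c i) 0 with h1 | h1
    · have : cp i = 0 := max_eq_right h1
      rw [this, zero_mul]
    · have : cm i = 0 := max_eq_right (by omega)
      rw [this, mul_zero]
  set v : K := ∑ i, cp i • α i with hv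
  set w : K := ∑ i, cm i • α i with hw
  have hvw : w = v + k • δ := by
    have h1 : ∑ i, c i • α i = v - w := by
      rw [hv, hw, ← Finset.sum_sub_distrib]
      refine Finset.sum_congr rfl fun i _ => ?_
      rw [hcc i, sub_smul]
    rw [h1] at hrel
    have h2 : w - (v + k • δ) = 0 := by
      rw [← neg_eq_zero]
      rw [← hrel]
      abel
    exact sub_eq_zero.1 h2
  have hδ : ∀ x, B δ x = 0 := h.rad
  have hδ' : ∀ x, B x δ = 0 := fun x => by rw [h.psd.symm]; exact h.rad x
  have hoff : ∀ i j, i ≠ j → B (α i) (α j) ≤ 0 := fun i j hij =>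
    hOFF K B im δ h (α i) (α j) (hα i) (hα j) (hne i j hij)
  have hvv : B v v = B v w := by
    rw [hvw, map_add, map_zsmul, hδ', smul_zero, add_zero]
  have hvw0 : B v w ≤ 0 := by
    rw [hv, hw, IND_left]
    refine Finset.sum_nonpos fun i _ => ?_
    rw [IND_right, Finset.mul_sum]
    refine Finset.sum_nonpos fun j _ => ?_
    by_cases hij : i = j
    · subst hij
      rw [← mul_assoc, hcz, zero_mul]
    · rw [← mul_assoc]
      exact mul_nonpos_of_nonneg_of_nonpos (mul_nonneg (hcpn i) (hcmn j)) (hoff i j hij)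
  have hvrad : v ∈ radical B := by
    refine h.psd.mem_radical_of_self ?_
    have := h.psd.nonneg v
    omega
  -- the two subgroups
  let S1 : Set K := {β | IsSimpleRoot B im β ∧ ∃ i, 0 < c i ∧ ∃ m : ℤ, β = α i + m • δ}
  let S2 : Set K := {β | IsSimpleRoot B im β ∧ ¬ ∃ i, 0 < c i ∧ ∃ m : ℤ, β = α i + m • δ}
  have horth : ∀ i, 0 < c i → ∀ β ∈ S2, B (α i) β = 0 := by
    intro i hi β hβ
    have h0 : B v β = 0 := hvrad β
    rw [hv, IND_left] at h0
    have hterm : ∀ j ∈ (Finset.univ : Finset (Fin n)), cp j * B (α j) β ≤ 0 := by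
      intro j _
      by_cases hj : 0 < c j
      · refine mul_nonpos_of_nonneg_of_nonpos (hcpn j) ?_
        refine hOFF K B im δ h (α j) β (hα j) hβ.1 ?_
        intro m hm
        refine hβ.2 ⟨j, hj, -m, ?_⟩
        rw [hm, neg_smul]
        abel
      · have : cp j = 0 := max_eq_right (by omega)
        rw [this, zero_mul]
    have h1 := (Finset.sum_eq_zero_iff_of_nonpos hterm).1 h0 i (Finset.mem_univ i)
    rcases mul_eq_zero.1 h1 with h2 | h2
    · exfalso
      have : cp i = c i := max_eq_left hi.le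
      omega
    · exact h2
  let P : AddSubgroup K := AddSubgroup.closure (insert δ S1)
  let Q : AddSubgroup K := AddSubgroup.closure (insert δ S2)
  have hPQ : P ⊔ Q = ⊤ := by
    rw [eq_top_iff, ← h.gen, AddSubgroup.closure_le]
    have hsimple : ∀ β, IsSimpleRoot B im β → β ∈ P ⊔ Q := by
      intro β hβ
      by_cases hc1 : ∃ i, 0 < c i ∧ ∃ m : ℤ, β = α i + m • δ
      · exact (le_sup_left : P ≤ P ⊔ Q)
          (AddSubgroup.subset_closure (Set.mem_insert_of_mem _ ⟨hβ, hc1⟩))
      · exact (le_sup_right : Q ≤ P ⊔ Q)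
          (AddSubgroup.subset_closure (Set.mem_insert_of_mem _ ⟨hβ, hc1⟩))
    have hle : AddSubmonoid.closure {β | IsSimpleRoot B im β} ≤ (P ⊔ Q).toAddSubmonoid := by
      rw [AddSubmonoid.closure_le]
      intro β hβ
      exact hsimple β hβ
    intro x hx
    have hx2 : B x x = 2 := hx
    rcases lt_or_gt_of_ne (h.imroot x hx2) with h1 | h1
    · have h2 : B (-x) (-x) ≤ 2 := by
        simp only [map_neg, AddMonoidHom.neg_apply, neg_neg]
        exact hx2.le
      have h3 : 0 < im (-x) := by rw [map_neg]; linarith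
      have h4 : -x ∈ P ⊔ Q := hle (hDEC K B im δ h (-x) h2 h3)
      have h5 := (P ⊔ Q).neg_mem h4
      rw [neg_neg] at h5
      exact h5
    · exact hle (hDEC K B im δ h x hx2.le h1)
  have hzero : ∀ x ∈ P, ∀ y ∈ Q, B x y = 0 := by
    intro x hx y hy
    have hQx : ∀ z ∈ insert δ S1, Q ≤ (B z).ker := by
      intro z hz
      rw [AddSubgroup.closure_le]
      intro y hy
      show B z y = 0
      rcases Set.mem_insert_iff.1 hy with rfl | hy
      · exact hδ' z
      rcases Set.mem_insert_iff.1 hz with rfl | hz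
      · exact hδ y
      obtain ⟨_, i, hi, m, rfl⟩ := hz
      rw [map_add, map_zsmul, AddMonoidHom.add_apply, AddMonoidHom.coe_smul, Pi.smul_apply, hδ,
        smul_zero, add_zero]
      exact horth i hi y hy
    have hPy : P ≤ (B.flip y).ker := by
      rw [AddSubgroup.closure_le]
      intro z hz
      show B z y = 0
      exact hQx z hz hy
    exact hPy hx
  rcases h.irred P Q hPQ hzero with h1 | h1
  · have h2 : α i0 ∈ P := AddSubgroup.subset_closure
      (Set.mem_insert_of_mem _ ⟨hα i0, i0, hi0, 0, by rw [zero_smul, add_zero]⟩)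
    have h3 : B (α i0) (α i0) = 0 := h1 _ h2 _
    have h4 := (hα i0).1
    omega
  · have h2 : α j0 ∈ Q := by
      refine AddSubgroup.subset_closure (Set.mem_insert_of_mem _ ⟨hα j0, ?_⟩)
      rintro ⟨i, hi, m, hm⟩
      have hij : j0 ≠ i := by
        rintro rfl
        omega
      exact hne j0 i hij m hm
    have h3 : B (α j0) (α j0) = 0 := h1 _ h2 _
    have h4 := (hα j0).1
    omega

end Pool.Tube
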