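import Mathlib
import Pool.Agent.Work.MP_841263_tu.Interface

/-! INJ: two morphisms with the same cone are proportional (uses SPH, PNT, ONE). -/

open CategoryTheory CategoryTheory.Limits CategoryTheory.Pretriangulated
open scoped ZeroObject

namespace Pool.Tube

open Pool.Stab

universe v u

theorem p_INJ {C : Type u} [Category.{v} C] [Preadditive C] [HasZeroObject C] [HasShift C ℤ]
    [∀ n : ℤ, (shiftFunctor C n).Additive] [Pretriangulated C] [IsTriangulated C] [Linear ℂ C]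
    [∀ n : ℤ, (shiftFunctor C n).Linear ℂ] (hSPH : Stmt_SPH C) (hPNT : Stmt_PNT C)
    (hONE : Stmt_ONE C) : Stmt_INJ C := by
  intro h σ t δ n α hF i k X Y Q hX hY f p q f' p' q' hf hT hT'
  have hQ := (hPNT h σ t δ n α hF i k X Y hX hY f Q p q hf hT).1
  have hQh : σ.sl.Heart t Q := Slicing.heart_of_P hQ.1 (by linarith) le_rfl
  have hr : ∀ r : X⟦(1 : ℤ)⟧ ⟶ Q, r = 0 := fun r => σ.hom_shift_zero hX.1.1 hQh r
  have hp : p ≠ 0 := fun h0 => hQ.2.1 (isZero₃_of_mor₂ hT h0 hr)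
  have hp' : p' ≠ 0 := fun h0 => hQ.2.1 (isZero₃_of_mor₂ hT' h0 hr)
  have h1 := (hONE h σ t δ n α hF i (k + 1) Y Q hY hQ ⟨p, hp⟩).1
  obtain ⟨c, hc⟩ := (finrank_eq_one_iff_of_nonzero' p' hp').1 h1 p
  have h2 : f' ≫ p' = 0 := comp_distTriang_mor_zero₁₂ _ hT'
  have h3 : f' ≫ p = 0 := by
    rw [← hc, Linear.comp_smul, h2, smul_zero]
  obtain ⟨u, hu⟩ : ∃ u : X ⟶ X, f' = u ≫ f := Triangle.coyoneda_exact₂ _ hT f' h3
  have h4 := (hSPH h σ t δ n α hF i k X hX).1.1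
  have h5 : (𝟙 X : X ⟶ X) ≠ 0 := by
    intro h0
    exact hX.1.2.1 (by rwa [IsZero.iff_id_eq_zero])
  obtain ⟨d, hd⟩ := (finrank_eq_one_iff_of_nonzero' (𝟙 X : X ⟶ X) h5).1 h4 u
  refine ⟨d, ?_⟩
  rw [hu, ← hd, Linear.smul_comp, Category.id_comp]

end Pool.Tube
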