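import Mathlib
import Pool.Agent.Work.MP_841263_tu.Interface

/-!
# Block LHY (helper84): the lattice hypotheses for a tube
-/

open CategoryTheory CategoryTheory.Limits CategoryTheory.Pretriangulated
open scoped ZeroObject

namespace Pool.Tube

open Pool.Stab

universe v u

/-- a class commensurable with a primitive class is a multiple of it -/
theorem LHY_mult {K : Type u} [AddCommGroup K] [Module.Free ℤ K] {δ r : K}
    (prim : ∀ (x : K) (n : ℤ), δ = n • x → n = 1 ∨ n = -1) {n m : ℤ} (hn : n ≠ 0)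
    (h : n • r = m • δ) : ∃ k : ℤ, r = k • δ := by
  have hg : (Int.gcd n m : ℤ) ≠ 0 := by
    intro h0
    have h1 : Int.gcd n m = 0 := by exact_mod_cast h0
    exact hn (Int.gcd_eq_zero_iff.1 h1).1
  obtain ⟨n', hn'⟩ := Int.gcd_dvd_left (a := n) (b := m)
  obtain ⟨m', hm'⟩ := Int.gcd_dvd_right (a := n) (b := m)
  have h1 : n' • r = m' • δ := by
    have h2 : (Int.gcd n m : ℤ) • (n' • r - m' • δ) = 0 := by
      rw [smul_sub, smul_smul, smul_smul, ← hn', ← hm', h, sub_self]
    rcases smul_eq_zero.1 h2 with h3 | h3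
    · exact absurd h3 hg
    · exact sub_eq_zero.1 h3
  have h2 : n' * Int.gcdA n m + m' * Int.gcdB n m = 1 := by
    have h3 := Int.gcd_eq_gcd_ab n m
    have h4 : (Int.gcd n m : ℤ) * (n' * Int.gcdA n m + m' * Int.gcdB n m) =
        (Int.gcd n m : ℤ) * 1 := by
      rw [mul_one, mul_add, ← mul_assoc, ← mul_assoc, ← hn', ← hm']
      exact h3.symm
    exact mul_left_cancel₀ hg h4
  have h3 : δ = n' • (Int.gcdA n m • δ + Int.gcdB n m • r) := by
    have h4 : (n' * Int.gcdA n m + m' * Int.gcdB n m) • δ = δ := by rw [h2, one_smul]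
    rw [add_smul, mul_smul, mul_comm m', mul_smul, ← h1] at h4
    rw [smul_add, smul_comm n' (Int.gcdB n m) r]
    exact h4.symm
  rcases prim _ _ h3 with h4 | h4
  · exact ⟨m', by rw [← h1, h4, one_smul]⟩
  · refine ⟨-m', ?_⟩
    rw [neg_smul, ← h1, h4, neg_smul, one_smul, neg_neg]

theorem p_LHY {C : Type u} [Category.{v} C] [Preadditive C] [HasZeroObject C] [HasShift C ℤ]
    [∀ n : ℤ, (shiftFunctor C n).Additive] [Pretriangulated C] [IsTriangulated C] [Linear ℂ C]
    [∀ n : ℤ, (shiftFunctor C n).Linear ℂ] : Stmt_LHY C := by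
  intro h σ t δ H
  have := h.finite
  have := h.free
  refine ⟨h.psd', h.even, h.rank, h.rank4, h.irred, ?_, H.rad, H.ne, H.prim, H.im0, H.imroot, ?_⟩
  · obtain ⟨t', H'⟩ := σ.exists_Gap
    rw [eq_top_iff, ← h.gen, AddSubgroup.closure_le]
    rintro y ⟨Y, hY, rfl⟩
    have h1 := H'.rigid_mem h.k3 h.psd' h.even hY
    refine AddSubgroup.closure_mono ?_ h1
    intro x hx
    exact hx.1
  · intro r hr hr0
    obtain ⟨n, m, hn, hnm⟩ := σ.commensurable h.k3 h.psd' h.rank h.indec H.rad hr H.ne H.im0 hr0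
    exact LHY_mult H.prim hn hnm

end Pool.Tube
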