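import Pool.Agent.Work.MP_841263_tu.Interface

/-! # Tube structure theorem, block MOR: morphisms between the objects `IsS` -/

open CategoryTheory CategoryTheory.Limits CategoryTheory.Pretriangulated
open scoped ZeroObject

namespace Pool.Tube

open Pool.Stab

universe v u

/-- Comparison of coordinates. -/
lemma MOR_coord {K : Type*} [AddCommGroup K] {δ : K} {n : ℕ} {α : Fin n → K}
    (hind : ∀ (k : ℤ) (c : Fin n → ℤ), k • δ + ∑ i, c i • α i = 0 → k = 0 ∧ ∀ i, c i = 0)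
    {i j : Fin n} {k l m : ℤ} (h : α j + l • δ = α i + k • δ + m • δ) :
    i = j ∧ l = k + m := by
  have e0 : ∀ i : Fin n, α i = ∑ a, (if a = i then (1 : ℤ) else 0) • α a := by
    intro i
    rw [Finset.sum_eq_single i]
    · rw [if_pos rfl, one_smul]
    · intro b _ hb
      rw [if_neg hb, zero_smul]
    · intro hi
      exact absurd (Finset.mem_univ i) hi
  have e1 : ∑ a, ((if a = j then (1 : ℤ) else 0) - (if a = i then 1 else 0)) • α a =
      α j - α i := by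
    have e4 : ∀ a, ((if a = j then (1 : ℤ) else 0) - (if a = i then 1 else 0)) • α a =
        (if a = j then (1 : ℤ) else 0) • α a - (if a = i then (1 : ℤ) else 0) • α a :=
      fun a => sub_smul _ _ _
    rw [Finset.sum_congr rfl fun a _ => e4 a, Finset.sum_sub_distrib, ← e0 i, ← e0 j]
  have e2 : (l - k - m) • δ +
      ∑ a, ((if a = j then (1 : ℤ) else 0) - (if a = i then 1 else 0)) • α a = 0 := by
    rw [e1, sub_smul, sub_smul]
    have e3 : α j = α i + k • δ + m • δ - l • δ := by rw [← h]; abel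
    rw [e3]
    abel
  obtain ⟨h1, h2⟩ := hind _ _ e2
  refine ⟨?_, by omega⟩
  by_contra hne
  have h3 := h2 i
  rw [if_pos rfl, if_neg hne] at h3
  omega

/-- MOR. -/
theorem p_MOR {C : Type u} [Category.{v} C] [Preadditive C] [HasZeroObject C] [HasShift C ℤ]
    [∀ n : ℤ, (shiftFunctor C n).Additive] [Pretriangulated C] [IsTriangulated C] [Linear ℂ C]
    [∀ n : ℤ, (shiftFunctor C n).Linear ℂ] (hPTP : Stmt_PTP C) (hATM : Stmt_ATM C) :
    Stmt_MOR C := by
  intro h σ t δ n α hF i j k l X Y hX hY f hf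
  have hAX := hATM h σ t δ n α hF i k X hX
  have hAY := hATM h σ t δ n α hF j l Y hY
  obtain ⟨K, I, Q, i', p, d, j', q, e, hT1, hT2, hK, hI, hQ, hpj⟩ :=
    Slicing.exists_KIQ hX.1.1 hY.1.1 f
  have hI0 : ¬ IsZero I := by
    intro h0
    apply hf
    rw [← hpj, h0.eq_of_tgt p 0, zero_comp]
  have hK0 : IsZero K := by
    rcases hAX.2 _ _ _ _ _ hT1 hK hI with h0 | h0
    · exact h0
    · exfalso
      apply hf
      rw [← hpj, hY.1.2.2 I h0 j', comp_zero]
  have hp : IsIso p := iso_of_isZero₁ hT1 hK0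
  have hQP : σ.sl.P (t + 1) Q := (hAY.2 _ _ _ _ _ hT2 hI hQ).resolve_left hI0
  obtain ⟨m, hm, -⟩ := hPTP h σ t δ hF.toTubeHyp Q hQP
  have hcls : cls Y = cls X + (m : ℤ) • δ := by
    rw [cls_mk hT2, hm, cls_iso (asIso p)]
  rw [hX.2, hY.2] at hcls
  obtain ⟨hij, hlk⟩ := MOR_coord hF.indep hcls
  refine ⟨hij, m, Q, q, e ≫ (inv p)⟦(1 : ℤ)⟧', hlk, hm, hQP, ?_⟩
  refine isomorphic_distinguished _ hT2 _ ?_
  let ep : X ≅ I := asIso p
  have hep : ep.hom = p := rfl
  refine Triangle.isoMk (Triangle.mk f q (e ≫ (inv p)⟦(1 : ℤ)⟧')) (Triangle.mk j' q e)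
    ep (Iso.refl Y) (Iso.refl Q) ?_ ?_ ?_
  · show f ≫ 𝟙 Y = ep.hom ≫ j'
    rw [Category.comp_id, hep, hpj]
  · show q ≫ 𝟙 Q = 𝟙 Y ≫ q
    rw [Category.comp_id, Category.id_comp]
  · show (e ≫ (inv p)⟦(1 : ℤ)⟧') ≫ ep.hom⟦(1 : ℤ)⟧' = 𝟙 Q ≫ e
    rw [Category.id_comp, Category.assoc, ← Functor.map_comp, hep, IsIso.inv_hom_id,
      CategoryTheory.Functor.map_id, Category.comp_id]

end Pool.Tube
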