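import Pool.Agent.Work.MP_841263_tu.Interface

set_option autoImplicit false

open CategoryTheory CategoryTheory.Limits CategoryTheory.Pretriangulated

namespace Pool.Tube

open Pool.Stab

universe v u

variable {C : Type u} [Category.{v} C] [Preadditive C] [HasZeroObject C] [HasShift C ℤ]
  [∀ n : ℤ, (shiftFunctor C n).Additive] [Pretriangulated C] [IsTriangulated C] [Linear ℂ C]
  [∀ n : ℤ, (shiftFunctor C n).Linear ℂ]

theorem p_NAD {C : Type u} [Category.{v} C] [Preadditive C] [HasZeroObject C] [HasShift C ℤ]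
    [∀ n : ℤ, (shiftFunctor C n).Additive] [Pretriangulated C] [IsTriangulated C] [Linear ℂ C]
    [∀ n : ℤ, (shiftFunctor C n).Linear ℂ] (hCRO : Stmt_CRO C) (hPEN : Stmt_PEN C)
    (_hONE : Stmt_ONE C) (hEXI : Stmt_EXI C) : Stmt_NAD C := by
  intro h σ t δ n α F i j k l X X' Q hij hX hX' hQ hg g'
  by_contra hg'
  obtain ⟨g, hg⟩ := hg
  have hne : i ≠ j := by
    rintro rfl
    have h2 := F.toSimpleRoots.norm i
    rw [hij] at h2
    norm_num at h2
  obtain ⟨W, hW, -, -⟩ := hEXI h σ t δ n α F j (l - 1)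
  have hX'' : IsS σ t δ α j (l - 1 + 1) X' := by
    rw [sub_add_cancel]
    exact hX'
  obtain ⟨f, p, q, hf, hT⟩ := hPEN h σ t δ n α F j (l - 1) W X' Q hW hX'' hQ ⟨g', hg'⟩
  have hfin := h.k3.homFinite
  obtain ⟨h1, -⟩ := hCRO h σ t δ n α F i j k (l - 1) X W hne hX hW
  obtain ⟨-, h2⟩ := hCRO h σ t δ n α F i j k l X X' hne hX hX'
  rw [hij, neg_zero] at h1
  have h1' : Module.finrank ℂ (X ⟶ W⟦(1 : ℤ)⟧) = 0 := by exact_mod_cast h1
  have hz1 : ∀ a : X ⟶ W⟦(1 : ℤ)⟧, a = 0 := by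
    intro a
    haveI := hfin X (W⟦(1 : ℤ)⟧)
    haveI := Module.finrank_zero_iff.1 h1'
    exact Subsingleton.elim _ _
  have hz2 : ∀ a : X ⟶ X', a = 0 := by
    intro a
    have e0 : Module.finrank ℂ (X ⟶ X'⟦(0 : ℤ)⟧) = 0 := by
      haveI : Subsingleton (X ⟶ X'⟦(0 : ℤ)⟧) := ⟨fun a b => by
        rw [h2 0 (by norm_num) a, h2 0 (by norm_num) b]⟩
      exact Module.finrank_zero_of_subsingleton
    rw [finrank_shift_zero] at e0
    haveI := hfin X X'
    haveI := Module.finrank_zero_iff.1 e0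
    exact Subsingleton.elim _ _
  apply hg
  exact hom_zero_of_ext₂ (rot_mk hT) hz2 hz1 g

end Pool.Tube
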