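import Pool.Agent.Work.MP_841263_tu.Interface

/-! # Block OF1 (helper72) -/

namespace Pool.Tube

open Pool.Stab

universe v u

theorem OF1_gen (hDEC : Stmt_DEC.{u}) {K : Type u} [AddCommGroup K] [Module.Finite ℤ K]
    [Module.Free ℤ K] {B : K →+ K →+ ℤ} {im : K →+ ℝ} {δ : K} (h : LatHyp B im δ)
    (H : AddSubgroup K) (hH : ∀ γ, IsSimpleRoot B im γ → γ ∈ H) : H = ⊤ := by
  have h1 : ∀ x, B x x ≤ 2 → 0 < im x → x ∈ H := by
    intro x hx hxi
    have h2 := hDEC K B im δ h x hx hxi
    have h3 : AddSubmonoid.closure {α | IsSimpleRoot B im α} ≤ H.toAddSubmonoid :=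
      AddSubmonoid.closure_le.2 hH
    exact h3 h2
  rw [← top_le_iff, ← h.gen, AddSubgroup.closure_le]
  intro x hx
  have hx' : B x x = 2 := hx
  rcases lt_or_gt_of_ne (h.imroot x hx') with h2 | h2
  · have h3 : -x ∈ H := by
      refine h1 (-x) ?_ ?_
      · rw [map_neg, map_neg, AddMonoidHom.neg_apply, neg_neg, hx']
      · rw [map_neg]
        linarith
    have h4 := neg_mem h3
    rw [neg_neg] at h4
    exact h4
  · exact h1 x hx'.le h2

theorem p_OF1 (hDEC : Stmt_DEC.{u}) (hOFF : Stmt_OFF.{u}) : Stmt_OF1.{u} := by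
  intro K _ _ _ B im δ h α β hα hβ hne
  have hle := hOFF K B im δ h α β hα hβ hne
  have hca := h.psd.cauchy α β
  rw [hα.1, hβ.1] at hca
  have hge : -2 ≤ B α β := by nlinarith
  by_contra hcon
  push Not at hcon
  have h2 : B α β = -2 := by omega
  have h3 : B (α + β) (α + β) = 0 := by
    have := h.psd.expand 1 1 α β
    rw [hα.1, hβ.1, h2] at this
    have e : α + β = (1 : ℤ) • α + (1 : ℤ) • β := by module
    rw [e, this]
    ring
  have hrad : ∀ y, B (α + β) y = 0 := h.psd.mem_radical_of_self h3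
  have hδ : ∀ y, B δ y = 0 := h.rad
  have hδ' : ∀ y, B y δ = 0 := fun y => by rw [h.psd.symm]; exact hδ y
  let Γ : Set K := {γ | IsSimpleRoot B im γ ∧ (∀ k : ℤ, γ ≠ α + k • δ) ∧ ∀ k : ℤ, γ ≠ β + k • δ}
  have hΓ : ∀ γ ∈ Γ, B α γ = 0 ∧ B β γ = 0 := by
    rintro γ ⟨h4, h5, h6⟩
    have h7 := hOFF K B im δ h γ α h4 hα h5
    have h8 := hOFF K B im δ h γ β h4 hβ h6
    have h9 := hrad γ
    rw [map_add, AddMonoidHom.add_apply] at h9
    rw [h.psd.symm] at h7 h8
    constructor <;> omega
  let P : AddSubgroup K := AddSubgroup.closure {δ, α, β}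
  let Q : AddSubgroup K := AddSubgroup.closure (insert δ Γ)
  have hδP : δ ∈ P := AddSubgroup.subset_closure (by simp)
  have hαP : α ∈ P := AddSubgroup.subset_closure (by simp)
  have hβP : β ∈ P := AddSubgroup.subset_closure (by simp)
  have hin : ∀ γ, IsSimpleRoot B im γ → γ ∈ P ∨ γ ∈ Γ := by
    intro γ hγ
    by_cases h4 : γ ∈ Γ
    · exact Or.inr h4
    · left
      have h5 : ¬ ((∀ k : ℤ, γ ≠ α + k • δ) ∧ ∀ k : ℤ, γ ≠ β + k • δ) := fun h => h4 ⟨hγ, h⟩
      rw [not_and_or] at h5
      push Not at h5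
      rcases h5 with ⟨k, hk⟩ | ⟨k, hk⟩
      · rw [hk]
        exact add_mem hαP (zsmul_mem hδP k)
      · rw [hk]
        exact add_mem hβP (zsmul_mem hδP k)
  have hPQ : P ⊔ Q = ⊤ := by
    refine OF1_gen hDEC h _ fun γ hγ => ?_
    rcases hin γ hγ with h4 | h4
    · exact (le_sup_left : P ≤ P ⊔ Q) h4
    · exact (le_sup_right : Q ≤ P ⊔ Q) (AddSubgroup.subset_closure (Set.mem_insert_of_mem _ h4))
  have horth : ∀ x ∈ P, ∀ y ∈ Q, B x y = 0 := by
    intro x hx y hy
    induction hx using AddSubgroup.closure_induction with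
    | mem x hx =>
      induction hy using AddSubgroup.closure_induction with
      | mem y hy =>
        rcases hy with rfl | hy
        · exact hδ' x
        · rcases hx with rfl | rfl | hx
          · exact hδ y
          · exact (hΓ y hy).1
          · rw [hx]
            exact (hΓ y hy).2
      | zero => exact map_zero _
      | add a b _ _ ha hb => rw [map_add, ha, hb, add_zero]
      | neg a _ ha => rw [map_neg, ha, neg_zero]
    | zero => rw [map_zero, AddMonoidHom.zero_apply]
    | add a b _ _ ha hb => rw [map_add, AddMonoidHom.add_apply, ha, hb, add_zero]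
    | neg a _ ha => rw [map_neg, AddMonoidHom.neg_apply, ha, neg_zero]
  rcases h.irred P Q hPQ horth with h4 | h4
  · have h5 : B α α = 0 := h4 α hαP α
    have := hα.1
    omega
  · have hall : ∀ γ, IsSimpleRoot B im γ → γ ∈ P := by
      intro γ hγ
      rcases hin γ hγ with h5 | h5
      · exact h5
      · exfalso
        have h6 : B γ γ = 0 :=
          h4 γ (AddSubgroup.subset_closure (Set.mem_insert_of_mem _ h5)) γ
        have := hγ.1
        omega
    have hP := OF1_gen hDEC h P hall
    have hspan : Submodule.span ℤ (Set.range ![δ, α, β]) = ⊤ := by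
      rw [eq_top_iff]
      intro x _
      have hx : x ∈ P := by rw [hP]; exact AddSubgroup.mem_top x
      have h5 : P ≤ (Submodule.span ℤ (Set.range ![δ, α, β])).toAddSubgroup := by
        rw [AddSubgroup.closure_le]
        intro y hy
        apply Submodule.subset_span
        rcases hy with rfl | rfl | hy
        · exact ⟨0, rfl⟩
        · exact ⟨1, rfl⟩
        · exact ⟨2, by rw [hy]; rfl⟩
      exact h5 hx
    have h6 := finrank_range_le_card (R := ℤ) ![δ, α, β]
    rw [Set.finrank, hspan, finrank_top, Fintype.card_fin] at h6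
    have := h.rank4
    omega

end Pool.Tube
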