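import Pool.Agent.Work.MP_841263_tu.Interface

/-! # Block OFF (helper72) -/

namespace Pool.Tube

open Pool.Stab

universe v u

theorem p_OFF : Stmt_OFF.{u} := by
  intro K _ _ _ B im δ h α β hα hβ hne
  by_contra hlt
  push Not at hlt
  have h1 := h.psd.cauchy α β
  have hα2 := hα.1
  have hβ2 := hβ.1
  rw [hα2, hβ2] at h1
  have h2 : B α β ≤ 2 := by nlinarith
  have h3 : B (α - β) (α - β) = 4 - 2 * B α β := by
    have := h.psd.expand 1 (-1) α β
    rw [hα2, hβ2] at this
    have e : α - β = (1 : ℤ) • α + (-1 : ℤ) • β := by module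
    rw [e, this]
    ring
  have h3' : B (β - α) (β - α) = 4 - 2 * B α β := by
    have := h.psd.expand (-1) 1 α β
    rw [hα2, hβ2] at this
    have e : β - α = (-1 : ℤ) • α + (1 : ℤ) • β := by module
    rw [e, this]
    ring
  have h4 : im (α - β) ≠ 0 := by
    rcases (show B α β = 1 ∨ B α β = 2 by omega) with h5 | h5
    · exact h.imroot _ (by omega)
    · intro h6
      have h7 := h.psd.mem_radical_of_self (show B (α - β) (α - β) = 0 by omega)
      obtain ⟨k, hk⟩ := h.imrad _ h7 h6
      exact hne k (by rw [← hk]; abel)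
  rcases lt_or_gt_of_ne h4 with h5 | h5
  · refine hβ.2.2 α (β - α) (by omega) (by omega) hα.2.1 ?_ (by abel)
    rw [map_sub] at h5 ⊢
    linarith
  · exact hα.2.2 β (α - β) (by omega) (by omega) hβ.2.1 h5 (by abel)

end Pool.Tube
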