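import Mathlib
import Pool.Agent.Work.MP_841263_tu.Interface

open CategoryTheory CategoryTheory.Limits CategoryTheory.Pretriangulated
open scoped ZeroObject

namespace Pool.Tube

open Pool.Stab

universe v u

section

variable {C : Type u} [Category.{v} C] [Preadditive C] [HasZeroObject C] [HasShift C ℤ]
    [∀ n : ℤ, (shiftFunctor C n).Additive] [Pretriangulated C] [IsTriangulated C] [Linear ℂ C]
    [∀ n : ℤ, (shiftFunctor C n).Linear ℂ]

lemma ONE_a (hSPH : Stmt_SPH C) (hTWO : Stmt_TWO C) (h : EllipticSetting C) (σ : StabCond C)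
    (t : ℝ) (δ : K0 C) (n : ℕ) (α : Fin n → K0 C) (hF : Frame h σ t δ α) {i : Fin n} {k : ℤ}
    {W X Q : C} (hW : IsS σ t δ α i k W) (hX : IsS σ t δ α i (k + 1) X) {f : W ⟶ X}
    {p : X ⟶ Q} {q : Q ⟶ W⟦(1 : ℤ)⟧} (hf : f ≠ 0) (hT : Triangle.mk f p q ∈ distTriang C) :
    Module.finrank ℂ (W ⟶ Q) = 1 := by
  have h1 := finrank_hom₂ h.k3 W hT
  have h2 := finrank_hom₃ h.k3 W hT
  have h3 := finrank_hom₁ h.k3 W hT
  have h4 : Module.finrank ℂ (W ⟶ X) = 2 := (hTWO h σ t δ n α hF i k W X hW hX).1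
  have hs := (hSPH h σ t δ n α hF i k W hW).1
  have h5 : Module.finrank ℂ (W ⟶ W⟦(1 : ℤ)⟧) = 0 :=
    finrank_of_forall_zero (hs.2 1 (by norm_num) (by norm_num))
  have h6 : rk W f = 1 := by
    have hfin := h.k3.homFinite W W
    have hle : rk W f ≤ 1 := by
      rw [← hs.1]
      exact LinearMap.finrank_range_le _
    have hge : rk W f ≠ 0 := by
      intro h0
      have hfin' := h.k3.homFinite W X
      have h7 := Submodule.finrank_eq_zero.1 h0
      apply hf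
      have hmem : f ∈ LinearMap.range (Linear.rightComp ℂ W f) := ⟨𝟙 W, by simp⟩
      rw [h7] at hmem
      exact (Submodule.mem_bot ℂ).1 hmem
    omega
  omega

lemma ONE_up (hTWO : Stmt_TWO C) (hPNT : Stmt_PNT C) (h : EllipticSetting C)
    (σ : StabCond C) (t : ℝ) (δ : K0 C) (n : ℕ) (α : Fin n → K0 C) (hF : Frame h σ t δ α)
    {i : Fin n} {k : ℤ} {X Y Q : C} (hX : IsS σ t δ α i k X) (hY : IsS σ t δ α i (k + 1) Y)
    (hQ : σ.Stable (t + 1) Q) (hc : cls Q = δ) (g : X ⟶ Q) (hg : g ≠ 0) :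
    ∃ g' : Y ⟶ Q, g' ≠ 0 := by
  by_contra hcon
  push Not at hcon
  have hK := h.k3
  have h2 := (hTWO h σ t δ n α hF i k X Y hX hY).1
  obtain ⟨f, hf⟩ : ∃ f : X ⟶ Y, f ≠ 0 := by
    by_contra hc'
    push Not at hc'
    have := finrank_of_forall_zero hc'
    omega
  obtain ⟨Q', p, q, hT⟩ := distinguished_cocone_triangle f
  obtain ⟨hQ', hc'⟩ := hPNT h σ t δ n α hF i k X Y hX hY f Q' p q hf hT
  have hs := hQ.simple
  have hs' := hQ'.simple
  have hno : ¬ Nonempty (Q' ≅ Q) := by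
    rintro ⟨e⟩
    have h3 := hcon (p ≫ e.hom)
    have hp : p = 0 := by rw [← cancel_mono e.hom, h3, zero_comp]
    exact hs'.2.1 (isZero₃_of_mor₂ hT hp (fun r => σ.hom_shift_zero hX.1.1 hs'.1 r))
  have h3 : ∀ u : Q' ⟶ Q, u = 0 := by
    intro u
    by_contra hu
    have := hs'.isIso hs u hu
    exact hno ⟨asIso u⟩
  have h4 : ∀ u : Q ⟶ Q', u = 0 := by
    intro u
    by_contra hu
    have := hs.isIso hs' u hu
    exact hno ⟨(asIso u).symm⟩
  have h5 : eulerChar Q' Q = 0 := by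
    rw [← eulerForm_cls hK, hc', hc]
    exact hF.rad δ
  have h6 : Module.finrank ℂ (Q' ⟶ Q⟦(1 : ℤ)⟧) = 0 := by
    have h7 := hs'.1.eulerChar hK hs.1
    rw [h5, finrank_of_forall_zero h3, finrank_of_forall_zero h4] at h7
    push_cast at h7
    omega
  have h7 : ∀ u : Q' ⟶ Q⟦(1 : ℤ)⟧, u = 0 := forall_zero_of_finrank hK h6
  obtain ⟨a, c, hT'⟩ := exists_invrot hT
  have ha : a ≫ g = 0 := by
    have h8 := hom_shift_zero (X := Q') (Y := Q) (a := -1) (b := 0) (c := 1) (by norm_num) h7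
      ((a ≫ g) ≫ ((shiftFunctorZero C ℤ).app Q).inv)
    rw [← cancel_mono ((shiftFunctorZero C ℤ).app Q).inv, h8, zero_comp]
  obtain ⟨u, hu⟩ := Triangle.yoneda_exact₂ _ hT' g ha
  apply hg
  have hu0 : u = 0 := hcon u
  rw [hu, hu0]
  exact comp_zero

end

theorem p_ONE {C : Type u} [Category.{v} C] [Preadditive C] [HasZeroObject C] [HasShift C ℤ]
    [∀ n : ℤ, (shiftFunctor C n).Additive] [Pretriangulated C] [IsTriangulated C] [Linear ℂ C]
    [∀ n : ℤ, (shiftFunctor C n).Linear ℂ] (hUNI : Stmt_UNI C) (hEXI : Stmt_EXI C)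
    (hSPH : Stmt_SPH C) (hTWO : Stmt_TWO C) (hPNT : Stmt_PNT C) (hPEN : Stmt_PEN C) :
    Stmt_ONE C := by
  intro h σ t δ n α hF i k X Q hX hQ hex
  obtain ⟨g, hg⟩ := hex
  have hc : cls Q = δ := by
    obtain ⟨W, hW, -⟩ := hEXI h σ t δ n α hF i (k - 1)
    have hX' : IsS σ t δ α i (k - 1 + 1) X := by rw [sub_add_cancel]; exact hX
    obtain ⟨f, p, q, hf, hT⟩ := hPEN h σ t δ n α hF i (k - 1) W X Q hW hX' hQ ⟨g, hg⟩
    exact (hPNT h σ t δ n α hF i (k - 1) W X hW hX' f Q p q hf hT).2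
  have hdown1 : ∀ (l : ℤ) (W X' : C), IsS σ t δ α i l W → IsS σ t δ α i (l + 1) X' →
      (∃ g' : X' ⟶ Q, g' ≠ 0) → Module.finrank ℂ (W ⟶ Q) = 1 := by
    intro l W X' hW hX' hex'
    obtain ⟨f, p, q, hf, hT⟩ := hPEN h σ t δ n α hF i l W X' Q hW hX' hQ hex'
    exact ONE_a hSPH hTWO h σ t δ n α hF hW hX' hf hT
  have hup : ∀ l : ℤ, (∀ Y, IsS σ t δ α i l Y → ∃ g : Y ⟶ Q, g ≠ 0) →
      (∀ Y, IsS σ t δ α i (l + 1) Y → ∃ g : Y ⟶ Q, g ≠ 0) := by
    intro l hl Y hY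
    obtain ⟨X', hX', -⟩ := hEXI h σ t δ n α hF i l
    obtain ⟨g', hg'⟩ := hl X' hX'
    exact ONE_up hTWO hPNT h σ t δ n α hF hX' hY hQ hc g' hg'
  have hdown : ∀ l : ℤ, (∀ Y, IsS σ t δ α i (l + 1) Y → ∃ g : Y ⟶ Q, g ≠ 0) →
      (∀ Y, IsS σ t δ α i l Y → ∃ g : Y ⟶ Q, g ≠ 0) := by
    intro l hl W hW
    obtain ⟨X', hX', -⟩ := hEXI h σ t δ n α hF i (l + 1)
    have h1 := hdown1 l W X' hW hX' (hl X' hX')
    by_contra hcon
    push Not at hcon
    have := finrank_of_forall_zero hcon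
    omega
  have h0 : ∀ Y, IsS σ t δ α i k Y → ∃ g : Y ⟶ Q, g ≠ 0 := by
    intro Y hY
    obtain ⟨e⟩ := hUNI h σ t δ n α hF i k X Y hX hY
    refine ⟨e.inv ≫ g, ?_⟩
    intro h0
    apply hg
    rw [← cancel_epi e.inv, h0, comp_zero]
  have hall : ∀ l : ℤ, ∀ Y, IsS σ t δ α i l Y → ∃ g : Y ⟶ Q, g ≠ 0 := by
    have h1 : ∀ m : ℕ, ∀ Y, IsS σ t δ α i (k + m) Y → ∃ g : Y ⟶ Q, g ≠ 0 := by
      intro m
      induction m with
      | zero =>
        rw [Nat.cast_zero, add_zero]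
        exact h0
      | succ m ih =>
        rw [Nat.cast_succ, ← add_assoc]
        exact hup (k + m) ih
    have h2 : ∀ m : ℕ, ∀ Y, IsS σ t δ α i (k - m) Y → ∃ g : Y ⟶ Q, g ≠ 0 := by
      intro m
      induction m with
      | zero =>
        rw [Nat.cast_zero, sub_zero]
        exact h0
      | succ m ih =>
        apply hdown
        rw [Nat.cast_succ, ← sub_sub, sub_add_cancel]
        exact ih
    intro l
    rcases le_total k l with h3 | h3
    · obtain ⟨m, hm⟩ := Int.eq_ofNat_of_zero_le (sub_nonneg.2 h3)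
      have h4 : l = k + m := by omega
      rw [h4]
      exact h1 m
    · obtain ⟨m, hm⟩ := Int.eq_ofNat_of_zero_le (sub_nonneg.2 h3)
      have h4 : l = k - m := by omega
      rw [h4]
      exact h2 m
  refine ⟨?_, fun l Y hY => hall l Y hY⟩
  obtain ⟨Y, hY, -⟩ := hEXI h σ t δ n α hF i (k + 1)
  exact hdown1 k X Y hX hY (hall (k + 1) Y hY)

end Pool.Tube
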