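import Pool.Agent.Work.MP_841263_tu.Interface

/-!
# Block ORT: the objects orthogonal to all line bundles are zero
-/

open CategoryTheory CategoryTheory.Limits CategoryTheory.Pretriangulated
open scoped ZeroObject

set_option backward.isDefEq.respectTransparency false
set_option backward.defeqAttrib.useBackward true
set_option linter.unusedSectionVars false

namespace Pool.Tube

open Pool.Stab

universe v u

variable {C : Type u} [Category.{v} C] [Preadditive C] [HasZeroObject C] [HasShift C ℤ]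
  [∀ n : ℤ, (shiftFunctor C n).Additive] [Pretriangulated C] [IsTriangulated C] [Linear ℂ C]
  [∀ n : ℤ, (shiftFunctor C n).Linear ℂ]

/-- If all morphisms from torsion free `X` to `Q` of phase `t + 1` vanish and the class of `Q` is
in the radical, then `X` and `Q` are orthogonal in all degrees. -/
lemma ORT_orth {h : EllipticSetting C} {σ : StabCond C} {t : ℝ} {X Q : C}
    (hX : σ.TF t X) (hQ : σ.sl.P (t + 1) Q) (hr : cls Q ∈ radical (eulerForm h.k3))
    (h0 : ∀ f : X ⟶ Q, f = 0) : Orth X Q := by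
  have hQh : σ.sl.Heart t Q := Slicing.heart_of_P hQ (by linarith) le_rfl
  have hz : eulerChar X Q = 0 := by
    rw [← eulerForm_cls h.k3, eulerForm_symm h.k3]
    exact hr _
  have hXQ : Module.finrank ℂ (X ⟶ Q) = 0 := finrank_of_forall_zero h0
  have hQX : Module.finrank ℂ (Q ⟶ X) = 0 := finrank_of_forall_zero (hX.2.2 Q hQ)
  have h1 := Slicing.Heart.eulerChar h.k3 hX.1 hQh
  rw [hz, hXQ, hQX] at h1
  intro n f
  refine forall_zero_of_finrank h.k3 ?_ f
  by_cases hn : n < 0 ∨ 2 < n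
  · exact hX.1.finrank_zero h.k3 hQh hn
  · push Not at hn
    obtain ⟨h2, h3⟩ := hn
    interval_cases n
    · rw [finrank_shift_zero]
      exact hXQ
    · omega
    · rw [← h.k3.serre Q X]
      exact hQX

/-- Orthogonality is symmetric in a K3 category. -/
lemma ORT_dual (hK : IsK3 C) {X Y : C} (h : Orth X Y) : Orth Y X := by
  intro n f
  refine forall_zero_of_finrank hK ?_ f
  rw [finrank_duality hK]
  exact finrank_of_forall_zero (fun g => h _ g)

/-- **Block ORT.** -/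
theorem p_ORT (hGN1 : Stmt_GN1 C) (hPEN : Stmt_PEN C) (hEXI : Stmt_EXI C) (_hSPH : Stmt_SPH C) :
    Stmt_ORT C := by
  intro h σ t δ n α hF Y₀ hY₀
  set G : C → Prop := fun Y => ∃ (i : Fin n) (k : ℤ) (m : ℤ) (Z : C),
    IsS σ t δ α i k Z ∧ Nonempty (Y ≅ Z⟦m⟧) with hGdef
  set G' : C → Prop := fun Y => OrthS σ t δ α Y with hG'def
  have hGs : ∀ X (m : ℤ), G X → G (X⟦m⟧) := by
    rintro Y s ⟨i, k, m, Z, hZ, ⟨e⟩⟩
    exact ⟨i, k, m + s, Z, hZ,
      ⟨(shiftFunctor C s).mapIso e ≪≫ ((shiftFunctorAdd C m s).app Z).symm⟩⟩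
  have hGs' : ∀ X (m : ℤ), G' X → G' (X⟦m⟧) := by
    intro Y s hY i k X hX
    exact (hY i k X hX).shift s
  have h12 : ∀ X Y, G X → G' Y → ∀ f : X ⟶ Y, f = 0 := by
    rintro X Y ⟨i, k, m, Z, hZ, ⟨e⟩⟩ hY f
    have h1 := orth_shift (hY i k Z hZ) m 0
      (e.inv ≫ f ≫ ((shiftFunctorZero C ℤ).app Y).inv)
    rw [← cancel_mono ((shiftFunctorZero C ℤ).app Y).inv, ← cancel_epi e.inv, h1]
    simp
  have h21 : ∀ X Y, G X → G' Y → ∀ f : Y ⟶ X, f = 0 := by
    rintro X Y ⟨i, k, m, Z, hZ, ⟨e⟩⟩ hY f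
    have h1 := ORT_dual h.k3 (hY i k Z hZ) m (f ≫ e.hom)
    rw [← cancel_mono e.hom, h1, zero_comp]
  have hof : ∀ (i : Fin n) (k : ℤ) (X : C), IsS σ t δ α i k X → G X := fun i k X hX =>
    ⟨i, k, 0, X, hX, ⟨((shiftFunctorZero C ℤ).app X).symm⟩⟩
  -- points
  have hpt : ∀ Q, σ.Stable (t + 1) Q → Gen (fun X => G X ∨ G' X) Q := by
    intro Q hQ
    by_cases hex : ∃ (i : Fin n) (k : ℤ) (X : C), IsS σ t δ α i k X ∧ ∃ g : X ⟶ Q, g ≠ 0
    · obtain ⟨i, k, X, hX, hg⟩ := hex
      obtain ⟨W, hW, -⟩ := hEXI h σ t δ n α hF i (k - 1)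
      have hX' : IsS σ t δ α i (k - 1 + 1) X := by
        rw [sub_add_cancel]
        exact hX
      obtain ⟨f, p, q, -, hT⟩ := hPEN h σ t δ n α hF i (k - 1) W X Q hW hX' hQ hg
      exact Gen.ext (rot_mk hT) (Gen.of (Or.inl (hof _ _ _ hX)))
        (Gen.of (Or.inl (hGs _ 1 (hof _ _ _ hW))))
    · push Not at hex
      have h2 : eulerForm h.k3 (cls Q) (cls Q) ≤ 2 := by
        rw [eulerForm_cls]
        exact hQ.simple.eulerChar_self_le h.k3
      have him : σ.im t (cls Q) = 0 := σ.im_of_P hQ.1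
      have h0 : eulerForm h.k3 (cls Q) (cls Q) = 0 := by
        have hne : eulerForm h.k3 (cls Q) (cls Q) ≠ 2 := fun h' => hF.imroot _ h' him
        have hnn := h.psd'.nonneg (cls Q)
        obtain ⟨r, hr⟩ := h.even (cls Q)
        omega
      have hrad := h.psd'.mem_radical_of_self h0
      refine Gen.of (Or.inr ?_)
      intro i k X hX
      exact ORT_orth (h := h) hX.1 hQ.1 hrad (fun f => hex i k X hX f)
  -- the heart
  have hH : ∀ X, σ.sl.Heart t X → Gen (fun X => G X ∨ G' X) X := by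
    intro X hX
    refine Gen.trans ((hGN1 h σ t δ n α hF X hX).mono ?_)
    rintro Y (⟨i, k, hY⟩ | hY | hY)
    · exact Gen.of (Or.inl (hof _ _ _ hY))
    · exact hpt Y hY
    · exact Gen.of (Or.inr hY)
  -- all objects
  have hall' : ∀ X : C, Gen (fun X => G X ∨ G' X) X := by
    intro X
    obtain ⟨l, hl⟩ := σ.sl.exists_HN X
    induction hl with
    | zero h => exact Gen.zero h
    | @step X Y A φ l hX hφ hA hA0 f g k hT ih =>
      refine Gen.ext hT ih ?_
      obtain ⟨m, hm⟩ := σ.sl.exists_shift_heart t φ hA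
      exact ((hH _ hm).shift (fun X m hX => hX.imp (hGs X m) (hGs' X m)) (-m)).iso
        ((shiftFunctorCompIsoId C m (-m) (by ring)).app A)
  have hall : ∀ E : C, ∃ X Y : C, Gen G X ∧ Gen G' Y ∧ Nonempty (E ≅ X ⊞ Y) := fun E =>
    exists_biprod_of_gen hGs hGs' h12 h21 (hall' E)
  have := h.indec (fun X => Gen G X) (fun X => Gen G' X) (fun X Y e h => h.iso e)
    (fun X Y e h => h.iso e) (fun X n h => h.shift hGs n) (fun X n h => h.shift hGs' n)
    (fun X Y hX hY f => hX.hom_zero h12 hY f)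
    (fun X Y hX hY f => hY.hom_zero (fun Y X hY hX f => h21 X Y hX hY f) hX f) hall
  rcases this with h1 | h1
  · exfalso
    have hn : n = 0 := by
      by_contra hn
      obtain ⟨X, hX, -⟩ := hEXI h σ t δ n α hF ⟨0, Nat.pos_of_ne_zero hn⟩ 0
      exact hX.1.2.1 (h1 X (Gen.of (hof _ _ _ hX)))
    subst hn
    have h4 := h.rank4
    have h5 : Module.finrank ℤ (K0 C) ≤ 1 := by
      refine finrank_le_one δ ?_
      intro x
      obtain ⟨k, c, hk⟩ := hF.span x
      exact ⟨k, by rw [hk]; simp⟩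
    omega
  · exact h1 Y₀ (Gen.of hY₀)

end Pool.Tube
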