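import Mathlib
import Pool.Agent.Work.MP_841263_tu.Interface

open CategoryTheory CategoryTheory.Limits CategoryTheory.Pretriangulated
open scoped ZeroObject

namespace Pool.Tube

open Pool.Stab

universe v u

section

variable {C : Type u} [Category.{v} C] [Preadditive C] [HasZeroObject C] [HasShift C ℤ]
    [∀ n : ℤ, (shiftFunctor C n).Additive] [Pretriangulated C]

lemma PNT_cone {X Y Q Q' : C} {f : X ⟶ Y} {p : Y ⟶ Q} {q : Q ⟶ X⟦(1 : ℤ)⟧}
    (hT : Triangle.mk f p q ∈ distTriang C) {p' : Y ⟶ Q'} {q' : Q' ⟶ X⟦(1 : ℤ)⟧}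
    (hT' : Triangle.mk f p' q' ∈ distTriang C) : Nonempty (Q ≅ Q') := by
  obtain ⟨e', -⟩ := exists_iso_of_arrow_iso _ _ hT hT' (Iso.refl _)
  exact ⟨Triangle.π₃.mapIso e'⟩

end

theorem p_PNT {C : Type u} [Category.{v} C] [Preadditive C] [HasZeroObject C] [HasShift C ℤ]
    [∀ n : ℤ, (shiftFunctor C n).Additive] [Pretriangulated C] [IsTriangulated C] [Linear ℂ C]
    [∀ n : ℤ, (shiftFunctor C n).Linear ℂ] (hPTP : Stmt_PTP C) (hMOR : Stmt_MOR C) :
    Stmt_PNT C := by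
  intro h σ t δ n α hF i k X Y hX hY f Q p q hf hT
  obtain ⟨-, m, Q', g, w, hm, hcls, hP, hT'⟩ := hMOR h σ t δ n α hF i i k (k + 1) X Y hX hY f hf
  have hm1 : m = 1 := by
    have : (m : ℤ) = 1 := by linarith
    exact_mod_cast this
  obtain ⟨e⟩ := PNT_cone hT' hT
  have hcQ : cls Q = δ := by
    rw [← cls_iso e, hcls, hm1, Nat.cast_one, one_smul]
  have hPQ : σ.sl.P (t + 1) Q := σ.sl.iso_mem _ e hP
  refine ⟨⟨hPQ, ?_, ?_⟩, hcQ⟩
  · intro h0
    exact hF.ne (by rw [← hcQ]; exact cls_of_isZero h0)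
  · intro Y' Z' a b c hT2 hY' hZ'
    obtain ⟨m1, h1, h1'⟩ := hPTP h σ t δ hF.toTubeHyp Y' hY'
    obtain ⟨m2, h2, h2'⟩ := hPTP h σ t δ hF.toTubeHyp Z' hZ'
    have h3 : δ = (m1 : ℤ) • δ + (m2 : ℤ) • δ := by
      rw [← h1, ← h2, ← cls_mk hT2, hcQ]
    have h4 : σ.re t δ = (m1 : ℝ) * σ.re t δ + (m2 : ℝ) * σ.re t δ := by
      have h5 := congrArg (σ.re t) h3
      rw [map_add, map_zsmul, map_zsmul, zsmul_eq_mul, zsmul_eq_mul] at h5
      simpa using h5
    have h6 : (m1 : ℝ) + m2 = 1 := by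
      have h7 := hF.re0
      have h8 : ((m1 : ℝ) + m2 - 1) * σ.re t δ = 0 := by linarith
      rcases mul_eq_zero.1 h8 with h9 | h9
      · linarith
      · exact absurd h9 h7.ne
    have h10 : m1 + m2 = 1 := by exact_mod_cast h6
    rcases Nat.eq_zero_or_pos m1 with h11 | h11
    · exact Or.inl (h1' h11)
    · exact Or.inr (h2' (by omega))

end Pool.Tube
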