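import Pool.Agent.Work.MP_841263_tu.Interface

/-!
# Block PTL: every point lies on a line
-/

open CategoryTheory CategoryTheory.Limits CategoryTheory.Pretriangulated
open scoped ZeroObject

set_option backward.isDefEq.respectTransparency false
set_option backward.defeqAttrib.useBackward true
set_option linter.unusedSectionVars false

namespace Pool.Tube

open Pool.Stab

universe v u

variable {C : Type u} [Category.{v} C] [Preadditive C] [HasZeroObject C] [HasShift C ℤ]
  [∀ n : ℤ, (shiftFunctor C n).Additive] [Pretriangulated C] [IsTriangulated C] [Linear ℂ C]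
  [∀ n : ℤ, (shiftFunctor C n).Linear ℂ]

/-- If all morphisms from torsion free `X` to `Q` of phase `t + 1` vanish and the class of `Q` is
in the radical, then `X` and `Q` are orthogonal in all degrees. -/
lemma PTL_orth {h : EllipticSetting C} {σ : StabCond C} {t : ℝ} {X Q : C}
    (hX : σ.TF t X) (hQ : σ.sl.P (t + 1) Q) (hr : cls Q ∈ radical (eulerForm h.k3))
    (h0 : ∀ f : X ⟶ Q, f = 0) : Orth X Q := by
  have hQh : σ.sl.Heart t Q := Slicing.heart_of_P hQ (by linarith) le_rfl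
  have hz : eulerChar X Q = 0 := by
    rw [← eulerForm_cls h.k3, eulerForm_symm h.k3]
    exact hr _
  have hXQ : Module.finrank ℂ (X ⟶ Q) = 0 := finrank_of_forall_zero h0
  have hQX : Module.finrank ℂ (Q ⟶ X) = 0 := finrank_of_forall_zero (hX.2.2 Q hQ)
  have h1 := Slicing.Heart.eulerChar h.k3 hX.1 hQh
  rw [hz, hXQ, hQX] at h1
  intro n f
  refine forall_zero_of_finrank h.k3 ?_ f
  by_cases hn : n < 0 ∨ 2 < n
  · exact hX.1.finrank_zero h.k3 hQh hn
  · push Not at hn
    obtain ⟨h2, h3⟩ := hn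
    interval_cases n
    · rw [finrank_shift_zero]
      exact hXQ
    · omega
    · rw [← h.k3.serre Q X]
      exact hQX

/-- **Block PTL.** -/
theorem p_PTL (hORT : Stmt_ORT C) (hEXI : Stmt_EXI C) (hPTP : Stmt_PTP C) (hPNT : Stmt_PNT C)
    (hPEN : Stmt_PEN C) (hONE : Stmt_ONE C) : Stmt_PTL C := by
  intro h σ t δ n α hF Q hQ
  have hnz : ¬ IsZero Q := hQ.2.1
  obtain ⟨m, hm, -⟩ := hPTP h σ t δ hF.toTubeHyp Q hQ.1
  have hr : cls Q ∈ radical (eulerForm h.k3) := by
    rw [hm]
    exact (radical (eulerForm h.k3)).smul_mem _ hF.rad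
  -- some `X` has a nonzero map to `Q`
  obtain ⟨i, k, X, hX, g, hg⟩ : ∃ (i : Fin n) (k : ℤ) (X : C), IsS σ t δ α i k X ∧
      ∃ g : X ⟶ Q, g ≠ 0 := by
    by_contra hcon
    push Not at hcon
    apply hnz
    refine hORT h σ t δ n α hF Q ?_
    intro i k X hX
    exact PTL_orth (h := h) hX.1 hQ.1 hr (fun f => hcon i k X hX f)
  have hall := (hONE h σ t δ n α hF i k X Q hX hQ ⟨g, hg⟩).2
  refine ⟨?_, i, hall⟩
  obtain ⟨W, hW, -⟩ := hEXI h σ t δ n α hF i (k - 1)
  have hX' : IsS σ t δ α i (k - 1 + 1) X := by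
    rw [sub_add_cancel]
    exact hX
  obtain ⟨f, p, q, hf, hT⟩ := hPEN h σ t δ n α hF i (k - 1) W X Q hW hX' hQ ⟨g, hg⟩
  exact (hPNT h σ t δ n α hF i (k - 1) W X hW hX' f Q p q hf hT).2

end Pool.Tube
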