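import Mathlib
import Pool.Agent.Work.MP_841263_tu.Interface

open CategoryTheory CategoryTheory.Limits CategoryTheory.Pretriangulated
open scoped ZeroObject

namespace Pool.Tube

open Pool.Stab

universe v u

variable (C : Type u) [Category.{v} C] [Preadditive C] [HasZeroObject C] [HasShift C ℤ]
  [∀ n : ℤ, (shiftFunctor C n).Additive] [Pretriangulated C] [IsTriangulated C] [Linear ℂ C]
  [∀ n : ℤ, (shiftFunctor C n).Linear ℂ]

theorem p_PTP (hLHY : Stmt_LHY C) : Stmt_PTP C := by
  intro h σ t δ H Q hQ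
  have hL := hLHY h σ t δ H
  have := h.free
  have := h.finite
  have key : ∀ X : C, σ.Stable (t + 1) X →
      ∃ m : ℕ, cls X = (m : ℤ) • δ ∧ (m = 0 → IsZero X) := by
    intro X hX
    have h2 : eulerForm h.k3 (cls X) (cls X) ≤ 2 := by
      rw [eulerForm_cls]; exact hX.simple.eulerChar_self_le h.k3
    have him : σ.im t (cls X) = 0 := σ.im_of_P hX.1
    have h0 : eulerForm h.k3 (cls X) (cls X) = 0 := by
      have hne : eulerForm h.k3 (cls X) (cls X) ≠ 2 := fun h' => H.imroot _ h' him
      have hnn := hL.psd.nonneg (cls X)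
      obtain ⟨r, hr⟩ := hL.even (cls X)
      omega
    have hrad := hL.psd.mem_radical_of_self h0
    obtain ⟨k, hk⟩ := hL.imrad _ hrad him
    have hre := σ.re_neg_of_P hX.1 hX.2.1
    rw [hk, map_zsmul, zsmul_eq_mul] at hre
    have hkpos : 0 < k := by
      by_contra hcon
      push Not at hcon
      have h3 : (k : ℝ) ≤ 0 := by exact_mod_cast hcon
      have := mul_nonneg_of_nonpos_of_nonpos h3 H.re0.le
      linarith
    refine ⟨k.toNat, ?_, ?_⟩
    · rw [Int.toNat_of_nonneg hkpos.le]; exact hk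
    · intro h'
      omega
  have hgen := σ.gen_stable hQ
  clear hQ
  induction hgen with
  | zero h0 => exact ⟨0, by rw [cls_of_isZero h0]; simp, fun _ => h0⟩
  | of hX => exact key _ hX
  | ext hT _ _ h1 h2 =>
    obtain ⟨a, ha, ha'⟩ := h1
    obtain ⟨b, hb, hb'⟩ := h2
    refine ⟨a + b, ?_, ?_⟩
    · rw [cls_mk hT, ha, hb]; push_cast; rw [add_smul]
    · intro hab
      exact Triangle.isZero₂_of_isZero₁₃ _ hT (ha' (by omega)) (hb' (by omega))

end Pool.Tube
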