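import Pool.Agent.Work.MP_841263_tu.Interface

/-! # Tube structure theorem, block SPH (helper58) -/

set_option autoImplicit false

open CategoryTheory CategoryTheory.Limits CategoryTheory.Pretriangulated
open scoped ZeroObject

namespace Pool.Tube

open Pool.Stab

universe v u

section

variable {C : Type u} [Category.{v} C] [Preadditive C] [HasZeroObject C] [HasShift C ℤ]
  [∀ n : ℤ, (shiftFunctor C n).Additive] [Pretriangulated C] [IsTriangulated C] [Linear ℂ C]
  [∀ n : ℤ, (shiftFunctor C n).Linear ℂ]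

theorem SPH_iso {X Y : C} (e : X ≅ Y) (h : Spherical X) : Spherical Y := by
  refine ⟨?_, ?_⟩
  · rw [← h.1]
    exact LinearEquiv.finrank_eq (Linear.homCongr ℂ e e).symm
  · intro n h0 h2 f
    have h1 := h.2 n h0 h2 (e.hom ≫ f ≫ (shiftFunctor C n).map e.inv)
    have h3 : f = e.inv ≫ (e.hom ≫ f ≫ (shiftFunctor C n).map e.inv) ≫
        (shiftFunctor C n).map e.hom := by
      simp only [Category.assoc, ← Functor.map_comp, Iso.inv_hom_id, Iso.inv_hom_id_assoc]
      rw [CategoryTheory.Functor.map_id, Category.comp_id]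
    rw [h3, h1, zero_comp, comp_zero]

/-- the coordinates of a decomposition of a basis element -/
theorem SPH_coord {K : Type*} [AddCommGroup K] {B : K →+ K →+ ℤ} {im : K →+ ℝ} {δ : K} {n : ℕ}
    {α : Fin n → K} (hS : SimpleRoots B im δ α) (i : Fin n) (k k1 k2 : ℤ) (c1 c2 : Fin n → ℕ)
    (h : α i + k • δ = (k1 • δ + ∑ j, (c1 j : ℤ) • α j) + (k2 • δ + ∑ j, (c2 j : ℤ) • α j)) :
    (∀ j, c1 j = 0) ∨ ∀ j, c2 j = 0 := by
  have h1 := hS.indep (k1 + k2 - k) (fun j => (c1 j : ℤ) + (c2 j : ℤ) - if j = i then 1 else 0) (by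
    have e1 : ∑ j, ((c1 j : ℤ) + (c2 j : ℤ) - if j = i then 1 else 0) • α j =
        ∑ j, (c1 j : ℤ) • α j + ∑ j, (c2 j : ℤ) • α j - α i := by
      have e2 : ∀ j, ((c1 j : ℤ) + (c2 j : ℤ) - if j = i then 1 else 0) • α j =
          (c1 j : ℤ) • α j + (c2 j : ℤ) • α j - (if j = i then α j else 0) := by
        intro j
        rw [sub_smul, add_smul]
        congr 1
        split_ifs
        · rw [one_smul]
        · rw [zero_smul]
      rw [Finset.sum_congr rfl (fun j _ => e2 j), Finset.sum_sub_distrib, Finset.sum_add_distrib,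
        Finset.sum_ite_eq' Finset.univ i α, if_pos (Finset.mem_univ i)]
    rw [e1, sub_smul, add_smul]
    have e3 : k1 • δ + k2 • δ - k • δ +
        (∑ j, (c1 j : ℤ) • α j + ∑ j, (c2 j : ℤ) • α j - α i) =
        ((k1 • δ + ∑ j, (c1 j : ℤ) • α j) + (k2 • δ + ∑ j, (c2 j : ℤ) • α j)) -
          (α i + k • δ) := by abel
    rw [e3, ← h, sub_self])
  have h2 : ∀ j, (c1 j : ℤ) + (c2 j : ℤ) = if j = i then 1 else 0 := fun j => by
    have := h1.2 j
    linarith
  by_cases hi : c1 i = 0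
  · left
    intro j
    by_cases hj : j = i
    · rw [hj]
      exact hi
    · have h3 := h2 j
      rw [if_neg hj] at h3
      omega
  · right
    intro j
    by_cases hj : j = i
    · have h3 := h2 i
      rw [if_pos rfl] at h3
      rw [hj]
      omega
    · have h3 := h2 j
      rw [if_neg hj] at h3
      omega

end

variable (C : Type u) [Category.{v} C] [Preadditive C] [HasZeroObject C] [HasShift C ℤ]
  [∀ n : ℤ, (shiftFunctor C n).Additive] [Pretriangulated C] [IsTriangulated C] [Linear ℂ C]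
  [∀ n : ℤ, (shiftFunctor C n).Linear ℂ]

theorem p_SPH : Stmt_HCL C → Stmt_UNI C → Stmt_EXI C → Stmt_SPH C := by
  intro hHCL hUNI hEXI h σ t δ n α hF i k X hX
  obtain ⟨X0, hX0, hsp, φ, h1, h2, hP⟩ := hEXI h σ t δ n α hF i k
  obtain ⟨e⟩ := hUNI h σ t δ n α hF i k X0 X hX0 hX
  have hPX : σ.sl.P φ X := σ.sl.iso_mem φ e hP
  refine ⟨SPH_iso e hsp, φ, h1, h2, hPX, hX.1.2.1, ?_⟩
  intro Y Z f g w hT hY hZ
  by_contra hcon
  rw [not_or] at hcon
  obtain ⟨hY0, hZ0⟩ := hcon
  have iY := σ.im_pos_of_P hY hY0 h1 h2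
  have iZ := σ.im_pos_of_P hZ hZ0 h1 h2
  obtain ⟨k1, c1, e1⟩ := hHCL h σ t δ n α hF Y (Slicing.heart_of_P hY h1 h2.le)
  obtain ⟨k2, c2, e2⟩ := hHCL h σ t δ n α hF Z (Slicing.heart_of_P hZ h1 h2.le)
  have e3 := cls_mk hT
  rw [hX.2, e1, e2] at e3
  have him0 := hF.im0
  rcases SPH_coord hF.toSimpleRoots i k k1 k2 c1 c2 e3 with hz | hz
  · rw [e1] at iY
    simp only [hz, Nat.cast_zero, zero_smul, Finset.sum_const_zero, add_zero, map_zsmul,
      him0, smul_zero, lt_irrefl] at iY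
  · rw [e2] at iZ
    simp only [hz, Nat.cast_zero, zero_smul, Finset.sum_const_zero, add_zero, map_zsmul,
      him0, smul_zero, lt_irrefl] at iZ

end Pool.Tube
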