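import Mathlib
import Pool.Agent.Work.MP_841263_tu.Interface

open CategoryTheory CategoryTheory.Limits CategoryTheory.Pretriangulated
open scoped ZeroObject

namespace Pool.Tube

open Pool.Stab

universe v u

variable {C : Type u} [Category.{v} C] [Preadditive C] [HasZeroObject C] [HasShift C ℤ]
  [∀ n : ℤ, (shiftFunctor C n).Additive] [Pretriangulated C] [IsTriangulated C] [Linear ℂ C]
  [∀ n : ℤ, (shiftFunctor C n).Linear ℂ]

variable (C)

theorem p_TUB : Stmt_TUB C := by
  intro h σ δ hδ hδ0 hprim hroot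
  haveI := h.finite
  haveI := h.free
  obtain ⟨lam, h1, h2⟩ := exists_im_zero σ δ
  have hnorm : eulerForm h.k3 δ δ ≤ 2 := by
    rw [show eulerForm h.k3 δ δ = 0 from hδ δ]
    norm_num
  have hZ : σ.Z δ ≠ 0 := h.Z_ne_zero σ hnorm hδ0
  set t : ℝ := lam - 1 with ht
  have hpos : 0 < ‖σ.Z δ‖ := norm_pos_iff.2 hZ
  have h3 : σ.Z δ * Complex.exp (-(Real.pi * t * Complex.I)) = -(‖σ.Z δ‖ : ℂ) := by
    rw [σ.Z_eq t δ, h1, h2]
    apply Complex.ext
    · simp
    · simp
  refine ⟨t, ?_, ?_⟩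
  · have h4 : Complex.exp (-(Real.pi * t * Complex.I)) * Complex.exp (Real.pi * t * Complex.I) = 1 := by
      rw [← Complex.exp_add, neg_add_cancel, Complex.exp_zero]
    calc σ.Z δ = σ.Z δ * (Complex.exp (-(Real.pi * t * Complex.I)) *
          Complex.exp (Real.pi * t * Complex.I)) := by rw [h4, mul_one]
      _ = -(‖σ.Z δ‖ : ℂ) * Complex.exp (Real.pi * t * Complex.I) := by
          rw [← mul_assoc, h3]
  · refine ⟨hδ, hδ0, hprim, h1, ?_, ?_⟩
    · rw [h2]
      linarith
    · intro α hα h5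
      apply hroot α hα
      have h6 : σ.Z α * Complex.exp (-(Real.pi * t * Complex.I)) =
          (-(‖σ.Z δ‖ : ℝ) : ℂ) * (σ.Z α / σ.Z δ) := by
        rw [← h3]
        field_simp
      rw [σ.im_apply, h6] at h5
      have h7 : ((-(‖σ.Z δ‖ : ℝ) : ℂ) * (σ.Z α / σ.Z δ)).im = -‖σ.Z δ‖ * (σ.Z α / σ.Z δ).im := by
        rw [Complex.mul_im]
        simp
      rw [h7] at h5
      rcases mul_eq_zero.1 h5 with h8 | h8
      · exact absurd h8 (by
          intro h9
          rw [neg_eq_zero] at h9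
          exact hpos.ne' h9)
      · exact h8

end Pool.Tube
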