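import Pool.Agent.Work.MP_841263_tu.Interface

/-!
# Tube structure theorem: block TWO
-/

open CategoryTheory CategoryTheory.Limits CategoryTheory.Pretriangulated
open scoped ZeroObject

namespace Pool.Tube

open Pool.Stab

universe v u

lemma TWO_rad {K : Type*} [AddCommGroup K] {B : K →+ K →+ ℤ} (hs : ∀ x y, B x y = B y x) {δ : K}
    (hδ : δ ∈ radical B) (a b : K) (k l : ℤ) : B (a + k • δ) (b + l • δ) = B a b := by
  have h1 : ∀ y, B δ y = 0 := mem_radical.1 hδ
  have h2 : ∀ x, B x δ = 0 := fun x => by rw [hs, h1]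
  have h3 : ∀ y, B (k • δ) y = 0 := by
    intro y
    rw [map_zsmul, AddMonoidHom.smul_apply, h1, smul_zero]
  have h4 : ∀ x, B x (l • δ) = 0 := by
    intro x
    rw [map_zsmul, h2, smul_zero]
  rw [map_add (B (a + k • δ)), h4, add_zero, map_add B, AddMonoidHom.add_apply, h3, add_zero]

section cat

variable {C : Type u} [Category.{v} C] [Preadditive C] [HasZeroObject C] [HasShift C ℤ]
  [∀ n : ℤ, (shiftFunctor C n).Additive] [Pretriangulated C] [IsTriangulated C]

omit [IsTriangulated C] in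
lemma TWO_not_isZero_biprod {A B : C} (hA : ¬ IsZero A) : ¬ IsZero (A ⊞ B) := by
  intro h
  apply hA
  rw [IsZero.iff_id_eq_zero, ← biprod.inl_fst (X := A) (Y := B), h.eq_of_tgt biprod.inl 0,
    zero_comp]

lemma TWO_tf_biprod {σ : StabCond C} {t : ℝ} {A B : C} (hA : σ.TF t A) (hB : σ.TF t B) :
    σ.TF t (A ⊞ B) := by
  refine ⟨?_, TWO_not_isZero_biprod hA.2.1, ?_⟩
  · exact Slicing.Heart.ext (binaryBiproductTriangle_distinguished A B) hA.1 hB.1
  · intro T hT f
    apply biprod.hom_ext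
    · rw [zero_comp]
      exact hA.2.2 T hT _
    · rw [zero_comp]
      exact hB.2.2 T hT _

omit [IsTriangulated C] in
lemma TWO_mono {S : Slicing C} {t : ℝ} {K V I W : C} {i : K ⟶ V} {p : V ⟶ I}
    {d : I ⟶ K⟦(1 : ℤ)⟧} (hT : Triangle.mk i p d ∈ distTriang C) (hI : S.Heart t I)
    (hW : S.Heart t W) (u : W ⟶ K) (hu : u ≫ i = 0) : u = 0 := by
  obtain ⟨a, c, hT'⟩ := exists_invrot hT
  obtain ⟨g, hg⟩ := Triangle.coyoneda_exact₂ _ hT' u hu
  have h1 : g = 0 := hW.hom_neg hI (by norm_num) g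
  rw [hg, h1, zero_comp]
  rfl

end cat

/-- TWO -/
theorem p_TWO {C : Type u} [Category.{v} C] [Preadditive C] [HasZeroObject C] [HasShift C ℤ]
    [∀ n : ℤ, (shiftFunctor C n).Additive] [Pretriangulated C] [IsTriangulated C] [Linear ℂ C]
    [∀ n : ℤ, (shiftFunctor C n).Linear ℂ] (hPTP : Stmt_PTP C) (hATM : Stmt_ATM C)
    (hMOR : Stmt_MOR C) (hUNI : Stmt_UNI C) (hSPH : Stmt_SPH C) (hHN2 : Stmt_HN2 C) :
    Stmt_TWO C := by
  intro h σ t δ n α F i k X Y hX hY
  have hK := h.k3
  have hsym := eulerForm_symm hK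
  have hfXY : FiniteDimensional ℂ (X ⟶ Y) := hK.homFinite X Y
  have hXh : σ.sl.Heart t X := hX.1.1
  have hYh : σ.sl.Heart t Y := hY.1.1
  -- the Euler characteristic
  have hchi : Pool.Stab.eulerChar X Y = 2 := by
    rw [← eulerForm_cls hK, hX.2, hY.2, TWO_rad hsym F.rad, F.norm]
  have hYX : ∀ f : Y ⟶ X, f = 0 := by
    intro f
    by_contra hf
    obtain ⟨-, m, -, -, -, hm, -⟩ := hMOR h σ t δ n α F i i (k + 1) k Y X hY hX f hf
    omega
  have hEu := hXh.eulerChar hK hYh
  rw [hchi, finrank_of_forall_zero hYX] at hEu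
  -- not three independent morphisms
  have hle : ¬ 3 ≤ Module.finrank ℂ (X ⟶ Y) := by
    intro h3
    obtain ⟨f, hf⟩ := exists_linearIndependent_of_le_finrank h3
    obtain ⟨hSX, -⟩ := hSPH h σ t δ n α F i k X hX
    -- the map from `V`
    obtain ⟨V, hVdef⟩ : ∃ V : C, V = (X ⊞ (X ⊞ X) : C) := ⟨_, rfl⟩
    subst hVdef
    have hV : σ.TF t (X ⊞ (X ⊞ X) : C) := TWO_tf_biprod hX.1 (TWO_tf_biprod hX.1 hX.1)
    have hclsV : cls (X ⊞ (X ⊞ X) : C) = cls X + (cls X + cls X) := by
      rw [cls_biprod, cls_biprod]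
    obtain ⟨g, hg⟩ : ∃ g : (X ⊞ (X ⊞ X) : C) ⟶ Y,
        g = biprod.desc (f 0) (biprod.desc (f 1) (f 2)) := ⟨_, rfl⟩
    obtain ⟨e, he⟩ : ∃ e : Fin 3 → (X ⟶ (X ⊞ (X ⊞ X) : C)),
        e = ![biprod.inl, biprod.inl ≫ biprod.inr, biprod.inr ≫ biprod.inr] := ⟨_, rfl⟩
    have heg : ∀ a, e a ≫ g = f a := by
      intro a
      rw [he, hg]
      fin_cases a
      · simp
      · simp
      · simp
    obtain ⟨K, I, Q, ι, p, d, jj, q, e', hT1, hT2, hKh, hIh, hQh, hpj⟩ :=
      Slicing.exists_KIQ hV.1 hYh g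
    have hf0 : ∀ a, f a ≠ 0 := fun a => hf.ne_zero a
    have hI0 : ¬ IsZero I := by
      intro hz
      apply hf0 0
      rw [← heg 0, ← hpj, hz.eq_of_tgt p 0, zero_comp, comp_zero]
    have hQP : σ.sl.P (t + 1) Q :=
      ((hATM h σ t δ n α F i (k + 1) Y hY).2 I Q jj q e' hT2 hIh hQh).resolve_left hI0
    have hITF : σ.TF t I := StabCond.TF.sub hT2 hY.1 hIh hQh hI0
    obtain ⟨m, hm, hm0⟩ := hPTP h σ t δ F.toTubeHyp Q hQP
    have hclsI : cls I = α i + (k + 1 - (m : ℤ)) • δ := by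
      have h1 := cls_mk hT2
      rw [hY.2, hm] at h1
      rw [sub_smul]
      rw [← add_sub_assoc, h1, add_sub_cancel_right]
    have hIS : IsS σ t δ α i (k + 1 - (m : ℤ)) I := ⟨hITF, hclsI⟩
    -- the components to `I`
    obtain ⟨u, hu⟩ : ∃ u : Fin 3 → (X ⟶ I), u = fun a => e a ≫ p := ⟨_, rfl⟩
    have huf : ∀ a, u a ≫ jj = f a := by
      intro a
      rw [hu]
      show (e a ≫ p) ≫ jj = f a
      rw [Category.assoc, hpj, heg]
    have hu0 : u 0 ≠ 0 := by
      intro h0
      apply hf0 0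
      rw [← huf, h0, zero_comp]
    obtain ⟨-, m', -, -, -, hm', -⟩ :=
      hMOR h σ t δ n α F i i k (k + 1 - (m : ℤ)) X I hX hIS (u 0) hu0
    have hmle : m = 0 ∨ m = 1 := by omega
    have huind : LinearIndependent ℂ u := by
      have h1 : f = (Linear.rightComp ℂ X jj) ∘ u := by
        funext a
        exact (huf a).symm
      rw [h1] at hf
      exact LinearIndependent.of_comp _ hf
    have hm1 : m = 0 := by
      rcases hmle with h1 | h1
      · exact h1
      · exfalso
        rw [h1] at hIS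
        have hIS' : IsS σ t δ α i k I := by
          have : k + 1 - ((1 : ℕ) : ℤ) = k := by push_cast; ring
          rwa [this] at hIS
        obtain ⟨eXI⟩ := hUNI h σ t δ n α F i k X I hX hIS'
        have h2 : Module.finrank ℂ (X ⟶ I) = 1 := by
          rw [← hSX.1]
          exact LinearEquiv.finrank_eq (Linear.homCongr ℂ (Iso.refl X) eXI.symm)
        have : FiniteDimensional ℂ (X ⟶ I) := hK.homFinite X I
        have h3' := huind.fintype_card_le_finrank
        rw [h2, Fintype.card_fin] at h3'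
        omega
    have hclsK : cls K = (2 : ℤ) • α i + (2 * k - 1) • δ := by
      have h1 := cls_mk hT1
      rw [hclsV, hX.2, hclsI, hm1] at h1
      have h2 : cls K = (α i + k • δ) + ((α i + k • δ) + (α i + k • δ)) -
          (α i + (k + 1 - ((0 : ℕ) : ℤ)) • δ) := by
        rw [h1, add_sub_cancel_right]
      rw [h2]
      push_cast
      module
    have hK0 : ¬ IsZero K := by
      intro hz
      have h1 := cls_of_isZero hz
      have h2 : eulerForm hK (cls K) (α i) = 0 := by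
        rw [h1, map_zero]
        rfl
      have h3' := TWO_rad hsym F.rad ((2 : ℤ) • α i) (α i) (2 * k - 1) 0
      rw [← hclsK, zero_smul, add_zero, h2, map_zsmul, AddMonoidHom.smul_apply, F.norm] at h3'
      norm_num at h3'
    have hKTF : σ.TF t K := StabCond.TF.sub hT1 hV hKh hIh hK0
    -- there are no morphisms from `X` to `K`
    have hEnd : ∀ c : X ⟶ X, ∃ a : ℂ, c = a • 𝟙 X := by
      intro c
      have hid : (𝟙 X : X ⟶ X) ≠ 0 := by
        intro h0
        exact hX.1.2.1 ((IsZero.iff_id_eq_zero X).2 h0)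
      obtain ⟨a, ha⟩ := (finrank_eq_one_iff_of_nonzero' (𝟙 X) hid).1 hSX.1 c
      exact ⟨a, ha.symm⟩
    have hXK : ∀ w : X ⟶ K, w = 0 := by
      intro w
      apply TWO_mono hT1 hIh hXh
      obtain ⟨a0, ha0⟩ := hEnd ((w ≫ ι) ≫ biprod.fst)
      obtain ⟨a1, ha1⟩ := hEnd ((w ≫ ι) ≫ biprod.snd ≫ biprod.fst)
      obtain ⟨a2, ha2⟩ := hEnd ((w ≫ ι) ≫ biprod.snd ≫ biprod.snd)
      have hdec : w ≫ ι = a0 • e 0 + a1 • e 1 + a2 • e 2 := by
        apply biprod.hom_ext
        · rw [ha0, he]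
          simp
        · apply biprod.hom_ext
          · rw [Category.assoc, ha1, he]
            simp
          · rw [Category.assoc, ha2, he]
            simp
      have hz : (w ≫ ι) ≫ g = 0 := by
        have h1 : ι ≫ p = 0 := comp_distTriang_mor_zero₁₂ _ hT1
        rw [← hpj, Category.assoc, ← Category.assoc ι, h1, zero_comp, comp_zero]
      have hrel : a0 • f 0 + a1 • f 1 + a2 • f 2 = 0 := by
        rw [← hz, hdec, Preadditive.add_comp, Preadditive.add_comp, Linear.smul_comp,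
          Linear.smul_comp, Linear.smul_comp, heg, heg, heg]
      have hcoef := Fintype.linearIndependent_iff.1 hf ![a0, a1, a2] (by
        rw [Fin.sum_univ_three]
        exact hrel)
      have h0 : a0 = 0 := hcoef 0
      have h1 : a1 = 0 := hcoef 1
      have h2 : a2 = 0 := hcoef 2
      rw [hdec, h0, h1, h2, zero_smul, zero_smul, zero_smul, add_zero, add_zero]
    -- the morphism of HN2
    obtain ⟨j, J, r, hkj, hJ, hr⟩ := hHN2 h σ t δ n α F i k K hKTF hclsK
    have hrι : r ≫ ι ≠ 0 := fun h0 => hr (TWO_mono hT1 hIh hJ.1.1 r h0)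
    have hcomp : ∃ c : J ⟶ X, c ≠ 0 := by
      by_contra hno
      push Not at hno
      apply hrι
      apply biprod.hom_ext
      · rw [hno ((r ≫ ι) ≫ biprod.fst), zero_comp]
      · apply biprod.hom_ext
        · rw [hno (((r ≫ ι) ≫ biprod.snd) ≫ biprod.fst), zero_comp, zero_comp]
        · rw [hno (((r ≫ ι) ≫ biprod.snd) ≫ biprod.snd), zero_comp, zero_comp]
    obtain ⟨c, hc⟩ := hcomp
    obtain ⟨-, m'', -, -, -, hm'', -⟩ := hMOR h σ t δ n α F i i j k J X hJ hX c hc
    have hjk : j = k := by omega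
    rw [hjk] at hJ
    obtain ⟨eXJ⟩ := hUNI h σ t δ n α F i k X J hX hJ
    apply hr
    have h1 := hXK (eXJ.hom ≫ r)
    rw [← Category.id_comp r, ← eXJ.inv_hom_id, Category.assoc, h1, comp_zero]
  have hfr : Module.finrank ℂ (X ⟶ Y) = 2 := by omega
  refine ⟨hfr, ?_⟩
  intro m hm f
  rcases lt_trichotomy m 0 with h1 | h1 | h1
  · exact hXh.hom_neg hYh h1 f
  · exact absurd h1 hm
  · by_cases h2 : m = 1
    · subst h2
      refine forall_zero_of_finrank hK ?_ f
      omega
    · by_cases h3 : m = 2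
      · subst h3
        refine forall_zero_of_finrank hK ?_ f
        rw [← hK.serre Y X]
        exact finrank_of_forall_zero hYX
      · exact forall_zero_of_finrank hK (hXh.finrank_zero hK hYh (Or.inr (by omega))) f

end Pool.Tube
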