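import Pool.Agent.Work.MP_841263_tu.Interface

set_option autoImplicit false
set_option linter.unusedSectionVars false

/-! # MP_841263, tube structure theorem, block UNI: uniqueness of the objects `S i k` -/

open CategoryTheory CategoryTheory.Limits CategoryTheory.Pretriangulated
open scoped ZeroObject

namespace Pool.Tube

open Pool.Stab

universe v u

variable {C : Type u} [Category.{v} C] [Preadditive C] [HasZeroObject C] [HasShift C ℤ]
  [∀ n : ℤ, (shiftFunctor C n).Additive] [Pretriangulated C] [IsTriangulated C] [Linear ℂ C]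
  [∀ n : ℤ, (shiftFunctor C n).Linear ℂ]

theorem p_UNI (hPTP : Stmt_PTP C) (hMOR : Stmt_MOR C) : Stmt_UNI C := by
  intro h σ t δ n α hF i k X Y hX hY
  have key : ∀ X Y, IsS σ t δ α i k X → IsS σ t δ α i k Y → ∀ f : X ⟶ Y, f ≠ 0 → IsIso f := by
    intro X Y hX hY f hf
    obtain ⟨-, m, Q, g, w, hkm, hQ, hP, hT⟩ := hMOR h σ t δ n α hF i i k k X Y hX hY f hf
    have hm : m = 0 := by omega
    obtain ⟨m', hm', hz⟩ := hPTP h σ t δ hF.toTubeHyp Q hP
    have h0 : (m' : ℤ) = 0 := by
      refine (hF.indep (m' : ℤ) (fun _ => 0) ?_).1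
      rw [← hm', hQ, hm]
      simp
    exact iso_of_isZero₃ hT (hz (by exact_mod_cast h0))
  have hδ : ∀ y, eulerForm h.k3 δ y = 0 := hF.rad
  have hδ' : ∀ y, eulerForm h.k3 y δ = 0 := fun y => by rw [eulerForm_symm, hδ]
  have h2 : eulerChar X Y = 2 := by
    rw [← eulerForm_cls h.k3, hX.2, hY.2]
    simp only [map_add, map_zsmul, AddMonoidHom.add_apply, AddMonoidHom.zsmul_apply, hδ, hδ',
      smul_zero, add_zero]
    exact hF.norm i
  have h3 := Slicing.Heart.eulerChar h.k3 hX.1.1 hY.1.1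
  by_cases hXY : ∀ f : X ⟶ Y, f = 0
  · by_cases hYX : ∀ f : Y ⟶ X, f = 0
    · exfalso
      rw [h2, finrank_of_forall_zero hXY, finrank_of_forall_zero hYX] at h3
      have h4 : (0 : ℤ) ≤ (Module.finrank ℂ (X ⟶ Y⟦(1 : ℤ)⟧) : ℤ) := Int.natCast_nonneg _
      push_cast at h3
      omega
    · push Not at hYX
      obtain ⟨f, hf⟩ := hYX
      have := key Y X hY hX f hf
      exact ⟨(asIso f).symm⟩
  · push Not at hXY
    obtain ⟨f, hf⟩ := hXY
    have := key X Y hX hY f hf
    exact ⟨asIso f⟩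

end Pool.Tube
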