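import Pool.Agent.Work.MP_841263_tu.Interface

open CategoryTheory CategoryTheory.Limits CategoryTheory.Pretriangulated
open scoped ZeroObject

set_option linter.unusedSectionVars false

namespace Pool.Tube

open Pool.Stab

universe v u

section

variable {C : Type u} [Category.{v} C] [Preadditive C] [HasZeroObject C] [HasShift C ℤ]
  [∀ n : ℤ, (shiftFunctor C n).Additive] [Pretriangulated C] [IsTriangulated C] [Linear ℂ C]
  [∀ n : ℤ, (shiftFunctor C n).Linear ℂ]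

lemma UQ1_tf_iso {σ : StabCond C} {t : ℝ} {X Y : C} (h : σ.TF t X) (e : X ≅ Y) :
    σ.TF t Y := by
  refine ⟨h.1.iso e, fun hz => h.2.1 (hz.of_iso e), fun T hT f => ?_⟩
  have h1 := h.2.2 T hT (f ≫ e.inv)
  rw [← cancel_mono e.inv, h1, zero_comp]

lemma UQ1_isS_iso {σ : StabCond C} {t : ℝ} {δ : K0 C} {n : ℕ} {α : Fin n → K0 C} {i : Fin n}
    {k : ℤ} {X Y : C} (h : IsS σ t δ α i k X) (e : X ≅ Y) : IsS σ t δ α i k Y :=
  ⟨UQ1_tf_iso h.1 e, by rw [← cls_iso e]; exact h.2⟩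

lemma UQ1_cone_iso {X Y Z Z' : C} {f : X ⟶ Y} {g : Y ⟶ Z} {h : Z ⟶ X⟦(1 : ℤ)⟧}
    {g' : Y ⟶ Z'} {h' : Z' ⟶ X⟦(1 : ℤ)⟧} (hT : Triangle.mk f g h ∈ distTriang C)
    (hT' : Triangle.mk f g' h' ∈ distTriang C) : Nonempty (Z ≅ Z') := by
  have e := isoTriangleOfIso₁₂ _ _ hT hT' (Iso.refl X) (Iso.refl Y)
    (by change f ≫ 𝟙 Y = 𝟙 X ≫ f; rw [Category.comp_id, Category.id_comp])
  exact ⟨Triangle.π₃.mapIso e⟩

lemma UQ1_cocone_iso {X Y Z X' : C} {f : X ⟶ Y} {g : Y ⟶ Z} {h : Z ⟶ X⟦(1 : ℤ)⟧}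
    {f' : X' ⟶ Y} {h' : Z ⟶ X'⟦(1 : ℤ)⟧} (hT : Triangle.mk f g h ∈ distTriang C)
    (hT' : Triangle.mk f' g h' ∈ distTriang C) : Nonempty (X ≅ X') := by
  have h1 := rot_of_distTriang _ hT
  have h2 := rot_of_distTriang _ hT'
  obtain ⟨e⟩ := UQ1_cone_iso h1 h2
  exact ⟨(shiftFunctor C (1 : ℤ)).preimageIso e⟩

lemma UQ1_basis {X Y : C} (h : Module.finrank ℂ (X ⟶ Y) = 2) :
    ∃ f g : X ⟶ Y, ∀ a b : ℂ, a • f + b • g = 0 → a = 0 ∧ b = 0 := by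
  have : Module.Finite ℂ (X ⟶ Y) := Module.finite_of_finrank_pos (by omega)
  let B := Module.finBasisOfFinrankEq ℂ (X ⟶ Y) h
  refine ⟨B 0, B 1, fun a b hab => ?_⟩
  have h1 := Fintype.linearIndependent_iff.1 B.linearIndependent ![a, b]
    (by simpa [Fin.sum_univ_two] using hab)
  exact ⟨by simpa using h1 0, by simpa using h1 1⟩

end

theorem p_UQ1 {C : Type u} [Category.{v} C] [Preadditive C] [HasZeroObject C] [HasShift C ℤ]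
    [∀ n : ℤ, (shiftFunctor C n).Additive] [Pretriangulated C] [IsTriangulated C] [Linear ℂ C]
    [∀ n : ℤ, (shiftFunctor C n).Linear ℂ] (hTWO : Stmt_TWO C) (hEUL : Stmt_EUL C)
    (hEUD : Stmt_EUD C) : Stmt_UQ1 C := by
  intro h σ τ t δ n α hσ hτ i h0 h1
  have key : ∀ k : ℤ, (∃ X, IsS σ t δ α i k X ∧ IsS τ t δ α i k X) ∧
      (∃ X, IsS σ t δ α i (k + 1) X ∧ IsS τ t δ α i (k + 1) X) := by
    intro k
    induction k using Int.induction_on with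
    | zero => exact ⟨h0, by simpa using h1⟩
    | succ m ih =>
      obtain ⟨⟨X, hX, hX'⟩, ⟨Y, hY, hY'⟩⟩ := ih
      refine ⟨⟨Y, hY, hY'⟩, ?_⟩
      obtain ⟨f, g, hfg⟩ := UQ1_basis (hTWO h σ t δ n α hσ i _ X Y hX hY).1
      obtain ⟨Z, p, q, hZ, hT⟩ := hEUL h σ t δ n α hσ i _ X Y hX hY f g hfg
      obtain ⟨Z', p', q', hZ', hT'⟩ := hEUL h τ t δ n α hτ i _ X Y hX' hY' f g hfg
      obtain ⟨e⟩ := UQ1_cone_iso hT hT'
      have hk : ((m : ℤ) + 1 + 1) = (m : ℤ) + 2 := by ring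
      rw [hk]
      exact ⟨Z, hZ, UQ1_isS_iso hZ' e.symm⟩
    | pred m ih =>
      obtain ⟨⟨X, hX, hX'⟩, ⟨Y, hY, hY'⟩⟩ := ih
      have hk : (-(m : ℤ) - 1 + 1) = -(m : ℤ) := by ring
      rw [hk]
      refine ⟨?_, ⟨X, hX, hX'⟩⟩
      obtain ⟨f, g, hfg⟩ := UQ1_basis (hTWO h σ t δ n α hσ i _ X Y hX hY).1
      obtain ⟨W, w, q, hW, hT⟩ := hEUD h σ t δ n α hσ i _ X Y hX hY f g hfg
      obtain ⟨W', w', q', hW', hT'⟩ := hEUD h τ t δ n α hτ i _ X Y hX' hY' f g hfg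
      obtain ⟨e⟩ := UQ1_cocone_iso hT hT'
      exact ⟨W, hW, UQ1_isS_iso hW' e.symm⟩
  exact fun k => (key k).1

end Pool.Tube
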