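import Mathlib
import Pool.Agent.Work.MP_841263_tu.Interface

/-! UQ2: the heart is determined by the objects `S i k` (uses UNI, PNT, PEN, PTL, GNH). -/

open CategoryTheory CategoryTheory.Limits CategoryTheory.Pretriangulated
open scoped ZeroObject

namespace Pool.Tube

open Pool.Stab

universe v u

theorem UQ2_tf_iso {C : Type u} [Category.{v} C] [Preadditive C] [HasZeroObject C]
    [HasShift C ℤ] [∀ n : ℤ, (shiftFunctor C n).Additive] [Pretriangulated C] {σ : StabCond C}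
    {t : ℝ} {X Y : C} (hX : σ.TF t X) (e : X ≅ Y) : σ.TF t Y := by
  refine ⟨hX.1.iso e, fun h => hX.2.1 (h.of_iso e), ?_⟩
  intro T hT f
  have h1 := hX.2.2 T hT (f ≫ e.inv)
  rw [← cancel_mono e.inv, h1, zero_comp]

theorem p_UQ2 {C : Type u} [Category.{v} C] [Preadditive C] [HasZeroObject C] [HasShift C ℤ]
    [∀ n : ℤ, (shiftFunctor C n).Additive] [Pretriangulated C] [IsTriangulated C] [Linear ℂ C]
    [∀ n : ℤ, (shiftFunctor C n).Linear ℂ] (hUNI : Stmt_UNI C) (hPNT : Stmt_PNT C)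
    (hPEN : Stmt_PEN C) (hPTL : Stmt_PTL C) (hGNH : Stmt_GNH C) : Stmt_UQ2 C := by
  intro h σ τ t δ n α hσ hτ hS X hX
  have key : ∀ (i : Fin n) (k : ℤ) (Y : C), IsS σ t δ α i k Y → IsS τ t δ α i k Y := by
    intro i k Y hY
    obtain ⟨Z, hZ1, hZ2⟩ := hS i k
    obtain ⟨e⟩ := hUNI h σ t δ n α hσ i k Z Y hZ1 hY
    exact ⟨UQ2_tf_iso hZ2.1 e, hY.2⟩
  have main : ∀ Y : C, Gen (fun Y => (∃ i k, IsS σ t δ α i k Y) ∨ σ.Stable (t + 1) Y) Y →
      τ.sl.Heart t Y := by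
    intro Y hY
    induction hY with
    | zero h0 => exact Slicing.heart_of_isZero h0
    | of h0 =>
      rename_i W
      rcases h0 with ⟨i, k, hW⟩ | hW
      · exact (key i k _ hW).1.1
      · obtain ⟨-, i, hi⟩ := hPTL h σ t δ n α hσ W hW
        obtain ⟨A, hA, hA'⟩ := hS i 0
        obtain ⟨B, hB, hB'⟩ := hS i (0 + 1)
        obtain ⟨f, p, q, hf, hT⟩ := hPEN h σ t δ n α hσ i 0 A B W hA hB hW (hi _ B hB)
        have h1 := (hPNT h τ t δ n α hτ i 0 A B hA' hB' f W p q hf hT).1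
        exact Slicing.heart_of_P h1.1 (by linarith) le_rfl
    | ext hT _ _ h1 h2 => exact Slicing.Heart.ext hT h1 h2
  exact main X (hGNH h σ t δ n α hσ X hX)

end Pool.Tube
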