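import Pool.Agent.Work.MP_841263_tu.Interface

/-! # Tube structure theorem, block UQ3: equal hearts and charges -/

open CategoryTheory CategoryTheory.Limits CategoryTheory.Pretriangulated
open scoped ZeroObject

set_option backward.isDefEq.respectTransparency false
set_option backward.defeqAttrib.useBackward true
set_option linter.unusedSectionVars false

namespace Pool.Tube

open Pool.Stab

universe v u

variable {C : Type u} [Category.{v} C] [Preadditive C] [HasZeroObject C] [HasShift C ℤ]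
  [∀ n : ℤ, (shiftFunctor C n).Additive] [Pretriangulated C]

lemma UQ3_shift (S : Slicing C) {φ : ℝ} {X : C} (hX : S.P φ X) (n : ℤ) :
    S.P (φ + n) (X⟦n⟧) := by
  have h1 : S.In ((· + (n : ℝ)) '' {φ}) (X⟦n⟧) :=
    Slicing.In.shift (Slicing.in_of_P hX (Set.mem_singleton φ)) n
  refine Slicing.In.P_of_singleton (h1.mono ?_)
  rintro _ ⟨x, hx, rfl⟩
  have hx' : x = φ := hx
  subst hx'
  exact Set.mem_singleton _

lemma UQ3_unshift (S : Slicing C) {φ : ℝ} {X : C} (n : ℤ) (hX : S.P (φ + n) (X⟦n⟧)) :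
    S.P φ X := by
  have h1 := UQ3_shift S hX (-n)
  have e : (X⟦n⟧)⟦-n⟧ ≅ X := (shiftShiftNeg X n)
  have h2 := S.iso_mem _ e h1
  have h3 : φ + (n : ℝ) + ((-n : ℤ) : ℝ) = φ := by push_cast; ring
  rwa [h3] at h2

variable [IsTriangulated C] [Linear ℂ C] [∀ n : ℤ, (shiftFunctor C n).Linear ℂ]

lemma UQ3_sub_phases (σ : StabCond C) {t ψ : ℝ} {F E Q : C} {f : F ⟶ E} {g : E ⟶ Q}
    (hs : SES (σ.sl.Heart t) f g) (hE : σ.sl.In (Set.Ioi ψ)ᶜ E) : σ.sl.In (Set.Ioi ψ)ᶜ F := by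
  classical
  have hab := σ.sl.heart_ab t
  obtain ⟨l, hl, hI⟩ := hs.1
  obtain ⟨H₁, H₂, a, b, d, hT, hH₁, hH₂⟩ := hl.trunc (Set.Ioi ψ) (isUpperSet_Ioi _)
  have h1 : σ.sl.Heart t H₁ := ⟨_, hH₁, fun φ hφ => hI φ (List.mem_filter.1 hφ).1⟩
  have h2 : σ.sl.Heart t H₂ := ⟨_, hH₂, fun φ hφ => hI φ (List.mem_filter.1 hφ).1⟩
  have h3 : σ.sl.In (Set.Ioi ψ) H₁ :=
    ⟨_, hH₁, fun φ hφ => by simpa using (List.mem_filter.1 hφ).2⟩
  have h4 : σ.sl.In (Set.Ioi ψ)ᶜ H₂ :=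
    ⟨_, hH₂, fun φ hφ => by simpa using (List.mem_filter.1 hφ).2⟩
  have hs' : SES (σ.sl.Heart t) a b := ⟨h1, hs.1, h2, d, hT⟩
  have h5 : a ≫ f = 0 := h3.hom_zero hE (IsUpperSet.sep (isUpperSet_Ioi _)) _
  have h6 : a = 0 := hs.mono hab h1 a h5
  have h7 := isZero_of_SES_left hab hs' h6
  have := iso_of_isZero₁ hT h7
  exact h4.iso (asIso b).symm

lemma UQ3_king_of_P (σ : StabCond C) {t φ : ℝ} {E : C} (hE : σ.sl.P φ E) (h1 : t < φ)
    (h2 : φ ≤ t + 1) : King (σ.sl.Heart t) (lin (σ.im t) (σ.re t) (cls E)) E := by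
  have hH := Slicing.heart_of_P hE h1 h2
  refine ⟨hH, lin_self _ _ _, ?_⟩
  by_cases hE0 : IsZero E
  · intro x hx
    rw [sub_of_isZero (σ.sl.heart_ab t) hE0 hx, map_zero]
  rintro x ⟨F, Q, f, g, hs, rfl⟩
  have h3 := UQ3_sub_phases σ (ψ := φ) hs (Slicing.in_of_P hE (by simp))
  obtain ⟨l, hl, hI⟩ := hs.1
  have hl2 := hl.mem_lower (isUpperSet_Ioi φ) h3
  refine σ.lin_HN_nonneg t hE hE0 hl ?_
  intro ψ hψ
  have h4 := hl2 ψ hψ
  have h5 := hI ψ hψ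
  exact ⟨not_lt.1 h4, by linarith [h5.1]⟩

lemma UQ3_P_of_king (σ : StabCond C) {t : ℝ} {E : C} (hE0 : ¬ IsZero E)
    (hE : King (σ.sl.Heart t) (lin (σ.im t) (σ.re t) (cls E)) E) :
    ∃ φ, t < φ ∧ φ ≤ t + 1 ∧ σ.sl.P φ E := by
  obtain ⟨⟨l, hl, hI⟩, -, hE3⟩ := hE
  cases hl with
  | zero h => exact absurd h hE0
  | @step X _ A φ l hX hφ hA hA0 f g k hT =>
    obtain ⟨h1, h2⟩ := hI φ (by simp)
    have hXH : σ.sl.Heart t X := ⟨l, hX, fun ψ hψ => hI ψ (by simp [hψ])⟩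
    have hAH : σ.sl.Heart t A := Slicing.heart_of_P hA h1 h2
    have hEH : σ.sl.Heart t E := Slicing.Heart.ext hT hXH hAH
    have hs : SES (σ.sl.Heart t) f g := ⟨hXH, hEH, hAH, k, hT⟩
    have h3 := hE3 _ hs.left_mem
    rw [hs.cls_eq, lin_add_left, lin_self, zero_add] at h3
    have h4 := (σ.lin_HN_neg t hA hA0 hX (by
      intro ψ hψ
      have h5 := hφ ψ hψ
      have h6 := hI ψ (by simp [hψ])
      exact ⟨h5, by linarith [h6.2]⟩)).2
    by_cases hnil : l = []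
    · subst hnil
      cases hX with
      | zero h0 =>
        have := iso_of_isZero₁ hT h0
        exact ⟨φ, h1, h2, σ.sl.iso_mem φ (asIso g).symm hA⟩
    · have := h4 hnil
      linarith

lemma UQ3_key (σ τ : StabCond C) (t : ℝ) (hZ : τ.Z = σ.Z)
    (hH : ∀ X, σ.sl.Heart t X ↔ τ.sl.Heart t X) {φ : ℝ} {X : C} (h1 : t < φ) (h2 : φ ≤ t + 1)
    (hX : σ.sl.P φ X) : τ.sl.P φ X := by
  by_cases h0 : IsZero X
  · exact τ.sl.iso_mem φ (h0.iso (isZero_zero C)).symm (τ.sl.zero_mem φ)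
  have him : τ.im t = σ.im t := by
    unfold StabCond.im
    rw [hZ]
  have hre : τ.re t = σ.re t := by
    unfold StabCond.re
    rw [hZ]
  have hA : σ.sl.Heart t = τ.sl.Heart t := funext fun X => propext (hH X)
  have h3 := UQ3_king_of_P σ hX h1 h2
  rw [hA, ← him, ← hre] at h3
  obtain ⟨ψ, h4, h5, hψ⟩ := UQ3_P_of_king τ h0 h3
  obtain ⟨hp, hre1, -⟩ := σ.polar t hX h0
  obtain ⟨-, hre2, -⟩ := τ.polar t hψ h0
  rw [hre, hZ, hre1] at hre2
  have h6 := mul_left_cancel₀ hp.ne' hre2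
  have h7 := Real.injOn_cos
    (⟨by nlinarith [Real.pi_pos], by nlinarith [Real.pi_pos]⟩ :
      Real.pi * (φ - t) ∈ Set.Icc 0 Real.pi)
    (⟨by nlinarith [Real.pi_pos], by nlinarith [Real.pi_pos]⟩ :
      Real.pi * (ψ - t) ∈ Set.Icc 0 Real.pi) h6
  have h8 := mul_left_cancel₀ Real.pi_pos.ne' h7
  have h9 : ψ = φ := by linarith
  rwa [h9] at hψ

lemma UQ3_all (σ τ : StabCond C) (t : ℝ) (hZ : τ.Z = σ.Z)
    (hH : ∀ X, σ.sl.Heart t X ↔ τ.sl.Heart t X) {φ : ℝ} {X : C} (hX : σ.sl.P φ X) :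
    τ.sl.P φ X := by
  have h2 := Int.floor_le (t - φ)
  have h3 := Int.lt_floor_add_one (t - φ)
  refine UQ3_unshift τ.sl (⌊t - φ⌋ + 1) ?_
  refine UQ3_key σ τ t hZ hH ?_ ?_ (UQ3_shift σ.sl hX (⌊t - φ⌋ + 1))
  · push_cast; linarith
  · push_cast; linarith

theorem p_UQ3 {C : Type u} [Category.{v} C] [Preadditive C] [HasZeroObject C] [HasShift C ℤ]
    [∀ n : ℤ, (shiftFunctor C n).Additive] [Pretriangulated C] [IsTriangulated C] [Linear ℂ C]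
    [∀ n : ℤ, (shiftFunctor C n).Linear ℂ] : Stmt_UQ3 C := by
  intro σ τ t hZ hH
  have hP : σ.sl.P = τ.sl.P := by
    funext φ
    funext X
    exact propext ⟨fun h => UQ3_all σ τ t hZ hH h,
      fun h => UQ3_all τ σ t hZ.symm (fun X => (hH X).symm) h⟩
  obtain ⟨⟨P, i1, i2, i3, i4, i5, i6⟩, Z, c1, c2⟩ := σ
  obtain ⟨⟨P', i1', i2', i3', i4', i5', i6'⟩, Z', c1', c2'⟩ := τ
  have h1 : P = P' := hP
  have h2 : Z' = Z := hZ
  subst h1
  subst h2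
  rfl

end Pool.Tube
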