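import Pool.Agent.Work.MP_841263_tu.B_GAP
import Pool.Agent.Work.MP_841263_tu.B_DEC
import Pool.Agent.Work.MP_841263_tu.B_OFF
import Pool.Agent.Work.MP_841263_tu.B_IND
import Pool.Agent.Work.MP_841263_tu.B_FIN
import Pool.Agent.Work.MP_841263_tu.B_OF1
import Pool.Agent.Work.MP_841263_tu.B_BAS
import Pool.Agent.Work.MP_841263_tu.B_LHY
import Pool.Agent.Work.MP_841263_tu.B_PTP
import Pool.Agent.Work.MP_841263_tu.B_HCL
import Pool.Agent.Work.MP_841263_tu.B_ATM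
import Pool.Agent.Work.MP_841263_tu.B_MOR
import Pool.Agent.Work.MP_841263_tu.B_UNI
import Pool.Agent.Work.MP_841263_tu.B_EXI
import Pool.Agent.Work.MP_841263_tu.B_SPH
import Pool.Agent.Work.MP_841263_tu.B_CRO
import Pool.Agent.Work.MP_841263_tu.B_HN2
import Pool.Agent.Work.MP_841263_tu.B_TWO
import Pool.Agent.Work.MP_841263_tu.B_EUL
import Pool.Agent.Work.MP_841263_tu.B_EUD
import Pool.Agent.Work.MP_841263_tu.B_PNT
import Pool.Agent.Work.MP_841263_tu.B_PEN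
import Pool.Agent.Work.MP_841263_tu.B_ONE
import Pool.Agent.Work.MP_841263_tu.B_INJ
import Pool.Agent.Work.MP_841263_tu.B_NAD
import Pool.Agent.Work.MP_841263_tu.B_ADJ
import Pool.Agent.Work.MP_841263_tu.B_GN1
import Pool.Agent.Work.MP_841263_tu.B_ORT
import Pool.Agent.Work.MP_841263_tu.B_PTL
import Pool.Agent.Work.MP_841263_tu.B_GNH
import Pool.Agent.Work.MP_841263_tu.B_GNA
import Pool.Agent.Work.MP_841263_tu.B_TUB
import Pool.Agent.Work.MP_841263_tu.B_TRF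
import Pool.Agent.Work.MP_841263_tu.B_UQ1
import Pool.Agent.Work.MP_841263_tu.B_UQ2
import Pool.Agent.Work.MP_841263_tu.B_UQ3
import Pool.Agent.Work.MP_841263_tu.B_FIB
import Pool.Agent.Work.MP_841263_tu.B_FBS

/-!
# Tube structure theorem: assembly of the blocks
-/

open CategoryTheory CategoryTheory.Limits CategoryTheory.Pretriangulated
open scoped ZeroObject

namespace Pool.Tube

open Pool.Stab

universe v u

theorem c_GAP : Stmt_GAP.{u} := p_GAP 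

theorem c_DEC : Stmt_DEC.{u} := p_DEC c_GAP

theorem c_OFF : Stmt_OFF.{u} := p_OFF 

theorem c_IND : Stmt_IND.{u} := p_IND c_DEC c_OFF

theorem c_FIN : Stmt_FIN.{u} := p_FIN c_IND

theorem c_OF1 : Stmt_OF1.{u} := p_OF1 c_DEC c_OFF

theorem c_BAS : Stmt_BAS.{u} := p_BAS c_DEC c_IND c_FIN c_OF1

section

variable (C : Type u) [Category.{v} C] [Preadditive C] [HasZeroObject C] [HasShift C ℤ]
  [∀ n : ℤ, (shiftFunctor C n).Additive] [Pretriangulated C] [IsTriangulated C] [Linear ℂ C]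
  [∀ n : ℤ, (shiftFunctor C n).Linear ℂ]

theorem c_LHY : Stmt_LHY C := p_LHY (C := C) 

theorem c_PTP : Stmt_PTP C := p_PTP (C := C) (c_LHY C)

theorem c_HCL : Stmt_HCL C := p_HCL (C := C) (c_PTP C)

theorem c_ATM : Stmt_ATM C := p_ATM (C := C) (c_HCL C)

theorem c_MOR : Stmt_MOR C := p_MOR (C := C) (c_PTP C) (c_ATM C)

theorem c_UNI : Stmt_UNI C := p_UNI (C := C) (c_PTP C) (c_MOR C)

theorem c_EXI : Stmt_EXI C := p_EXI (C := C) 

theorem c_SPH : Stmt_SPH C := p_SPH (C := C) (c_HCL C) (c_UNI C) (c_EXI C)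

theorem c_CRO : Stmt_CRO C := p_CRO (C := C) (c_MOR C)

theorem c_HN2 : Stmt_HN2 C := p_HN2 (C := C) (c_HCL C) (c_MOR C) (c_EXI C) (c_SPH C)

theorem c_TWO : Stmt_TWO C := p_TWO (C := C) (c_PTP C) (c_ATM C) (c_MOR C) (c_UNI C) (c_SPH C) (c_HN2 C)

theorem c_EUL : Stmt_EUL C := p_EUL (C := C) (c_PTP C) (c_ATM C) (c_MOR C) (c_UNI C) (c_SPH C)

theorem c_EUD : Stmt_EUD C := p_EUD (C := C) (c_PTP C) (c_ATM C) (c_MOR C) (c_UNI C) (c_SPH C)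

theorem c_PNT : Stmt_PNT C := p_PNT (C := C) (c_PTP C) (c_MOR C)

theorem c_PEN : Stmt_PEN C := p_PEN (C := C) (c_PTP C) (c_TWO C) (c_PNT C)

theorem c_ONE : Stmt_ONE C := p_ONE (C := C) (c_UNI C) (c_EXI C) (c_SPH C) (c_TWO C) (c_PNT C) (c_PEN C)

theorem c_INJ : Stmt_INJ C := p_INJ (C := C) (c_SPH C) (c_PNT C) (c_ONE C)

theorem c_NAD : Stmt_NAD C := p_NAD (C := C) (c_CRO C) (c_PEN C) (c_ONE C) (c_EXI C)

theorem c_ADJ : Stmt_ADJ C := p_ADJ (C := C) (c_CRO C) (c_TWO C) (c_EUD C) (c_PNT C) (c_PEN C) (c_EXI C)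

theorem c_GN1 : Stmt_GN1 C := p_GN1 (C := C) (c_PTP C) (c_HCL C) (c_MOR C) (c_UNI C) (c_ATM C) (c_EXI C)

theorem c_ORT : Stmt_ORT C := p_ORT (C := C) (c_GN1 C) (c_PEN C) (c_EXI C) (c_SPH C)

theorem c_PTL : Stmt_PTL C := p_PTL (C := C) (c_ORT C) (c_EXI C) (c_PTP C) (c_PNT C) (c_PEN C) (c_ONE C)

theorem c_GNH : Stmt_GNH C := p_GNH (C := C) (c_GN1 C) (c_ORT C)

theorem c_GNA : Stmt_GNA C := p_GNA (C := C) (c_GNH C) (c_PTL C) (c_EXI C) (c_UNI C) (c_TWO C) (c_EUL C) (c_EUD C) (c_PEN C)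

theorem c_TUB : Stmt_TUB C := p_TUB (C := C) 

theorem c_TRF : Stmt_TRF C := p_TRF (C := C) 

theorem c_UQ1 : Stmt_UQ1 C := p_UQ1 (C := C) (c_TWO C) (c_EUL C) (c_EUD C)

theorem c_UQ2 : Stmt_UQ2 C := p_UQ2 (C := C) (c_UNI C) (c_PNT C) (c_PEN C) (c_PTL C) (c_GNH C)

theorem c_UQ3 : Stmt_UQ3 C := p_UQ3 (C := C) 

theorem c_FIB : Stmt_FIB C := p_FIB (C := C) (c_EXI C) (c_SPH C) (c_TWO C) (c_CRO C) (c_EUL C) (c_UNI C) (c_PNT C) (c_PEN C) (c_ONE C) (c_INJ C) (c_NAD C) (c_ADJ C) (c_PTL C) (c_GNH C) (c_GNA C)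

theorem c_FBS : Stmt_FBS C := p_FBS (C := C) 

end

end Pool.Tube
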