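import Pool.Agent.Work.MP_841263_tu.Interface2

/-! # Tube structure theorem, block CEL (helper58) -/

set_option autoImplicit false

open CategoryTheory CategoryTheory.Limits CategoryTheory.Pretriangulated
open scoped ZeroObject
open Topology Filter

namespace Pool.Tube

open Pool.Stab

universe v u

section

variable {C : Type u} [Category.{v} C] [Preadditive C] [HasZeroObject C] [HasShift C ℤ]
  [∀ n : ℤ, (shiftFunctor C n).Additive] [Pretriangulated C] [IsTriangulated C] [Linear ℂ C]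
  [∀ n : ℤ, (shiftFunctor C n).Linear ℂ]

omit [IsTriangulated C] [Linear ℂ C] [∀ n : ℤ, (shiftFunctor C n).Linear ℂ] in
theorem CEL_iso {σ : StabCond C} {t : ℝ} {δ : K0 C} {n : ℕ} {α : Fin n → K0 C} {i : Fin n}
    {k : ℤ} {X Y : C} (e : X ≅ Y) (hX : IsS σ t δ α i k X) : IsS σ t δ α i k Y := by
  refine ⟨⟨hX.1.1.iso e, fun hz => hX.1.2.1 (hz.of_iso e), ?_⟩, by rw [← cls_iso e]; exact hX.2⟩
  intro T hT f
  have h1 := hX.1.2.2 T hT (f ≫ e.inv)
  rw [← Category.comp_id f, ← e.inv_hom_id, ← Category.assoc, h1, zero_comp]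

omit [IsTriangulated C] [Linear ℂ C] [∀ n : ℤ, (shiftFunctor C n).Linear ℂ] in
theorem CEL_self {σ : StabCond C} {t : ℝ} {δ : K0 C} {n : ℕ} {α : Fin n → K0 C}
    (h0 : σ.im t δ = 0) (h1 : σ.re t δ < 0) (hpos : ∀ i, 0 < σ.im t (α i)) :
    InCell t δ α σ.Z := by
  refine ⟨⟨-σ.re t δ, by linarith, ?_⟩, fun i => hpos i⟩
  have h2 := σ.Z_eq t δ
  rw [h0] at h2
  have h3 : (⟨σ.re t δ, 0⟩ : ℂ) = (σ.re t δ : ℂ) := rfl
  rw [h3] at h2
  have h4 : Complex.exp (-(Real.pi * t * Complex.I)) * Complex.exp (Real.pi * t * Complex.I) = 1 := by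
    rw [← Complex.exp_add, neg_add_cancel, Complex.exp_zero]
  calc σ.Z δ = σ.Z δ * (Complex.exp (-(Real.pi * t * Complex.I)) *
        Complex.exp (Real.pi * t * Complex.I)) := by rw [h4, mul_one]
    _ = (σ.Z δ * Complex.exp (-(Real.pi * t * Complex.I))) *
        Complex.exp (Real.pi * t * Complex.I) := by ring
    _ = -((-σ.re t δ : ℝ) : ℂ) * Complex.exp (Real.pi * t * Complex.I) := by
        rw [h2]; push_cast; ring

/-- the segment between two charges -/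
noncomputable def CEL_seg (V W : K0 C →+ ℂ) (s : ℝ) : K0 C →+ ℂ :=
  gl ((1 - s : ℝ) : ℂ) 0 V + gl (s : ℂ) 0 W

omit [IsTriangulated C] [Linear ℂ C] [∀ n : ℤ, (shiftFunctor C n).Linear ℂ] in
theorem CEL_seg_apply (V W : K0 C →+ ℂ) (s : ℝ) (x : K0 C) :
    CEL_seg V W s x = ((1 - s : ℝ) : ℂ) * V x + (s : ℂ) * W x := by
  simp [CEL_seg, gl_apply]

omit [IsTriangulated C] [Linear ℂ C] [∀ n : ℤ, (shiftFunctor C n).Linear ℂ] in
theorem CEL_conv {t : ℝ} {δ : K0 C} {n : ℕ} {α : Fin n → K0 C} {V W : K0 C →+ ℂ}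
    (hV : InCell t δ α V) (hW : InCell t δ α W) {s : ℝ} (h0 : 0 ≤ s) (h1 : s ≤ 1) :
    InCell t δ α (CEL_seg V W s) := by
  obtain ⟨⟨r, hr, e1⟩, hV2⟩ := hV
  obtain ⟨⟨r', hr', e2⟩, hW2⟩ := hW
  have key : ∀ a b : ℝ, 0 < a → 0 < b → 0 < (1 - s) * a + s * b := by
    intro a b ha hb
    rcases eq_or_lt_of_le h0 with h | h
    · rw [← h]; linarith
    · have h2 := mul_nonneg (sub_nonneg.2 h1) ha.le
      have h3 := mul_pos h hb
      linarith
  refine ⟨⟨(1 - s) * r + s * r', key r r' hr hr', ?_⟩, fun i => ?_⟩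
  · rw [CEL_seg_apply, e1, e2]
    push_cast
    ring
  · rw [CEL_seg_apply]
    have h2 : (((1 - s : ℝ) : ℂ) * V (α i) + (s : ℂ) * W (α i)) *
        Complex.exp (-(Real.pi * t * Complex.I)) =
        ((1 - s : ℝ) : ℂ) * (V (α i) * Complex.exp (-(Real.pi * t * Complex.I))) +
        (s : ℂ) * (W (α i) * Complex.exp (-(Real.pi * t * Complex.I))) := by ring
    rw [h2, Complex.add_im, Complex.im_ofReal_mul, Complex.im_ofReal_mul]
    exact key _ _ (hV2 i) (hW2 i)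

theorem p_CEL : Stmt_XRG C → Stmt_OPN C → Stmt_UNI C → Stmt_EXI C → Stmt_CEL C := by
  intro hXRG hOPN hUNI hEXI h σ t δ n α hF W hW
  have hσ : InCell t δ α σ.Z := CEL_self hF.im0 hF.re0 hF.pos
  have hcell : ∀ s : unitInterval, InCell t δ α (CEL_seg σ.Z W s) := fun s =>
    CEL_conv hσ hW s.2.1 s.2.2
  obtain ⟨γ, hγ⟩ : ∃ γ : C(unitInterval, Xreg (eulerForm h.k3)),
      ∀ s, (γ s).1 = CEL_seg σ.Z W s := by
    refine ⟨⟨fun s => ⟨CEL_seg σ.Z W s, (hXRG h σ t δ n α hF _ (hcell s)).1⟩, ?_⟩, fun s => rfl⟩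
    refine Continuous.subtype_mk ?_ _
    rw [continuous_hom_iff]
    intro x
    simp only [CEL_seg_apply]
    fun_prop
  have hγ0 : γ 0 = h.period σ := by
    apply Subtype.ext
    rw [hγ]
    ext x
    rw [CEL_seg_apply]
    simp [EllipticSetting.period]
  have cov := h.isCoveringMap_period
  obtain ⟨Γ, hΓ0, hΓ⟩ : ∃ Γ : C(unitInterval, StabCond C), Γ 0 = σ ∧ ∀ s, h.period (Γ s) = γ s :=
    ⟨cov.liftPath γ σ hγ0, cov.liftPath_zero _ _ _, fun s =>
      congrFun (cov.liftPath_lifts γ σ hγ0) s⟩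
  have hZ : ∀ s, (Γ s).Z = CEL_seg σ.Z W s := fun s => by
    rw [← hγ s, ← hΓ s]
    rfl
  have hFs : ∀ s, Frame h (Γ s) t δ α := fun s =>
    (hXRG h σ t δ n α hF _ (hcell s)).2 (Γ s) (hZ s)
  have hopen : ∀ i (k : ℤ) X, IsOpen {s | IsS (Γ s) t δ α i k X} := by
    intro i k X
    rw [isOpen_iff_mem_nhds]
    intro s₀ hs₀
    obtain ⟨ε, hε, h1⟩ := hOPN h (Γ s₀) t δ n α (hFs s₀) i k X hs₀
    have h2 := h.covData.ball_mem (Γ s₀) hε
    have h3 := Γ.continuous.continuousAt h2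
    exact mem_of_superset h3 (fun s hs => h1 (Γ s) hs)
  have hZ1 : (Γ 1).Z = W := by
    rw [hZ]
    ext x
    rw [CEL_seg_apply]
    simp
  refine ⟨Γ 1, hZ1, ⟨⟨Γ, hΓ0, rfl⟩⟩, hFs 1, fun i k X hX => ?_⟩
  have hcl : IsClopen {s | IsS (Γ s) t δ α i k X} := by
    refine ⟨?_, hopen i k X⟩
    rw [← isOpen_compl_iff, isOpen_iff_mem_nhds]
    intro s₀ hs₀
    obtain ⟨Y, hY, -⟩ := hEXI h (Γ s₀) t δ n α (hFs s₀) i k
    refine mem_of_superset ((hopen i k Y).mem_nhds hY) (fun s hs hs' => hs₀ ?_)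
    obtain ⟨e⟩ := hUNI h (Γ s) t δ n α (hFs s) i k Y X hs hs'
    exact CEL_iso e hY
  have hne : (0 : unitInterval) ∈ {s | IsS (Γ s) t δ α i k X} := by
    show IsS (Γ 0) t δ α i k X
    rw [hΓ0]
    exact hX
  have huniv := hcl.eq_univ ⟨0, hne⟩
  have : (1 : unitInterval) ∈ {s | IsS (Γ s) t δ α i k X} := by
    rw [huniv]
    trivial
  exact this

end

end Pool.Tube
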