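import Mathlib
import Pool.Agent.Work.MP_841263_tu.Interface
import Pool.Agent.Work.MP_841263_c.Crit

/-!
# Tube structure theorem, part 2: the chambers are cells

Library: `Pool.Agent.Work.MP_841263_c` (imported): `Xreg`, `rotIm`, `EllipticSetting.period`,
`EllipticSetting.isCoveringMap_period`, `EllipticSetting.mem_Xreg`,
`EllipticSetting.covData` (with `CovData.ball_mem`), `StabCond.near_of_phaseDist`,
`StabCond.phaseDist_comm`, `continuous_hom_iff`, `StabCond.im_congr`, `IsCoveringMap.liftPath`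
(see `exists_joined_lift` in `c/Crit.lean` for its use).
-/

open CategoryTheory CategoryTheory.Limits CategoryTheory.Pretriangulated
open scoped ZeroObject

namespace Pool.Tube

open Pool.Stab

universe v u

section

variable (C : Type u) [Category.{v} C] [Preadditive C] [HasZeroObject C] [HasShift C ℤ]
  [∀ n : ℤ, (shiftFunctor C n).Additive] [Pretriangulated C] [IsTriangulated C] [Linear ℂ C]
  [∀ n : ℤ, (shiftFunctor C n).Linear ℂ]

/-- The charges of the chamber: `W δ` has the same phase `t + 1`, and all `W (α i)` are in the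
upper half plane rotated by `π t`. -/
def InCell {C : Type u} [Category.{v} C] [Preadditive C] [HasZeroObject C] [HasShift C ℤ]
    [∀ n : ℤ, (shiftFunctor C n).Additive] [Pretriangulated C] (t : ℝ) (δ : K0 C) {n : ℕ}
    (α : Fin n → K0 C) (W : K0 C →+ ℂ) : Prop :=
  (∃ r : ℝ, 0 < r ∧ W δ = -(r : ℂ) * Complex.exp (Real.pi * t * Complex.I)) ∧
    ∀ i, 0 < (W (α i) * Complex.exp (-(Real.pi * t * Complex.I))).im

/-- RNK. By `span` and `indep` the family `δ, α 0, …, α (n - 1)` is a basis of `K0 C`. -/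
def Stmt_RNK : Prop := ∀ (h : EllipticSetting C) (σ : StabCond C) (t : ℝ) (δ : K0 C) (n : ℕ)
  (α : Fin n → K0 C), Frame h σ t δ α → Module.finrank ℤ (K0 C) = n + 1

/-- XRG (uses LHY). Write `im W` for `rotIm W t`; `im W δ = 0` and the real part of the rotated
`W δ` is `- r < 0`. Sign principle (S): if `χ(x, x) ≤ 2` and `0 < σ.im t x`, then `0 < im W x`:
`x = k • δ + ∑ c i • α i` with `c i ∈ ℕ` (`nonneg`), the `c i` are not all zero since
`σ.im t δ = 0`, so `im W x = ∑ c i im W (α i)` is positive. If `χ(x, x) ≤ 2` and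
`σ.im t x = 0`, then `x` is not a root (`imroot`), so (psd, even) `χ(x, x) = 0`, `x` is in the
radical and `x = k • δ` by `imrad` (LHY), so `im W x = 0`. Hence for `χ(x, x) ≤ 2` the numbers
`im W x` and `σ.im t x` have the same sign. `Frame` for `τ` with `τ.Z = W`: `imroot` and `nonneg`
by (S), the rest is immediate (`τ.im t = rotIm W t`). `Xreg`: `W` does not vanish on roots by (S).
Let `r, s` be `ℤ`-independent in the radical and suppose that `W r, W s` are not
`ℝ`-independent. As the radical has rank 2, `N • δ = a • r + b • s` with `N ≠ 0`, so `W δ ≠ 0` is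
in the real span of `W r, W s`, which is one-dimensional (or zero); so `W r`, `W s` are real
multiples of `W δ`, `im W r = im W s = 0`, so `σ.im t r = σ.im t s = 0` by (S) (the radical
elements have norm 0), so `r` and `s` are multiples of `δ` by `imrad`, against independence. -/
def Stmt_XRG : Prop := ∀ (h : EllipticSetting C) (σ : StabCond C) (t : ℝ) (δ : K0 C) (n : ℕ)
  (α : Fin n → K0 C), Frame h σ t δ α → ∀ W : K0 C →+ ℂ, InCell t δ α W →
    W ∈ Xreg (eulerForm h.k3) ∧ ∀ τ : StabCond C, τ.Z = W → Frame h τ t δ α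

/-- OPN (uses SPH). `X` is stable of some phase `φ` with `t < φ < t + 1`. Take `ε = ofReal e`,
`e` half of the minimum of `φ - t` and `t + 1 - φ`. If `τ.phaseDist σ < ε`, then
`near_of_phaseDist` gives `τ.sl.In (Set.Icc (φ - e) (φ + e)) X`, so
`τ.sl.In (Set.Ioo t (t + 1)) X`, and `tf_of_in` (`X` is not zero, `TF`). -/
def Stmt_OPN : Prop := ∀ (h : EllipticSetting C) (σ : StabCond C) (t : ℝ) (δ : K0 C) (n : ℕ)
  (α : Fin n → K0 C), Frame h σ t δ α → ∀ i (k : ℤ) X, IsS σ t δ α i k X →
    ∃ ε : ENNReal, 0 < ε ∧ ∀ τ : StabCond C, τ.phaseDist σ < ε → IsS τ t δ α i k X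

/-- CEL (uses XRG, OPN, UNI, EXI). `W s = (1 - s) σ.Z + s W` is in the cell for all `s ∈ [0, 1]`
(both conditions are convex; `σ.Z` is in the cell: `re0`, `im0` give `r = - σ.re t δ`), so in
`Xreg` (XRG), and `s ↦ W s` is a continuous path in `Xreg` from `h.period σ` to `W`
(`continuous_hom_iff`). Lift it to a path `Γ` in `StabCond C` with `Γ 0 = σ`
(`h.isCoveringMap_period.liftPath`, as in `exists_joined_lift`); `τ = Γ 1`, `Joined σ τ`. For all
`s`, `Frame h (Γ s) t δ α` by XRG. Let `X` be `IsS σ t δ α i k X`. The set `A` of all `s` with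
`IsS (Γ s) t δ α i k X` contains `0`. It is open: OPN at `Γ s₀` and continuity of `Γ`
(`covData.ball_mem`). The complement is open: let `s₀ ∉ A`, and `Y` be an `IsS (Γ s₀)` object
(EXI); for `s` near `s₀`, `Y` is `IsS (Γ s)` (OPN); if `X` were too, `X ≅ Y` (UNI for `Γ s`), and
`X` would be `IsS (Γ s₀)` (`TF` and `cls` are invariant under isomorphisms). So `A` is everything
(`[0, 1]` is connected, `IsClopen.eq_univ`). -/
def Stmt_CEL : Prop := ∀ (h : EllipticSetting C) (σ : StabCond C) (t : ℝ) (δ : K0 C) (n : ℕ)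
  (α : Fin n → K0 C), Frame h σ t δ α → ∀ W : K0 C →+ ℂ, InCell t δ α W →
    ∃ τ : StabCond C, τ.Z = W ∧ Joined σ τ ∧ Frame h τ t δ α ∧
      ∀ i (k : ℤ) X, IsS σ t δ α i k X → IsS τ t δ α i k X

end

end Pool.Tube
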