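import Mathlib
import Pool.Agent.Work.MP_841263_tu.Interface2

open CategoryTheory CategoryTheory.Limits CategoryTheory.Pretriangulated
open scoped ZeroObject

namespace Pool.Tube

open Pool.Stab

universe v u

/-- OPN: the objects `S i k` stay stable nearby. -/
theorem p_OPN {C : Type u} [Category.{v} C] [Preadditive C] [HasZeroObject C] [HasShift C ℤ]
    [∀ n : ℤ, (shiftFunctor C n).Additive] [Pretriangulated C] [IsTriangulated C] [Linear ℂ C]
    [∀ n : ℤ, (shiftFunctor C n).Linear ℂ] (hSPH : Stmt_SPH C) : Stmt_OPN C := by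
  intro h σ t δ n α F i k X hX
  obtain ⟨-, φ, h1, h2, hst⟩ := hSPH h σ t δ n α F i k X hX
  set e : ℝ := min (φ - t) (t + 1 - φ) / 2 with he
  have he0 : 0 < e := by
    have : 0 < min (φ - t) (t + 1 - φ) := lt_min (by linarith) (by linarith)
    positivity
  have he1 : e < φ - t := by
    have := min_le_left (φ - t) (t + 1 - φ)
    have h3 : 0 < φ - t := by linarith
    rw [he]; linarith
  have he2 : e < t + 1 - φ := by
    have := min_le_right (φ - t) (t + 1 - φ)
    have h3 : 0 < t + 1 - φ := by linarith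
    rw [he]; linarith
  refine ⟨ENNReal.ofReal e, ENNReal.ofReal_pos.2 he0, fun τ hτ => ?_⟩
  have hn := StabCond.near_of_phaseDist (σ := τ) (τ := σ) he0.le hτ.le φ X hst.1
  refine ⟨τ.tf_of_in (hn.mono ?_) hX.1.2.1, hX.2⟩
  intro ψ hψ
  have a1 := hψ.1
  have a2 := hψ.2
  exact ⟨by linarith, by linarith⟩

end Pool.Tube
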