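import Pool.Agent.Work.MP_841263_tu.Interface2

/-!
# Tube structure theorem, part 2: block RNK
-/

open CategoryTheory CategoryTheory.Limits CategoryTheory.Pretriangulated
open scoped ZeroObject

namespace Pool.Tube

open Pool.Stab

universe v u

variable {C : Type u} [Category.{v} C] [Preadditive C] [HasZeroObject C] [HasShift C ℤ]
  [∀ n : ℤ, (shiftFunctor C n).Additive] [Pretriangulated C] [IsTriangulated C] [Linear ℂ C]
  [∀ n : ℤ, (shiftFunctor C n).Linear ℂ]

theorem p_RNK : Stmt_RNK C := by
  intro h σ t δ n α hF
  let v : Option (Fin n) → K0 C := fun o => o.elim δ α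
  have hli : LinearIndependent ℤ v := by
    rw [Fintype.linearIndependent_iff]
    intro g hg
    have h1 : g none • δ + ∑ i, g (some i) • α i = 0 := by
      rw [Fintype.sum_option] at hg
      exact hg
    obtain ⟨h2, h3⟩ := hF.indep (g none) (fun i => g (some i)) h1
    intro o
    cases o with
    | none => exact h2
    | some i => exact h3 i
  have hsp : ⊤ ≤ Submodule.span ℤ (Set.range v) := by
    intro x _
    obtain ⟨k, c, hx⟩ := hF.span x
    rw [hx]
    refine Submodule.add_mem _ (Submodule.smul_mem _ _ (Submodule.subset_span ⟨none, rfl⟩)) ?_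
    exact Submodule.sum_mem _ fun i _ =>
      Submodule.smul_mem _ _ (Submodule.subset_span ⟨some i, rfl⟩)
  let b := Module.Basis.mk hli hsp
  rw [Module.finrank_eq_card_basis b, Fintype.card_option, Fintype.card_fin]

end Pool.Tube
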