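import Mathlib
import Pool.Agent.Work.MP_841263_tu.Interface2

/-!
# Block XRG: the charges of the chamber are regular, and the frame is constant
-/

open CategoryTheory CategoryTheory.Limits CategoryTheory.Pretriangulated
open scoped ZeroObject

namespace Pool.Tube

open Pool.Stab

universe v u

section

/-- The rotated value of `W δ`. -/
theorem XRG_rot {t r : ℝ} {z : ℂ} (hz : z = -(r : ℂ) * Complex.exp (Real.pi * t * Complex.I)) :
    z * Complex.exp (-(Real.pi * t * Complex.I)) = ((-r : ℝ) : ℂ) := by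
  rw [hz, mul_assoc, ← Complex.exp_add, add_neg_cancel, Complex.exp_zero, mul_one]
  push_cast
  ring

/-- The determinant of `w` and `z = -r exp (π t i)`. -/
theorem XRG_det {t r : ℝ} {z w : ℂ} (hr : r ≠ 0)
    (hz : z = -(r : ℂ) * Complex.exp (Real.pi * t * Complex.I))
    (h : ((starRingEnd ℂ) w * z).im = 0) :
    (w * Complex.exp (-(Real.pi * t * Complex.I))).im = 0 := by
  have e1 : (starRingEnd ℂ) (w * Complex.exp (-(Real.pi * t * Complex.I))) =
      (starRingEnd ℂ) w * Complex.exp (Real.pi * t * Complex.I) := by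
    rw [map_mul, ← Complex.exp_conj]
    congr 2
    simp
  have e2 : (starRingEnd ℂ) w * z =
      ((-r : ℝ) : ℂ) * (starRingEnd ℂ) (w * Complex.exp (-(Real.pi * t * Complex.I))) := by
    rw [e1, hz]
    push_cast
    ring
  rw [e2, Complex.im_ofReal_mul, Complex.conj_im, mul_neg, neg_mul, neg_neg, mul_eq_zero] at h
  exact h.resolve_left hr

variable {K : Type u} [AddCommGroup K]

/-- Sign principle, positive case. -/
theorem XRG_pos {B : K →+ K →+ ℤ} {im I : K →+ ℝ} {δ : K} {n : ℕ} {α : Fin n → K}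
    (hnon : ∀ x : K, B x x ≤ 2 → 0 < im x →
      ∃ (k : ℤ) (c : Fin n → ℕ), x = k • δ + ∑ i, (c i : ℤ) • α i)
    (him0 : im δ = 0) (hI0 : I δ = 0) (hpos : ∀ i, 0 < I (α i)) {x : K} (hx : B x x ≤ 2)
    (h : 0 < im x) : 0 < I x := by
  obtain ⟨k, c, rfl⟩ := hnon x hx h
  rw [map_add, map_zsmul, him0, smul_zero, zero_add, map_sum] at h
  rw [map_add, map_zsmul, hI0, smul_zero, zero_add, map_sum]
  have hex : ∃ i, c i ≠ 0 := by
    by_contra hcon
    push Not at hcon
    rw [Finset.sum_eq_zero] at h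
    · exact lt_irrefl _ h
    · intro i _
      rw [hcon i]
      simp
  obtain ⟨i, hi⟩ := hex
  refine Finset.sum_pos' (fun j _ => ?_) ⟨i, Finset.mem_univ i, ?_⟩
  · rw [map_zsmul, zsmul_eq_mul]
    have := (hpos j).le
    positivity
  · rw [map_zsmul, zsmul_eq_mul]
    have h1 := hpos i
    have h2 : 0 < c i := Nat.pos_of_ne_zero hi
    have h3 : (0 : ℝ) < (((c i : ℕ) : ℤ) : ℝ) := by exact_mod_cast h2
    exact mul_pos h3 h1

end

theorem p_XRG {C : Type u} [Category.{v} C] [Preadditive C] [HasZeroObject C] [HasShift C ℤ]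
    [∀ n : ℤ, (shiftFunctor C n).Additive] [Pretriangulated C] [IsTriangulated C] [Linear ℂ C]
    [∀ n : ℤ, (shiftFunctor C n).Linear ℂ] (hLHY : Stmt_LHY C) : Stmt_XRG C := by
  intro h σ t δ n α F W hW
  have := h.finite
  have := h.free
  obtain ⟨⟨ρ, hρ, hδ⟩, hpos⟩ := hW
  have L := hLHY h σ t δ F.toTubeHyp
  have hI0 : rotIm W t δ = 0 := by
    rw [rotIm_apply, XRG_rot hδ, Complex.ofReal_im]
  -- the sign principle
  have hP : ∀ x, eulerForm h.k3 x x ≤ 2 → 0 < σ.im t x → 0 < rotIm W t x := fun x hx hx0 =>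
    XRG_pos F.nonneg F.im0 hI0 hpos hx hx0
  have hZ : ∀ x, eulerForm h.k3 x x ≤ 2 → σ.im t x = 0 → rotIm W t x = 0 := by
    intro x hx hx0
    obtain ⟨m, hm⟩ := L.even x
    have h1 := L.psd.nonneg x
    have h2 : eulerForm h.k3 x x = 0 ∨ eulerForm h.k3 x x = 2 := by omega
    rcases h2 with h2 | h2
    · obtain ⟨k, hk⟩ := L.imrad x (L.psd.mem_radical_of_self h2) hx0
      rw [hk, map_zsmul, hI0, smul_zero]
    · exact absurd hx0 (L.imroot x h2)
  have hneg : ∀ x, eulerForm h.k3 (-x) (-x) = eulerForm h.k3 x x := fun x => by simp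
  have hN : ∀ x, eulerForm h.k3 x x ≤ 2 → σ.im t x < 0 → rotIm W t x < 0 := by
    intro x hx hx0
    have h1 := hP (-x) (by rw [hneg]; exact hx) (by rw [map_neg]; linarith)
    rw [map_neg] at h1
    linarith
  have hS0 : ∀ x, eulerForm h.k3 x x ≤ 2 → rotIm W t x = 0 → σ.im t x = 0 := by
    intro x hx hx0
    rcases lt_trichotomy (σ.im t x) 0 with h1 | h1 | h1
    · exact absurd hx0 (hN x hx h1).ne
    · exact h1
    · exact absurd hx0 (hP x hx h1).ne'
  have hSP : ∀ x, eulerForm h.k3 x x ≤ 2 → 0 < rotIm W t x → 0 < σ.im t x := by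
    intro x hx hx0
    rcases lt_trichotomy (σ.im t x) 0 with h1 | h1 | h1
    · exact absurd hx0 (hN x hx h1).le.not_gt
    · exact absurd (hZ x hx h1) hx0.ne'
    · exact h1
  have hroot : ∀ x, eulerForm h.k3 x x = 2 → rotIm W t x ≠ 0 := fun x hx h0 =>
    F.imroot x hx (hS0 x hx.le h0)
  refine ⟨⟨fun x hx h0 => hroot x hx ?_, ?_⟩, ?_⟩
  · rw [rotIm_apply, h0, zero_mul, Complex.zero_im]
  · intro r hr s hs hrs
    rw [orient_iff]
    intro ho
    rw [LinearIndependent.pair_iff] at hrs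
    have hind : ∀ n m : ℤ, n • r = m • s → n = 0 ∧ m = 0 := by
      intro a b hab
      have h1 := hrs a (-b) (by rw [neg_smul, hab]; abel)
      exact ⟨h1.1, by simpa using h1.2⟩
    obtain ⟨N, a, b, hN0, hN1⟩ :=
      exists_dep_of_finrank_two (radical (eulerForm h.k3)) h.rank F.rad hr hs hind
    have hW1 := congrArg W hN1
    rw [map_zsmul, map_add, map_zsmul, map_zsmul, zsmul_eq_mul, zsmul_eq_mul, zsmul_eq_mul]
      at hW1
    have hN0' : (N : ℝ) ≠ 0 := by exact_mod_cast hN0
    have ho' : ((starRingEnd ℂ) (W s) * W r).im = 0 := by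
      have : ((starRingEnd ℂ) (W s) * W r).im = -((starRingEnd ℂ) (W r) * W s).im := by
        simp only [Complex.mul_im, Complex.conj_re, Complex.conj_im]
        ring
      rw [this, ho, neg_zero]
    have hself : ∀ z : ℂ, ((starRingEnd ℂ) z * z).im = 0 := by
      intro z
      simp only [Complex.mul_im, Complex.conj_re, Complex.conj_im]
      ring
    have key : ∀ w : ℂ, ((starRingEnd ℂ) w * W r).im = 0 → ((starRingEnd ℂ) w * W s).im = 0 →
        ((starRingEnd ℂ) w * W δ).im = 0 := by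
      intro w h1 h2
      have e : ((N : ℝ) : ℂ) * ((starRingEnd ℂ) w * W δ) =
          ((a : ℝ) : ℂ) * ((starRingEnd ℂ) w * W r) +
            ((b : ℝ) : ℂ) * ((starRingEnd ℂ) w * W s) := by
        push_cast
        linear_combination (starRingEnd ℂ) w * hW1
      have e' := congrArg Complex.im e
      rw [Complex.im_ofReal_mul, Complex.add_im, Complex.im_ofReal_mul, Complex.im_ofReal_mul,
        h1, h2, mul_zero, mul_zero, add_zero, mul_eq_zero] at e'
      exact e'.resolve_left hN0'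
    have hr0 : rotIm W t r = 0 := XRG_det hρ.ne' hδ (key _ (hself _) ho)
    have hs0 : rotIm W t s = 0 := XRG_det hρ.ne' hδ (key _ ho' (hself _))
    have hrr : eulerForm h.k3 r r ≤ 2 := by rw [mem_radical.1 hr r]; norm_num
    have hss : eulerForm h.k3 s s ≤ 2 := by rw [mem_radical.1 hs s]; norm_num
    obtain ⟨k, hk⟩ := L.imrad r hr (hS0 r hrr hr0)
    obtain ⟨l, hl⟩ := L.imrad s hs (hS0 s hss hs0)
    have h1 : l • r = k • s := by rw [hk, hl, smul_smul, smul_smul, mul_comm]
    obtain ⟨-, h3⟩ := hind l k h1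
    rw [h3, zero_smul] at hk
    have h4 := hind 1 0 (by rw [hk, smul_zero, zero_smul])
    exact one_ne_zero h4.1
  · intro τ hτ
    have him : τ.im t = rotIm W t := by
      ext x
      rw [StabCond.im_apply, rotIm_apply, hτ]
    refine
      { toTubeHyp := ⟨F.rad, F.ne, F.prim, ?_, ?_, ?_⟩
        toSimpleRoots := ⟨F.norm, F.off, ?_, F.span, F.indep, ?_⟩ }
    · rw [him]; exact hI0
    · rw [StabCond.re_apply, hτ, XRG_rot hδ, Complex.ofReal_re]
      linarith
    · rw [him]; exact hroot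
    · rw [him]; exact hpos
    · rw [him]
      exact fun x hx hx0 => F.nonneg x hx (hSP x hx hx0)

end Pool.Tube
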