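import Mathlib
import Pool.Agent.Work.MP_841263_tu.All
import Pool.Agent.Work.MP_841263_tu.B_RNK
import Pool.Agent.Work.MP_841263_tu.B_XRG
import Pool.Agent.Work.MP_841263_tu.B_OPN
import Pool.Agent.Work.MP_841263_tu.B_CEL

/-!
# Tube structure theorem: assembly of the blocks of part 2
-/

open CategoryTheory CategoryTheory.Limits CategoryTheory.Pretriangulated
open scoped ZeroObject

namespace Pool.Tube

open Pool.Stab

universe v u

section

variable (C : Type u) [Category.{v} C] [Preadditive C] [HasZeroObject C] [HasShift C ℤ]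
  [∀ n : ℤ, (shiftFunctor C n).Additive] [Pretriangulated C] [IsTriangulated C] [Linear ℂ C]
  [∀ n : ℤ, (shiftFunctor C n).Linear ℂ]

theorem c_RNK : Stmt_RNK C := p_RNK (C := C)

theorem c_XRG : Stmt_XRG C := p_XRG (C := C) (c_LHY C)

theorem c_OPN : Stmt_OPN C := p_OPN (C := C) (c_SPH C)

theorem c_CEL : Stmt_CEL C := p_CEL (C := C) (c_XRG C) (c_OPN C) (c_UNI C) (c_EXI C)

end

end Pool.Tube
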