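import Mathlib
import Pool.Agent.Work.MP_841263_tu.All2

/-!
# Tube structure theorem: the final statements
-/

open CategoryTheory CategoryTheory.Limits CategoryTheory.Pretriangulated
open scoped ZeroObject

namespace Pool.Tube

open Pool.Stab

universe v u

variable {C : Type u} [Category.{v} C] [Preadditive C] [HasZeroObject C] [HasShift C ℤ]
  [∀ n : ℤ, (shiftFunctor C n).Additive] [Pretriangulated C] [IsTriangulated C] [Linear ℂ C]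
  [∀ n : ℤ, (shiftFunctor C n).Linear ℂ]

/-- A `Fibre` whose charge is in the cell is a `Frame`. -/
lemma exists_frame (h : EllipticSetting C) (σ : StabCond C) (δ : K0 C)
    (hδ : δ ∈ radical (eulerForm h.k3)) (h0 : δ ≠ 0)
    (hprim : ∀ (x : K0 C) (m : ℤ), δ = m • x → m = 1 ∨ m = -1)
    (hgen : ∀ β, eulerForm h.k3 β β = 2 → (σ.Z β / σ.Z δ).im ≠ 0) :
    ∃ (t : ℝ) (n : ℕ) (α : Fin n → K0 C),
      σ.Z δ = -(‖σ.Z δ‖ : ℂ) * Complex.exp (Real.pi * t * Complex.I) ∧ Frame h σ t δ α := by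
  have := h.finite
  have := h.free
  obtain ⟨t, hZ, T⟩ := c_TUB C h σ δ hδ h0 hprim hgen
  obtain ⟨n, α, hα⟩ := c_BAS (K0 C) (eulerForm h.k3) (σ.im t) δ (c_LHY C h σ t δ T)
  exact ⟨t, n, α, hZ, ⟨T, hα⟩⟩

/-- The stability conditions with the same objects `S i 0`, `S i 1`. -/
def SameFibre (h : EllipticSetting C) (t : ℝ) (δ : K0 C) {n : ℕ} (α : Fin n → K0 C)
    (S : Fin n → ℤ → C) (τ : StabCond C) : Prop :=
  ∃ S' : Fin n → ℤ → C, Fibre h τ t δ α S' ∧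
    ∀ i, Nonempty (S' i 0 ≅ S i 0) ∧ Nonempty (S' i 1 ≅ S i 1)

lemma eq_of_sameFibre (h : EllipticSetting C) {t : ℝ} {δ : K0 C} {n : ℕ} {α : Fin n → K0 C}
    {S : Fin n → ℤ → C} {τ τ' : StabCond C} (F : Frame h τ t δ α) (F' : Frame h τ' t δ α)
    (hZ : τ'.Z = τ.Z) (hS : SameFibre h t δ α S τ) (hS' : SameFibre h t δ α S τ') :
    τ' = τ := by
  obtain ⟨A, hA, eA⟩ := hS
  obtain ⟨B, hB, eB⟩ := hS'
  have hA1 := c_FBS C h τ t δ n α A hA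
  have hB1 := c_FBS C h τ' t δ n α B hB
  have hex : ∀ (i : Fin n) (k : ℤ), ∃ X, IsS τ t δ α i k X ∧ IsS τ' t δ α i k X := by
    intro i
    refine c_UQ1 C h τ τ' t δ n α F F' i ⟨A i 0, hA1 i 0, ?_⟩ ⟨A i 1, hA1 i 1, ?_⟩
    · obtain ⟨⟨a⟩, -⟩ := eA i
      obtain ⟨⟨b⟩, -⟩ := eB i
      exact UQ1_isS_iso (hB1 i 0) (b ≪≫ a.symm)
    · obtain ⟨-, ⟨a⟩⟩ := eA i
      obtain ⟨-, ⟨b⟩⟩ := eB i
      exact UQ1_isS_iso (hB1 i 1) (b ≪≫ a.symm)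
  have h1 := c_UQ2 C h τ τ' t δ n α F F' hex
  have h2 := c_UQ2 C h τ' τ t δ n α F' F (fun i k => by
    obtain ⟨X, hX, hX'⟩ := hex i k
    exact ⟨X, hX', hX⟩)
  exact (c_UQ3 C τ τ' t hZ (fun X => ⟨h1 X, h2 X⟩)).symm

/-- Every stability condition with the same frame has a fibre. -/
lemma exists_fibre (h : EllipticSetting C) {t : ℝ} {δ : K0 C} {n : ℕ} {α : Fin n → K0 C}
    {τ : StabCond C} (F : Frame h τ t δ α) : ∃ S : Fin n → ℤ → C, Fibre h τ t δ α S := by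
  obtain ⟨S, -, hS⟩ := c_FIB C h τ t δ n α F
  exact ⟨S, hS⟩

theorem exists_cell (h : EllipticSetting C) {t : ℝ} {δ : K0 C} {n : ℕ} {α : Fin n → K0 C}
    {τ : StabCond C} (F : Frame h τ t δ α) {S : Fin n → ℤ → C} (hS : Fibre h τ t δ α S)
    (W : K0 C →+ ℂ) (hW : InCell t δ α W) :
    ∃ τ' : StabCond C, (τ'.Z = W ∧ Joined τ τ' ∧ SameFibre h t δ α S τ') ∧
      ∀ τ'' : StabCond C, τ''.Z = W → SameFibre h t δ α S τ'' → τ'' = τ' := by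
  obtain ⟨τ', hZ, hJ, F', hIs⟩ := c_CEL C h τ t δ n α F W hW
  have hS1 := c_FBS C h τ t δ n α S hS
  obtain ⟨S', hS'1, hS'⟩ := c_FIB C h τ' t δ n α F'
  have hsame : SameFibre h t δ α S τ' :=
    ⟨S', hS', fun i => ⟨c_UNI C h τ' t δ n α F' i 0 _ _ (hS'1 i 0) (hIs i 0 _ (hS1 i 0)),
      c_UNI C h τ' t δ n α F' i 1 _ _ (hS'1 i 1) (hIs i 1 _ (hS1 i 1))⟩⟩
  refine ⟨τ', ⟨hZ, hJ, hsame⟩, fun τ'' hZ'' hsame'' => ?_⟩
  have F'' := (c_XRG C h τ t δ n α F W hW).2 τ'' hZ''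
  exact eq_of_sameFibre h F' F'' (hZ''.trans hZ.symm) hsame hsame''

theorem tube_structure (h : EllipticSetting C) (σ : StabCond C) (δ : K0 C)
    (hδ : δ ∈ radical (eulerForm h.k3)) (h0 : δ ≠ 0)
    (hprim : ∀ (x : K0 C) (m : ℤ), δ = m • x → m = 1 ∨ m = -1)
    (hgen : ∀ β : K0 C, eulerForm h.k3 β β = 2 → (σ.Z β / σ.Z δ).im ≠ 0) :
    ∃ (t : ℝ) (n : ℕ) (α : Fin n → K0 C),
      σ.Z δ = -(‖σ.Z δ‖ : ℂ) * Complex.exp (Real.pi * t * Complex.I) ∧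
      Module.finrank ℤ (K0 C) = n + 1 ∧ InCell t δ α σ.Z ∧
      ∀ τ : StabCond C, InCell t δ α τ.Z →
        (∃ S : Fin n → ℤ → C, Fibre h τ t δ α S) ∧
        ∀ S : Fin n → ℤ → C, Fibre h τ t δ α S → ∀ W : K0 C →+ ℂ, InCell t δ α W →
          ∃ τ' : StabCond C, (τ'.Z = W ∧ Joined τ τ' ∧ SameFibre h t δ α S τ') ∧
            ∀ τ'' : StabCond C, τ''.Z = W → SameFibre h t δ α S τ'' → τ'' = τ' := by
  obtain ⟨t, n, α, hZ, F⟩ := exists_frame h σ δ hδ h0 hprim hgen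
  refine ⟨t, n, α, hZ, c_RNK C h σ t δ n α F, ⟨⟨‖σ.Z δ‖, ?_, hZ⟩, fun i => F.pos i⟩, ?_⟩
  · rw [norm_pos_iff]
    exact h.Z_ne_zero σ (by
      have h1 : eulerForm h.k3 δ δ = 0 := hδ δ
      rw [h1]; norm_num) h0
  · intro τ hτ
    have Fτ := (c_XRG C h σ t δ n α F τ.Z hτ).2 τ rfl
    exact ⟨exists_fibre h Fτ, fun S hS W hW => exists_cell h Fτ hS W hW⟩

end Pool.Tube
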