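import Pool.Agent.Work.MP_841263_tu.Interface

/-! # Tube structure theorem, block ATM: the objects `IsS` are atomic -/

open CategoryTheory CategoryTheory.Limits CategoryTheory.Pretriangulated
open scoped ZeroObject

namespace Pool.Tube

open Pool.Stab

universe v u

/-- Two families of natural numbers whose sum is a unit vector. -/
lemma ATM_unit {n : ℕ} (i : Fin n) (c d : Fin n → ℕ)
    (h : ∀ j, ((c j : ℤ) + d j) - (if j = i then 1 else 0) = 0) (hc : c ≠ 0) : d = 0 := by
  have h1 : c i = 1 ∧ d i = 0 := by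
    have h2 := h i
    rw [if_pos rfl] at h2
    have h3 : c i ≠ 0 := by
      intro h4
      apply hc
      funext j
      by_cases hj : j = i
      · rw [hj]
        exact h4
      · have h5 := h j
        rw [if_neg hj] at h5
        have h6 : c j = 0 := by omega
        exact h6
    omega
  funext j
  by_cases hj : j = i
  · rw [hj]
    exact h1.2
  · have h5 := h j
    rw [if_neg hj] at h5
    have h6 : d j = 0 := by omega
    exact h6

/-- ATM. -/
theorem p_ATM {C : Type u} [Category.{v} C] [Preadditive C] [HasZeroObject C] [HasShift C ℤ]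
    [∀ n : ℤ, (shiftFunctor C n).Additive] [Pretriangulated C] [IsTriangulated C] [Linear ℂ C]
    [∀ n : ℤ, (shiftFunctor C n).Linear ℂ] (hHCL : Stmt_HCL C) : Stmt_ATM C := by
  intro h σ t δ n α hF i k X hX
  refine ⟨hX.1, fun Y Z f g w hT hY hZ => ?_⟩
  by_cases h0 : IsZero Y
  · exact Or.inl h0
  right
  have hfin := h.finite
  have hfree := h.free
  have hTF : σ.TF t Y := hX.1.sub hT hY hZ h0
  obtain ⟨ε, hε, hgap⟩ := σ.exists_gap h.k3 (isPSD_of h.k3 h.psd) h.rank hF.rad hF.ne hF.im0
  have hpos : ε ≤ σ.im t (cls Y) := σ.gap_tf hε hgap hTF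
  obtain ⟨a, c, hc⟩ := hHCL h σ t δ n α hF Y hY
  obtain ⟨b, d, hd⟩ := hHCL h σ t δ n α hF Z hZ
  have hcls : α i + k • δ = cls Y + cls Z := by
    rw [← hX.2]
    exact cls_mk hT
  have hsum : α i = ∑ j, (if j = i then (1 : ℤ) else 0) • α j := by
    rw [Finset.sum_eq_single i]
    · rw [if_pos rfl, one_smul]
    · intro j _ hj
      rw [if_neg hj, zero_smul]
    · intro hi
      exact absurd (Finset.mem_univ i) hi
  have hrel : (a + b - k) • δ +
      ∑ j, (((c j : ℤ) + d j) - (if j = i then 1 else 0)) • α j = 0 := by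
    have e1 : ∑ j, (((c j : ℤ) + d j) - (if j = i then 1 else 0)) • α j =
        ∑ j, (c j : ℤ) • α j + ∑ j, (d j : ℤ) • α j - α i := by
      conv_rhs => rw [hsum]
      rw [← Finset.sum_add_distrib, ← Finset.sum_sub_distrib]
      refine Finset.sum_congr rfl fun j _ => ?_
      rw [sub_smul, add_smul]
    rw [e1, sub_smul, add_smul]
    rw [hc, hd] at hcls
    rw [← sub_eq_zero] at hcls
    rw [← neg_eq_zero, ← hcls]
    abel
  obtain ⟨-, hz⟩ := hF.indep _ _ hrel
  have hc0 : c ≠ 0 := by
    intro hc0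
    have h1 : cls Y = a • δ := by
      rw [hc, hc0]
      simp
    rw [h1, map_zsmul, hF.im0, smul_zero] at hpos
    linarith
  have hd0 : d = 0 := ATM_unit i c d hz hc0
  refine σ.P_of_im hZ ?_
  have h1 : cls Z = b • δ := by
    rw [hd, hd0]
    simp
  rw [h1, map_zsmul, hF.im0, smul_zero]

end Pool.Tube
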