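import Pool.Agent.Work.MP_841263_tu.Interface

/-! # Tube structure theorem, block GAP: a lower bound for the imaginary part -/

namespace Pool.Tube

open Pool.Stab

universe u

/-- GAP. -/
theorem p_GAP : Stmt_GAP.{u} := by
  intro K _ _ _ B im δ h
  obtain ⟨F, hF⟩ := h.psd.finite_mod_radical 2
  obtain ⟨η, hη⟩ := exists_step _ h.rank im h.rad h.ne h.im0
  set W : Set ℝ := ⋃ f ∈ F, {v : ℝ | v ∈ Set.Ioc (0 : ℝ) 1 ∧ ∃ n : ℤ, v = im f + n * η}
    with hW
  have hWfin : W.Finite := F.finite_toSet.biUnion (fun f _ => finite_Ioc_progression _ _)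
  have hmem : ∀ x, B x x ≤ 2 → 0 < im x → im x ≤ 1 → im x ∈ W := by
    intro x hx hpos hle
    obtain ⟨f, hfF, hf⟩ := hF x hx
    obtain ⟨n, hn⟩ := hη _ hf
    rw [hW, Set.mem_iUnion₂]
    refine ⟨f, hfF, ⟨hpos, hle⟩, n, ?_⟩
    rw [map_sub] at hn
    linarith
  by_cases hne : W.Nonempty
  · obtain ⟨ε, hε, hmin⟩ := Set.exists_min_image W id hWfin hne
    rw [hW, Set.mem_iUnion₂] at hε
    obtain ⟨f, -, ⟨hε1, hε2⟩, -⟩ := hε
    refine ⟨ε, hε1, ?_⟩
    intro x hx hpos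
    by_cases hle : im x ≤ 1
    · exact hmin _ (hmem x hx hpos hle)
    · push Not at hle
      exact hε2.trans hle.le
  · refine ⟨1, one_pos, ?_⟩
    intro x hx hpos
    by_contra hle
    push Not at hle
    exact hne ⟨_, hmem x hx hpos hle.le⟩

end Pool.Tube
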