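import Pool.Agent.Work.MP_841263_tu.Interface

/-!
# Block PEN of the tube structure theorem: the pencil argument
-/

open CategoryTheory CategoryTheory.Limits CategoryTheory.Pretriangulated
open scoped ZeroObject

set_option backward.isDefEq.respectTransparency false
set_option backward.defeqAttrib.useBackward true
set_option linter.unusedSectionVars false

namespace Pool.Tube

open Pool.Stab

universe v u

section PEN_aux

variable {C : Type u} [Category.{v} C] [Preadditive C] [HasZeroObject C] [HasShift C ℤ]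
  [∀ n : ℤ, (shiftFunctor C n).Additive] [Pretriangulated C]

/-- If `Hom(Z, Q) = 0` then `f ≫ a = 0` implies `a = 0`. -/
theorem PEN_inj {W X Z Q : C} {f : W ⟶ X} {p : X ⟶ Z} {q : Z ⟶ W⟦(1 : ℤ)⟧}
    (hT : Triangle.mk f p q ∈ distTriang C) (h0 : ∀ b : Z ⟶ Q, b = 0) (a : X ⟶ Q)
    (ha : f ≫ a = 0) : a = 0 := by
  obtain ⟨b, hb⟩ := Triangle.yoneda_exact₂ _ hT a ha
  rw [hb, h0 b, comp_zero]

/-- If `Hom(Z, Q[1]) = 0` then every `b : W ⟶ Q` is `f ≫ a`. -/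
theorem PEN_surj {W X Z Q : C} {f : W ⟶ X} {p : X ⟶ Z} {q : Z ⟶ W⟦(1 : ℤ)⟧}
    (hT : Triangle.mk f p q ∈ distTriang C) (h1 : ∀ b : Z ⟶ Q⟦(1 : ℤ)⟧, b = 0) (b : W ⟶ Q) :
    ∃ a : X ⟶ Q, f ≫ a = b := by
  have hT2 := rot_mk (rot_mk hT)
  obtain ⟨g, hg⟩ := Triangle.yoneda_exact₂ _ hT2 (b⟦(1 : ℤ)⟧') (h1 _)
  have hg' : b⟦(1 : ℤ)⟧' = (-f⟦(1 : ℤ)⟧') ≫ g := hg
  obtain ⟨g₀, hg₀⟩ : ∃ g₀ : X ⟶ Q, g₀⟦(1 : ℤ)⟧' = g :=
    ⟨(shiftFunctor C (1 : ℤ)).preimage _, Functor.map_preimage _ _⟩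
  refine ⟨-g₀, ?_⟩
  apply (shiftFunctor C (1 : ℤ)).map_injective
  rw [hg', Functor.map_comp, Functor.map_neg, hg₀, Preadditive.comp_neg, Preadditive.neg_comp]

end PEN_aux

theorem p_PEN {C : Type u} [Category.{v} C] [Preadditive C] [HasZeroObject C] [HasShift C ℤ]
    [∀ n : ℤ, (shiftFunctor C n).Additive] [Pretriangulated C] [IsTriangulated C] [Linear ℂ C]
    [∀ n : ℤ, (shiftFunctor C n).Linear ℂ] (hPTP : Stmt_PTP C) (hTWO : Stmt_TWO C)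
    (hPNT : Stmt_PNT C) : Stmt_PEN C := by
  intro h σ t δ n α F i k W X Q hW hX hQ hg
  by_contra hcon
  push Not at hcon
  have hK := h.k3
  have hQs := hQ.simple
  obtain ⟨m, hm, -⟩ := hPTP h σ t δ F.toTubeHyp Q hQ.1
  have hrad : ∀ y, eulerForm h.k3 δ y = 0 := F.rad
  -- the cone of a nonzero morphism
  have key : ∀ f : W ⟶ X, f ≠ 0 → ∃ (Z : C) (p : X ⟶ Z) (q : Z ⟶ W⟦(1 : ℤ)⟧),
      Triangle.mk f p q ∈ distTriang C ∧ (∀ b : Z ⟶ Q, b = 0) ∧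
        ∀ b : Z ⟶ Q⟦(1 : ℤ)⟧, b = 0 := by
    intro f hf
    obtain ⟨Z, p, q, hT⟩ := distinguished_cocone_triangle f
    obtain ⟨hZ, hcZ⟩ := hPNT h σ t δ n α F i k W X hW hX f Z p q hf hT
    have hZs := hZ.simple
    have hno : ¬ Nonempty (Z ≅ Q) := by
      rintro ⟨e⟩
      exact hcon f _ _ hf (tri_last_iso hT e)
    have h1 : ∀ b : Z ⟶ Q, b = 0 := by
      intro b
      by_contra hb
      have := hZs.isIso hQs b hb
      exact hno ⟨asIso b⟩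
    have h2 : ∀ b : Q ⟶ Z, b = 0 := by
      intro b
      by_contra hb
      have := hQs.isIso hZs b hb
      exact hno ⟨(asIso b).symm⟩
    have h3 : eulerChar Z Q = 0 := by
      rw [← eulerForm_cls h.k3, hcZ, hrad]
    have h4 := hZs.1.eulerChar h.k3 hQs.1
    rw [h3, finrank_of_forall_zero h1, finrank_of_forall_zero h2] at h4
    have h5 : Module.finrank ℂ (Z ⟶ Q⟦(1 : ℤ)⟧) = 0 := by
      push_cast at h4
      omega
    exact ⟨Z, p, q, hT, h1, forall_zero_of_finrank h.k3 h5⟩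
  have h2 : 1 < Module.finrank ℂ (W ⟶ X) := by
    rw [(hTWO h σ t δ n α F i k W X hW hX).1]
    norm_num
  have hfd := hK.homFinite W X
  obtain ⟨p₁, hp₁⟩ : ∃ p : W ⟶ X, p ≠ 0 := by
    have : 0 < Module.finrank ℂ (W ⟶ X) := by omega
    exact Module.finrank_pos_iff_exists_ne_zero.1 this
  obtain ⟨p₂, hp₂⟩ := exists_linearIndependent_pair_of_one_lt_finrank h2 hp₁
  have hne : ∀ lam : ℂ, p₂ - lam • p₁ ≠ 0 := by
    intro lam h0
    have h1 := LinearIndependent.pair_iff.1 hp₂ (-lam) 1 (by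
      rw [one_smul, neg_smul, ← h0]; abel)
    exact one_ne_zero h1.2
  obtain ⟨Z₁, a₁, b₁, hT₁, hI₁, hS₁⟩ := key p₁ hp₁
  obtain ⟨g, hg0⟩ := hg
  have hfd1 := hK.homFinite X Q
  have hfd2 := hK.homFinite W Q
  have hnt : Nontrivial (X ⟶ Q) := ⟨g, 0, hg0⟩
  let φ₁ : (X ⟶ Q) →ₗ[ℂ] (W ⟶ Q) := Linear.leftComp ℂ Q p₁
  let φ₂ : (X ⟶ Q) →ₗ[ℂ] (W ⟶ Q) := Linear.leftComp ℂ Q p₂
  have hinj : Function.Injective φ₁ := by
    rw [injective_iff_map_eq_zero]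
    intro a ha
    exact PEN_inj hT₁ hI₁ a ha
  have hsurj : Function.Surjective φ₁ := by
    intro b
    obtain ⟨c, hc⟩ := PEN_surj hT₁ hS₁ b
    exact ⟨c, hc⟩
  let e₁ := LinearEquiv.ofBijective φ₁ ⟨hinj, hsurj⟩
  obtain ⟨lam, hlam⟩ := Module.End.exists_eigenvalue (K := ℂ)
    ((e₁.symm : (W ⟶ Q) →ₗ[ℂ] (X ⟶ Q)) ∘ₗ φ₂)
  obtain ⟨v, hv⟩ := hlam.exists_hasEigenvector
  have hv1 := hv.apply_eq_smul
  have hv0 := hv.2
  have hv2 : φ₂ v = lam • φ₁ v := by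
    have h3 : e₁.symm (φ₂ v) = lam • v := hv1
    have h4 : e₁ (e₁.symm (φ₂ v)) = e₁ (lam • v) := by rw [h3]
    rw [LinearEquiv.apply_symm_apply, map_smul] at h4
    exact h4
  obtain ⟨Z₃, a₃, b₃, hT₃, hI₃, -⟩ := key (p₂ - lam • p₁) (hne lam)
  apply hv0
  refine PEN_inj hT₃ hI₃ v ?_
  have h5 : p₂ ≫ v = lam • (p₁ ≫ v) := hv2
  rw [Preadditive.sub_comp, Linear.smul_comp, h5, sub_self]

end Pool.Tube
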