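import Pool.Agent.Work.MP_841263_tu.Interface

set_option autoImplicit false

open CategoryTheory CategoryTheory.Limits CategoryTheory.Pretriangulated

namespace Pool.Tube

open Pool.Stab

universe v u

theorem p_TRF {C : Type u} [Category.{v} C] [Preadditive C] [HasZeroObject C] [HasShift C ℤ]
    [∀ n : ℤ, (shiftFunctor C n).Additive] [Pretriangulated C] [IsTriangulated C] [Linear ℂ C]
    [∀ n : ℤ, (shiftFunctor C n).Linear ℂ] : Stmt_TRF C := by
  intro h σ τ t δ n α F hZ
  have him : τ.im t = σ.im t := by
    unfold StabCond.im
    rw [hZ]
  have hre : τ.re t = σ.re t := by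
    unfold StabCond.re
    rw [hZ]
  exact { rad := F.rad, ne := F.ne, prim := F.prim, im0 := by rw [him]; exact F.im0
          re0 := by rw [hre]; exact F.re0
          imroot := by rw [him]; exact F.imroot
          norm := F.norm, off := F.off
          pos := by rw [him]; exact F.pos
          span := F.span, indep := F.indep
          nonneg := by rw [him]; exact F.nonneg }

end Pool.Tube
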